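import Pool.Agent.Helper49.TT.ModF
import Pool.Agent.Helper49.RD.Side
import Pool.Agent.Helper49.DX.Wd

/-!
Block TT-H: tightness of the rescaled interface in the uniform topology.

Paper proof of `tight`. `C₀` from `mod_up`, `C₁` the constant of `width` (`DX/Wd.lean`); `L n = ⌈C₁ log n⌉ + 1`, `k₀ n = ⌈C₀ log n⌉ + 3 + L n`. Bad events: `Wide n ω (L n)` (probability `→ 0`); `U`: the event of `mod_up` with `ε/4`; `U'`: the mirror event `∃ x x' K k, |x - x'| ≤ δ n, C₀ log n + 3 ≤ K, (ε/4) √n ≤ k,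
¬ Beneath n x K, Beneath n x' (K + k)`, which has the same probability as `U` (`avg_rf`, `Beneath n x K ω ↔ Above n x K (rf ω)`, see the proof of `reflect` in `DX/Exc.lean`). Claim: for large `n` the event (`¬ Above n x K`, `Above n x' (K + k)`, `k ≥ ε √n`, `|x|, |x'| ≤ n`, `|x - x'| ≤ δ n`) implies `Wide`, `U` or `U'`. Let not `Wide`, `q = ⌈(ε/4) √n⌉ ≥ k₀ n` for large `n`, `k ≥ 4 q - 4`.
(a) `K + k ≥ k₀ + q`: if `K ≥ k₀`, `U` holds (`K`, `q ≤ k`). If `K < k₀` then `¬ Above n x k₀` (`above_mono`), `Above n x' (k₀ + q)`: `U` holds.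
(b) `K + k < k₀ + q`: then `K < k₀ + q - k ≤ -2 q + 4 + k₀ < -q` for large `n`. In the column `x` (`|x| ≤ n`) there is an interface bond `((x, y), false)` (`gg (x, -n) = 1`, `gg_above`), and all have `y < K`: so `Beneath n x (1 - K)`. In the column `x'` there is an interface bond at a height `≥ K + k`, so (not `Wide`) all are at heights `> K + k - L`, i.e.
`¬ Beneath n x' K'` for `K' ≥ L - K - k`. Let `K' = max (L - K - k, k₀)`: `K' + q ≤ 1 - K` (`L - K - k + q ≤ 1 - K` as `k ≥ L + q`, and `k₀ + q ≤ 1 - K` as `K < -2 q + 4 + k₀` and ... for large `n`, use `q ≥ 2 k₀ + 5` for large `n`). So `¬ Beneath n x' K'`, `Beneath n x (K' + q)`: `U'` holds (with the roles of `x` and `x'` exchanged).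
-/

open Finset
open scoped Classical

namespace Pool.Agent.Helper49.TT

open Pool.Agent.Helper49.DL Pool.Agent.Helper49.DX

private theorem col_exists33 {N M : ℤ} {ω : Cfg} (h : ω ∈ confs (box N M) (eta 0)) (hN : 0 ≤ N) (hM : 1 ≤ M) (x : ℤ) :
    ∃ y, Interface N ω ((x, y), false) := by
  have h1 := col_odd h hN hM x
  by_contra hne
  push Not at hne
  rw [Finset.sum_eq_zero] at h1
  · exact zero_ne_one h1
  · intro y _
    unfold ig
    rw [if_neg (hne y)]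

private theorem mirror33 {n : ℤ} (hn : 1 ≤ n) (β J : ℝ) (R : ℤ → ℤ → ℤ → ℤ → Prop) :
    PJ β J n (fun ω => ∃ x x' K k : ℤ, R x x' K k ∧ ¬ Beneath n x K ω ∧ Beneath n x' (K + k) ω) =
      PJ β J n (fun ω => ∃ x x' K k : ℤ, R x x' K k ∧ ¬ Above n x K ω ∧ Above n x' (K + k) ω) := by
  unfold PJ
  rw [← avg_rf hn β J (fun ω => if (∃ x x' K k : ℤ, R x x' K k ∧ ¬ Above n x K ω ∧ Above n x' (K + k) ω) then 1 else 0)]
  refine avg_congr fun ω _ => ?_
  have key : ∀ x K : ℤ, Beneath n x K ω ↔ Above n x K (rf ω) := by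
    intro x K
    constructor
    · rintro ⟨y, hy, h⟩
      exact ⟨-y, by omega, by simpa [rfb] using interface_rf.2 h⟩
    · rintro ⟨y, hy, h⟩
      refine ⟨-y, by omega, ?_⟩
      have h1 := interface_rf.2 h
      rw [rf_rf] at h1
      simpa [rfb] using h1
  simp only [key]

private theorem above_mono33 {N x K K' : ℤ} {ω : Cfg} (h : K ≤ K') (hA : Above N x K' ω) : Above N x K ω := by
  obtain ⟨y, hy, hi⟩ := hA
  exact ⟨y, h.trans hy, hi⟩

private theorem beneath_mono33 {N x K K' : ℤ} {ω : Cfg} (h : K ≤ K') (hA : Beneath N x K' ω) : Beneath N x K ω := by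
  obtain ⟨y, hy, hi⟩ := hA
  exact ⟨y, by omega, hi⟩

private theorem large33 {c a : ℝ} (hc : 0 < c) (ha : 0 < a) :
    ∃ n₀ : ℕ, ∀ n : ℕ, n₀ ≤ n → c * Real.log n + 17 ≤ a * Real.sqrt n := by
  have h1 : ∀ᶠ n : ℕ in Filter.atTop, ‖Real.log n‖ ≤ a / (2 * c) * ‖(n : ℝ) ^ (1 / 2 : ℝ)‖ :=
    tendsto_natCast_atTop_atTop.eventually
      ((isLittleO_log_rpow_atTop (r := 1 / 2) (by norm_num)).def (show 0 < a / (2 * c) by positivity))
  have h2 : ∀ᶠ n : ℕ in Filter.atTop, (34 / a) ^ 2 ≤ (n : ℝ) :=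
    tendsto_natCast_atTop_atTop.eventually (Filter.eventually_ge_atTop _)
  obtain ⟨n₀, hn₀⟩ := Filter.eventually_atTop.1 (h1.and h2)
  refine ⟨n₀, fun n hn => ?_⟩
  obtain ⟨h3, h4⟩ := hn₀ n hn
  rw [← Real.sqrt_eq_rpow, Real.norm_eq_abs, Real.norm_eq_abs, abs_of_nonneg (Real.sqrt_nonneg _)] at h3
  have h5 : Real.log n ≤ a / (2 * c) * Real.sqrt n := (le_abs_self _).trans h3
  have h6 : 34 / a ≤ Real.sqrt n := Real.le_sqrt_of_sq_le h4
  have h7 : 17 ≤ a / 2 * Real.sqrt n := by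
    have h8 : 34 ≤ Real.sqrt n * a := (div_le_iff₀ ha).1 h6
    linarith
  have h9 : c * Real.log n ≤ a / 2 * Real.sqrt n := by
    calc c * Real.log n ≤ c * (a / (2 * c) * Real.sqrt n) := mul_le_mul_of_nonneg_left h5 hc.le
      _ = a / 2 * Real.sqrt n := by field_simp
  linarith

theorem tight {β₁ β J : ℝ} (h0 : 0 ≤ β₁) (h : β₁ < β) (hm : 0 < mag β₁) (hJ : 1 < J) {ε t : ℝ} (hε : 0 < ε)
    (ht : 0 < t) : ∃ (δ : ℝ) (n₀ : ℕ), 0 < δ ∧ ∀ n : ℕ, n₀ ≤ n →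
      PJ β J n (fun ω => ∃ x x' K k : ℤ, |x| ≤ n ∧ |x'| ≤ n ∧ |(x : ℝ) - x'| ≤ δ * n ∧ ε * Real.sqrt n ≤ k ∧
        ¬ Above n x K ω ∧ Above n x' (K + k) ω) ≤ t := by
  obtain ⟨C₀, hC0, hmod⟩ := mod_up h0 h hm hJ
  obtain ⟨C₁, hC1, hw⟩ := width h0 h hm hJ.le
  obtain ⟨δ, n₁, hδ, hmod⟩ := hmod (ε / 4) (t / 3) (by positivity) (by positivity)
  obtain ⟨n₂, hw⟩ := hw (t / 3) (by positivity)
  obtain ⟨n₃, hn₃⟩ := large33 (c := 2 * (C₀ + C₁)) (a := ε / 4) (by positivity) (by positivity)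
  refine ⟨δ, max (max n₁ n₂.toNat) (max n₃ 1), hδ, fun n hn => ?_⟩
  have hn1 : n₁ ≤ n := le_trans (le_max_left _ _) (le_trans (le_max_left _ _) hn)
  have hn2 : n₂ ≤ (n : ℤ) := by
    have : n₂.toNat ≤ n := le_trans (le_max_right _ _) (le_trans (le_max_left _ _) hn)
    omega
  have hn3 : n₃ ≤ n := le_trans (le_max_left _ _) (le_trans (le_max_right _ _) hn)
  have hn4 : 1 ≤ n := le_trans (le_max_right _ _) (le_trans (le_max_right _ _) hn)
  have hn4' : (1 : ℤ) ≤ n := by exact_mod_cast hn4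
  have hlog : 0 ≤ Real.log n := Real.log_nonneg (by exact_mod_cast hn4)
  have hbig := hn₃ n hn3
  obtain ⟨q, hq⟩ : ∃ q : ℤ, q = ⌈ε / 4 * Real.sqrt n⌉ := ⟨_, rfl⟩
  obtain ⟨L, hL⟩ : ∃ L : ℤ, L = ⌈C₁ * Real.log n⌉ + 1 := ⟨_, rfl⟩
  obtain ⟨k₀, hk₀⟩ : ∃ k₀ : ℤ, k₀ = ⌈C₀ * Real.log n⌉ + 3 + L := ⟨_, rfl⟩
  have hq1 : ε / 4 * Real.sqrt n ≤ q := by rw [hq]; exact Int.le_ceil _
  have hq2 : (q : ℝ) < ε / 4 * Real.sqrt n + 1 := by rw [hq]; exact Int.ceil_lt_add_one _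
  have hL1 : C₁ * Real.log n ≤ L := by
    rw [hL]
    push_cast
    linarith [Int.le_ceil (C₁ * Real.log n)]
  have hL2 : (L : ℝ) < C₁ * Real.log n + 2 := by
    rw [hL]
    push_cast
    linarith [Int.ceil_lt_add_one (C₁ * Real.log n)]
  have hL3 : 1 ≤ L := by
    have : 0 ≤ ⌈C₁ * Real.log n⌉ := Int.ceil_nonneg (by positivity)
    omega
  have hk1 : C₀ * Real.log n + 3 ≤ k₀ := by
    rw [hk₀]
    push_cast
    have : (1 : ℝ) ≤ L := by exact_mod_cast hL3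
    linarith [Int.le_ceil (C₀ * Real.log n)]
  have hk2 : (k₀ : ℝ) < C₀ * Real.log n + 4 + L := by
    rw [hk₀]
    push_cast
    linarith [Int.ceil_lt_add_one (C₀ * Real.log n)]
  have hqk : 2 * k₀ + 5 ≤ q := by
    have h1 : ((2 * k₀ + 5 : ℤ) : ℝ) ≤ (q : ℝ) := by
      push_cast
      linarith
    exact_mod_cast h1
  have hLk : L ≤ k₀ := by
    have : 0 ≤ ⌈C₀ * Real.log n⌉ := Int.ceil_nonneg (by positivity)
    omega
  -- the bad events
  have hW := hw n hn2 L (by rw [Int.cast_natCast]; exact hL1) hL3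
  have hU := hmod n hn1
  have hU' : PJ β J n (fun ω => ∃ x x' K k : ℤ, (|(x : ℝ) - x'| ≤ δ * n ∧ C₀ * Real.log n + 3 ≤ K ∧ ε / 4 * Real.sqrt n ≤ k) ∧
      ¬ Beneath n x K ω ∧ Beneath n x' (K + k) ω) ≤ t / 3 := by
    rw [mirror33 hn4' β J (fun x x' K k => |(x : ℝ) - x'| ≤ δ * n ∧ C₀ * Real.log n + 3 ≤ K ∧ ε / 4 * Real.sqrt n ≤ k)]
    simp only [and_assoc]
    exact hU
  have hsum : t = t / 3 + (t / 3 + t / 3) := by ring
  rw [hsum]
  refine le_trans ?_ (add_le_add hW (add_le_add hU hU'))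
  unfold PJ
  rw [← avg_add, ← avg_add]
  refine avg_mono fun ω hω => ?_
  have n1 : (0 : ℝ) ≤ if Wide n ω L then 1 else 0 := by split_ifs <;> norm_num
  have n2 : (0 : ℝ) ≤ if (∃ x x' K k : ℤ, |(x : ℝ) - x'| ≤ δ * n ∧ C₀ * Real.log n + 3 ≤ K ∧ ε / 4 * Real.sqrt n ≤ k ∧
      ¬ Above n x K ω ∧ Above n x' (K + k) ω) then 1 else 0 := by split_ifs <;> norm_num
  have n3 : (0 : ℝ) ≤ if (∃ x x' K k : ℤ, (|(x : ℝ) - x'| ≤ δ * n ∧ C₀ * Real.log n + 3 ≤ K ∧ ε / 4 * Real.sqrt n ≤ k) ∧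
      ¬ Beneath n x K ω ∧ Beneath n x' (K + k) ω) then 1 else 0 := by split_ifs <;> norm_num
  by_cases hE : ∃ x x' K k : ℤ, |x| ≤ n ∧ |x'| ≤ n ∧ |(x : ℝ) - x'| ≤ δ * n ∧ ε * Real.sqrt n ≤ k ∧
        ¬ Above n x K ω ∧ Above n x' (K + k) ω
  swap
  · rw [if_neg hE]
    positivity
  rw [if_pos hE]
  obtain ⟨x, x', K, k, hx, hx', hxx, hk, hA, hA'⟩ := hE
  by_cases hWi : Wide n ω L
  · rw [if_pos hWi]
    linarith
  have hkq : 4 * q - 3 ≤ k := by
    have h1 : ((4 * q - 4 : ℤ) : ℝ) < (k : ℝ) := by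
      push_cast
      linarith
    have h2 : 4 * q - 4 < k := by exact_mod_cast h1
    omega
  have hqk' : ε / 4 * Real.sqrt n ≤ k := by
    have : 0 ≤ ε / 4 * Real.sqrt n := by positivity
    linarith
  rcases le_or_gt (k₀ + q) (K + k) with hc | hc
  · have hUU : ∃ x x' K k : ℤ, |(x : ℝ) - x'| ≤ δ * n ∧ C₀ * Real.log n + 3 ≤ K ∧ ε / 4 * Real.sqrt n ≤ k ∧
      ¬ Above n x K ω ∧ Above n x' (K + k) ω := by
      rcases le_or_gt k₀ K with hK | hK
      · exact ⟨x, x', K, k, hxx, hk1.trans (by exact_mod_cast hK), hqk', hA, hA'⟩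
      · exact ⟨x, x', k₀, q, hxx, hk1, hq1, fun h' => hA (above_mono33 hK.le h'), above_mono33 hc hA'⟩
    rw [if_pos hUU]
    linarith
  · have hUU : ∃ x x' K k : ℤ, (|(x : ℝ) - x'| ≤ δ * n ∧ C₀ * Real.log n + 3 ≤ K ∧ ε / 4 * Real.sqrt n ≤ k) ∧
      ¬ Beneath n x K ω ∧ Beneath n x' (K + k) ω := by
      obtain ⟨y, hy⟩ := col_exists33 hω (by omega) hn4' x
      have hyK : y < K := by
        by_contra hne
        exact hA ⟨y, not_lt.1 hne, hy⟩
      obtain ⟨y', hy'1, hy'2⟩ := hA'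
      have hlow : ∀ z, Interface n ω ((x', z), false) → K + k - L < z := by
        intro z hz
        by_contra hne
        refine hWi ⟨((x', z), false), ((x', y'), false), hz, hy'2, rfl, ?_⟩
        simp only
        omega
      refine ⟨x', x, max (L - K - k) k₀, q, ⟨?_, ?_, hq1⟩, ?_, ?_⟩
      · rw [abs_sub_comm]
        exact hxx
      · exact hk1.trans (by exact_mod_cast le_max_right _ _)
      · rintro ⟨z, hz1, hz2⟩
        have h1 := hlow z hz2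
        have h2 := le_max_left (L - K - k) k₀
        omega
      · refine ⟨y, ?_, hy⟩
        rcases max_cases (L - K - k) k₀ with h1 | h1 <;> omega
    rw [if_pos hUU]
    linarith

end Pool.Agent.Helper49.TT
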