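import Pool.Agent.Helper49.DX.Bk3

/-!
Block TT-A: the interface in a column of a block is not much higher than at the ends of the block.

Paper proof. Copy `DX/Bk3.lean` (`block_le`) with the event `∃ x, |x| ≤ l ∧ Above l x K` replaced by `Above l (x - c) K` for the fixed column `x`: `P B = ∃ y, H - 1 + K ≤ y ∧ (x, y) ∈ Δ ∧ (x, y) ∈ B`,
`Ev ω = Above l (x - c) K (glue (ubox l m) (shift (-a) ω) (eta 0))`. Nothing else changes.
-/

open Finset
open scoped Classical

namespace Pool.Agent.Helper49.TT

open Pool.Agent.Helper49.DL Pool.Agent.Helper49.DX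

private theorem mem_blkTA {c l H m : ℤ} {i : Site} : i ∈ tr (c, H - 1) (ubox l m) ↔
    (c - l ≤ i.1 ∧ i.1 ≤ c + l) ∧ (H ≤ i.2 ∧ i.2 ≤ H - 1 + m) := by
  rw [mem_tr, mem_ubox]
  simp only [Prod.fst_sub, Prod.snd_sub]
  omega

private theorem conf_subTA {l m : ℤ} {ω : Cfg} (h : ω ∈ confs (ubox l m) (eta 0)) :
    ω ∈ confs (box l m) (eta 0) := by
  rw [mem_confs] at h ⊢
  intro i hi
  refine h i fun h2 => hi ?_
  rw [mem_ubox] at h2
  rw [mem_box]
  omega

/-- the event that the interface of the block is high -/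
private def EvTA (l m K x : ℤ) (a : Site) (ω : Cfg) : Prop :=
  Above l x K (glue (ubox l m) (shift (-a) ω) (eta 0))

private theorem ev_antiTA {l m K x : ℤ} (hl : 0 ≤ l) (hm : 1 ≤ m) {a : Site} {ω ω' : Cfg} (h : ω ≤ ω')
    (h2 : EvTA l m K x a ω') : EvTA l m K x a ω := by
  unfold EvTA at h2 ⊢
  rw [above_iff (conf_subTA (glue_mem _ _ _)) hl hm] at h2 ⊢
  obtain ⟨y, hy, h3⟩ := h2
  refine ⟨y, hy, low_anti ?_ h3⟩
  intro i
  by_cases hi : i ∈ ubox l m
  · rw [glue_in _ _ hi, glue_in _ _ hi]
    exact h _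
  · rw [glue_out _ _ hi, glue_out _ _ hi]

private theorem ev_locTA {l m K x : ℤ} {a : Site} {ω ω' : Cfg} (h : ∀ i ∈ tr a (ubox l m), ω i = ω' i) :
    EvTA l m K x a ω ↔ EvTA l m K x a ω' := by
  have e : glue (ubox l m) (shift (-a) ω) (eta 0) = glue (ubox l m) (shift (-a) ω') (eta 0) := by
    funext i
    by_cases hi : i ∈ ubox l m
    · rw [glue_in _ _ hi, glue_in _ _ hi]
      refine h _ ?_
      rw [mem_tr]
      have : i - -a - a = i := by abel
      rw [this]
      exact hi
    · rw [glue_out _ _ hi, glue_out _ _ hi]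
  unfold EvTA
  rw [e]

/-- the frame -/
private theorem mem_frameTA {N M c l H m : ℤ} {i : Site} : i ∈ frame N M c l H m ↔ i ∈ box N M ∧
    ((|i.1 - c| = l + 1 ∧ H ≤ i.2 ∧ i.2 ≤ H + m) ∨ (|i.1 - c| ≤ l + 1 ∧ i.2 = H + m)) :=
  Finset.mem_filter

/-- The conditional probability. -/
private theorem condTA {β J : ℝ} (hβ : 0 ≤ β) {N M c l H m K x : ℤ} (hl : 0 ≤ l) (hm : 1 ≤ m)
    (hH : 2 ≤ H) {ω : Cfg} (hω : ω ∈ confs (box N M) (eta 0))
    (hC : ∀ i ∈ frame N M c l H m, ω i = true) :
    avg β (kap J) (tr (c, H - 1) (ubox l m)) ω (fun ξ => if EvTA l m K x (c, H - 1) ξ then 1 else 0) ≤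
      avg β (kap 1) (ubox l m) (eta 0) (fun ω => if Above l x K ω then 1 else 0) := by
  set a : Site := (c, H - 1) with ha
  set g : Cfg → ℝ := fun ξ => if EvTA l m K x a ξ then 1 else 0 with hg
  have s1 : avg β (kap J) (tr a (ubox l m)) ω g = avg β (kap 1) (tr a (ubox l m)) ω g := by
    refine avg_kap_congr (fun i hi => ?_) _ _
    rw [mem_vb] at hi
    have hi2 : i.2 ≠ 0 := by
      rcases hi with hi | hi
      · have := mem_blkTA.1 hi
        omega
      · have := mem_blkTA.1 hi
        have e : (i + e2).2 = i.2 + 1 := rfl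
        rw [e] at this
        omega
    unfold kap
    rw [if_neg hi2, if_neg hi2]
  have hmono : Monotone fun ξ => 1 - g ξ := by
    intro ξ ξ' h
    show 1 - g ξ ≤ 1 - g ξ'
    have h1 : EvTA l m K x a ξ' → EvTA l m K x a ξ := ev_antiTA hl hm h
    simp only [hg]
    by_cases h2 : EvTA l m K x a ξ'
    · rw [if_pos h2, if_pos (h1 h2)]
    · rw [if_neg h2]
      split_ifs <;> norm_num
  have hloc : Loc (tr a (ubox l m)) fun ξ => 1 - g ξ := by
    intro ξ ξ' h
    have h1 := ev_locTA (K := K) (x := x) h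
    simp only [hg, h1]
  have s2 : avg β (kap 1) (tr a (ubox l m)) (shift a (eta 0)) (fun ξ => 1 - g ξ) ≤
      avg β (kap 1) (tr a (ubox l m)) ω (fun ξ => 1 - g ξ) := by
    refine avg_bdry hβ (kap_nonneg zero_le_one) (fun i hi hadj => ?_) hmono hloc
    by_cases h2 : i.2 ≤ H - 1
    · have h3 : shift a (eta 0) i = false := by
        simp only [shift, eta, decide_eq_false_iff_not, ha, Prod.snd_sub]
        omega
      rw [h3]
      exact Bool.false_le _
    · have h3 : ω i = true := by
        by_cases hb : i ∈ box N M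
        · refine hC i (mem_frameTA.2 ⟨hb, ?_⟩)
          rw [mem_blkTA] at hi
          rcases hadj with h | h | h | h <;> rw [mem_blkTA] at h <;>
            simp only [e1, e2, Prod.fst_add, Prod.snd_add, Prod.fst_sub, Prod.snd_sub] at h
          · left
            refine ⟨?_, by omega, by omega⟩
            rw [abs_of_nonpos (by omega)]
            omega
          · left
            refine ⟨?_, by omega, by omega⟩
            rw [abs_of_nonneg (by omega)]
            omega
          · exfalso
            omega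
          · right
            refine ⟨?_, by omega⟩
            rw [abs_le]
            omega
        · rw [mem_confs] at hω
          rw [hω i hb]
          unfold eta
          rw [decide_eq_true_eq]
          omega
      rw [h3]
      exact Bool.le_true _
  have s3 : avg β (kap 1) (tr a (ubox l m)) (shift a (eta 0)) g =
      avg β (kap 1) (ubox l m) (eta 0) (fun ω => if Above l x K ω then 1 else 0) := by
    rw [avg_tr, kap_one_shift]
    refine avg_congr fun ξ hξ => ?_
    have e : glue (ubox l m) (shift (-a) (shift a ξ)) (eta 0) = ξ := by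
      rw [shift_shift']
      rw [mem_confs] at hξ
      funext i
      by_cases hi : i ∈ ubox l m
      · rw [glue_in _ _ hi]
      · rw [glue_out _ _ hi, hξ i hi]
    have e2 : EvTA l m K x a (shift a ξ) ↔ Above l x K ξ := by
      unfold EvTA
      rw [e]
    simp only [hg]
    by_cases h : Above l x K ξ
    · rw [if_pos h, if_pos (e2.2 h)]
    · rw [if_neg h, if_neg fun h3 => h (e2.1 h3)]
  have s4 : ∀ η : Cfg, avg β (kap 1) (tr a (ubox l m)) η (fun ξ => 1 - g ξ) =
      1 - avg β (kap 1) (tr a (ubox l m)) η g := by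
    intro η
    have := avg_sub (β := β) (κ := kap 1) (Λ := tr a (ubox l m)) (η := η) (fun _ => 1) g
    rw [avg_const] at this
    exact this
  rw [s4, s4] at s2
  rw [s1, ← s3]
  linarith

theorem block_col {β J : ℝ} (hβ : 0 ≤ β) (hJ : 0 ≤ J) {N M c l H m K x : ℤ} (hl : 0 ≤ l) (hm : 1 ≤ m)
    (hH : 2 ≤ H) (hHM : H - 1 + m ≤ M) (hc : |c| + l ≤ N) (hK : 1 ≤ K) (hx : |x - c| ≤ l) :
    avg β (kap J) (box N M) (eta 0) (fun ω =>
        if ¬ Above N (c - l - 1) H ω ∧ ¬ Above N (c + l + 1) H ω ∧
          (∀ x', |x' - c| ≤ l → ¬ Above N x' (H - 1 + m) ω) ∧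
          Above N x (H - 1 + K) ω then 1 else 0) ≤
      avg β (kap 1) (ubox l m) (eta 0) (fun ω => if Above l (x - c) K ω then 1 else 0) := by
  have hc0 := abs_nonneg c
  have hc1 := le_abs_self c
  have hc2 := neg_abs_le c
  have hN : 0 ≤ N := by omega
  have hM : 1 ≤ M := by omega
  set a : Site := (c, H - 1) with ha
  set C := frame N M c l H m with hCdef
  have hCb : C ⊆ box N M := Finset.filter_subset _ _
  set P : Finset Site → Prop := fun B => ∃ y : ℤ, H - 1 + K ≤ y ∧
    ((x, y) : Site) ∈ tr a (ubox l m) ∧ ((x, y) : Site) ∈ B with hP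
  set f : Cfg → ℝ := fun ω => if ∀ i ∈ C, ω i = true then 1 else 0 with hf
  set g : Cfg → ℝ := fun ξ => if EvTA l m K (x - c) a ξ then 1 else 0 with hg
  set R : ℝ := avg β (kap 1) (ubox l m) (eta 0)
    (fun ω => if Above l (x - c) K ω then 1 else 0) with hR
  have hf0 : ∀ ω, 0 ≤ f ω := fun ω => by
    simp only [hf]
    split_ifs <;> norm_num
  -- the event is contained in the event of `expl`
  have s1 : avg β (kap J) (box N M) (eta 0) (fun ω =>
        if ¬ Above N (c - l - 1) H ω ∧ ¬ Above N (c + l + 1) H ω ∧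
          (∀ x', |x' - c| ≤ l → ¬ Above N x' (H - 1 + m) ω) ∧
          Above N x (H - 1 + K) ω then 1 else 0) ≤
      avg β (kap J) (box N M) (eta 0)
        (fun ω => if (∀ i ∈ C, ¬ Low N M ω i) ∧ P (Bs N M ω) then 1 else 0) := by
    refine avg_mono fun ω hω => ?_
    by_cases h : ¬ Above N (c - l - 1) H ω ∧ ¬ Above N (c + l + 1) H ω ∧
          (∀ x', |x' - c| ≤ l → ¬ Above N x' (H - 1 + m) ω) ∧
          Above N x (H - 1 + K) ω
    · obtain ⟨h1, h2, h3, h4⟩ := id h
      rw [above_iff hω hN hM] at h1 h2 h4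
      push Not at h1 h2
      have h3' : ∀ x, |x - c| ≤ l → ∀ y, H - 1 + m ≤ y → ¬ Low N M ω (x, y) := by
        intro x hx y hy hL
        exact h3 x hx ((above_iff hω hN hM).2 ⟨y, hy, hL⟩)
      have k1 : ∀ i ∈ C, ¬ Low N M ω i := by
        rintro ⟨u, v⟩ hi
        rw [hCdef, mem_frameTA] at hi
        simp only at hi
        obtain ⟨-, hi⟩ := hi
        by_cases hu : |u - c| ≤ l
        · rcases hi with hi | hi
          · omega
          · exact h3' u hu v (by omega)
        · have hu1 : |u - c| = l + 1 := by omega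
          have hv : H ≤ v := by omega
          rcases abs_cases (u - c) with ⟨h5, _⟩ | ⟨h5, _⟩
          · have hu2 : u = c + l + 1 := by omega
            rw [hu2]
            exact h2 v hv
          · have hu2 : u = c - l - 1 := by omega
            rw [hu2]
            exact h1 v hv
      have k2 : P (Bs N M ω) := by
        obtain ⟨y, hy, hL⟩ := h4
        have hy2 : y < H - 1 + m := by
          by_contra hcon
          exact h3' x hx y (by omega) hL
        have hxx := abs_le.1 hx
        refine ⟨y, hy, ?_, ?_⟩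
        · rw [ha, mem_blkTA]
          simp only
          omega
        · rcases low_iff.1 hL with h5 | h5
          · exact h5
          · simp only at h5
            omega
      rw [if_pos h, if_pos ⟨k1, k2⟩]
    · rw [if_neg h]
      split_ifs <;> norm_num
  have s2 := expl hβ hJ hCb P
  have s3 : avg β (kap J) (box N M) (eta 0)
        (fun ω => if (∀ i ∈ C, ω i = true) ∧ P (Bs N M ω) then 1 else 0) ≤
      avg β (kap J) (box N M) (eta 0) (fun ω => f ω * g ω) := by
    refine avg_mono fun ω hω => ?_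
    by_cases h : (∀ i ∈ C, ω i = true) ∧ P (Bs N M ω)
    · obtain ⟨h1, y, hy, h2, h3⟩ := id h
      have hL : Low N M ω (x, y) := (Finset.mem_filter.1 h3).2
      have h4 := enter hω hl hm (by omega) hHM hc h1 h2 hL
      have h5 : EvTA l m K (x - c) a ω := by
        unfold EvTA
        rw [above_iff (conf_subTA (glue_mem _ _ _)) hl hm]
        exact ⟨y - (H - 1), by omega, h4⟩
      simp only [hf, hg]
      rw [if_pos h, if_pos h1, if_pos h5, one_mul]
    · rw [if_neg h]
      refine mul_nonneg (hf0 ω) ?_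
      simp only [hg]
      split_ifs <;> norm_num
  have hsub : tr a (ubox l m) ⊆ box N M := by
    intro i hi
    rw [ha, mem_blkTA] at hi
    rw [mem_box]
    omega
  have hfc : ∀ ω ξ : Cfg, ξ ∈ confs (tr a (ubox l m)) ω → f ξ = f ω := by
    intro ω ξ hξ
    rw [mem_confs] at hξ
    have h1 : (∀ i ∈ C, ξ i = true) ↔ ∀ i ∈ C, ω i = true := by
      refine forall_congr' fun i => forall_congr' fun hi => ?_
      rw [hξ i]
      intro h2
      rw [ha, mem_blkTA] at h2
      rw [hCdef, mem_frameTA] at hi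
      rcases hi with ⟨-, h3 | h3⟩
      · have h4 : |i.1 - c| ≤ l := by
          rw [abs_le]
          omega
        omega
      · omega
    simp only [hf, h1]
  have s4 : Zg β (kap J) (box N M) (eta 0) (fun ω => f ω * g ω) ≤
      R * Zg β (kap J) (box N M) (eta 0) f := by
    refine Zg_cond_le hsub f g hfc hf0 R fun ω hω h1 => ?_
    refine condTA hβ hl hm hH hω ?_
    by_contra hcon
    exact h1 (if_neg hcon)
  have hpos : 0 < Zg β (kap J) (box N M) (eta 0) (fun _ => 1) := Zg_one_pos
  have s5 : avg β (kap J) (box N M) (eta 0) (fun ω => f ω * g ω) ≤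
      R * avg β (kap J) (box N M) (eta 0) f := by
    unfold avg
    rw [mul_div_assoc']
    exact div_le_div_of_nonneg_right s4 hpos.le
  have s6 : 0 < avg β (kap J) (box N M) (eta 0) f := by
    refine div_pos ?_ hpos
    have h1 : glue (box N M) tt (eta 0) ∈ confs (box N M) (eta 0) := glue_mem _ _ _
    have h2 : f (glue (box N M) tt (eta 0)) = 1 := by
      simp only [hf]
      refine if_pos fun i hi => ?_
      rw [glue_in _ _ (hCb hi)]
      rfl
    have h3 := Finset.single_le_sum
      (f := fun ω => wg β (kap J) (box N M) ω * f ω)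
      (fun ω _ => mul_nonneg (wg_pos β (kap J) (box N M) ω).le (hf0 ω)) h1
    have h4 : 0 < wg β (kap J) (box N M) (glue (box N M) tt (eta 0)) := wg_pos _ _ _ _
    rw [h2, mul_one] at h3
    exact h4.trans_le h3
  have s7 := mul_le_mul_of_nonneg_right s1 s6.le
  exact le_of_mul_le_mul_right (s7.trans (s2.trans (s3.trans s5))) s6

end Pool.Agent.Helper49.TT
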