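import Mathlib

/-!
Block TT-F: dyadic chaining (pure combinatorics).

Paper proof of `chain`. For an integer `x` let `x_j = 2^j ⌊x / 2^j⌋` (`Int` floor division, `x / 2 ^ j`), a multiple of `2^j`, `x_0 = x`. `x_{j+1}` is `x_j` or `x_j - 2^j`, so `|f x_{j+1} - f x_j| < h j` or `= 0`, i.e. `≤ h j - 0 < ...`: in any case `|f x_{j+1} - f x_j| ≤ h j` (`h j ≥ 0`). The same for `x'`. If
`|x - x'| ≤ 2^J` then `x_J` and `x'_J` are equal or differ by `2^J` (`⌊x/2^J⌋` and `⌊x'/2^J⌋` differ by at most `1`, as `|x - x'| ≤ 2^J`; if `|x - x'| = 2^J` exactly the floors differ by exactly `1`). So `|f x - f x'| ≤ 2 ∑_{j<J} h j + h J`.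
-/

namespace Pool.Agent.Helper49.TT

private lemma stepDy {f : ℤ → ℝ} {h : ℕ → ℝ} (h0 : ∀ j, 0 ≤ h j) {j : ℕ}
    (hf : ∀ i : ℤ, |f (2 ^ j * i + 2 ^ j) - f (2 ^ j * i)| ≤ h j) (x : ℤ) :
    |f (2 ^ j * (x / 2 ^ j)) - f (2 ^ (j + 1) * (x / 2 ^ (j + 1)))| ≤ h j := by
  have h1 : x / 2 ^ (j + 1) = x / 2 ^ j / 2 := by
    rw [pow_succ, Int.ediv_ediv_of_nonneg (by positivity)]
  rw [h1]
  generalize x / 2 ^ j = q
  rcases Int.emod_two_eq_zero_or_one q with hq | hq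
  · have h2 : (2 : ℤ) ^ (j + 1) * (q / 2) = 2 ^ j * q := by
      have h3 : q = 2 * (q / 2) := by omega
      conv_rhs => rw [h3]
      ring
    rw [h2, sub_self, abs_zero]
    exact h0 j
  · have h2 : (2 : ℤ) ^ (j + 1) * (q / 2) = 2 ^ j * (2 * (q / 2)) := by ring
    have h3 : (2 : ℤ) ^ j * q = 2 ^ j * (2 * (q / 2)) + 2 ^ j := by
      have h4 : q = 2 * (q / 2) + 1 := by omega
      conv_lhs => rw [h4]
      ring
    rw [h2, h3]
    exact hf _

private lemma sumDy {f : ℤ → ℝ} {h : ℕ → ℝ} (h0 : ∀ j, 0 ≤ h j) (J : ℕ)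
    (hf : ∀ j ≤ J, ∀ i : ℤ, |f (2 ^ j * i + 2 ^ j) - f (2 ^ j * i)| ≤ h j) (x : ℤ) :
    |f x - f (2 ^ J * (x / 2 ^ J))| ≤ ∑ j ∈ Finset.range J, h j := by
  induction J with
  | zero => simp
  | succ J ih =>
    have h1 := ih (fun j hj => hf j (hj.trans (Nat.le_succ J)))
    have h2 := stepDy h0 (hf J (Nat.le_succ J)) x
    rw [Finset.sum_range_succ]
    have h3 := abs_sub_le (f x) (f (2 ^ J * (x / 2 ^ J))) (f (2 ^ (J + 1) * (x / 2 ^ (J + 1))))
    linarith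

theorem chain {f : ℤ → ℝ} {h : ℕ → ℝ} (h0 : ∀ j, 0 ≤ h j) {J : ℕ}
    (hf : ∀ j ≤ J, ∀ i : ℤ, |f (2 ^ j * i + 2 ^ j) - f (2 ^ j * i)| ≤ h j) {x x' : ℤ}
    (hx : |x - x'| ≤ 2 ^ J) : |f x - f x'| ≤ 2 * ∑ j ∈ Finset.range J, h j + h J := by
  have h1 := sumDy h0 J hf x
  have h2 := sumDy h0 J hf x'
  have hp : (0 : ℤ) < 2 ^ J := by positivity
  have h3 : |f (2 ^ J * (x / 2 ^ J)) - f (2 ^ J * (x' / 2 ^ J))| ≤ h J := by
    have e1 := Int.mul_ediv_add_emod x (2 ^ J)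
    have e2 := Int.mul_ediv_add_emod x' (2 ^ J)
    have e3 := Int.emod_nonneg x hp.ne'
    have e4 := Int.emod_lt_of_pos x hp
    have e5 := Int.emod_nonneg x' hp.ne'
    have e6 := Int.emod_lt_of_pos x' hp
    obtain ⟨e7, e8⟩ := abs_le.1 hx
    have hf' := hf J le_rfl
    generalize x / 2 ^ J = q at *
    generalize x' / 2 ^ J = q' at *
    have a1 : q - q' < 2 := by
      by_contra hc
      rw [not_lt] at hc
      nlinarith
    have a2 : q' - q < 2 := by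
      by_contra hc
      rw [not_lt] at hc
      nlinarith
    rcases (by omega : q = q' ∨ q = q' + 1 ∨ q' = q + 1) with hq | hq | hq
    · rw [hq, sub_self, abs_zero]
      exact h0 J
    · rw [hq, mul_add, mul_one]
      exact hf' q'
    · rw [hq, mul_add, mul_one, abs_sub_comm]
      exact hf' q
  have h4 := abs_sub_le (f x) (f (2 ^ J * (x / 2 ^ J))) (f x')
  have h5 := abs_sub_le (f (2 ^ J * (x / 2 ^ J))) (f (2 ^ J * (x' / 2 ^ J))) (f x')
  rw [abs_sub_comm (f x') _] at h2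
  linarith

end Pool.Agent.Helper49.TT
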