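import Pool.Agent.Helper49.RD.Ell
import Pool.Agent.Helper49.RD.LevUp
import Pool.Agent.Helper49.DX.Sd
import Pool.Agent.Helper49.DX.Gl
import Pool.Agent.Helper49.DX.Ct
import Pool.Agent.Helper49.DX.Al
import Pool.Agent.Helper49.DX.Exc

/-!
Block TT-C: the height of the interface at distance `D` from an end of the box is of order `√D`.

Notation: `t = exp (-β)`, `td = exp (-(β J))`, `λ = lam t`, `t² + 2 t < 1` (`t_small`), `c₀ = (β - β₁) mag β₁² > 0`, box `l m` with `l₀ ≤ l ≤ m`, `a = (-l - 1, 0)`, `b = (l, 0)`, `ℓ_k (f) = gsum t td m k f 0 = ∑ v, GS t (xs t td m) k mid v * f (ds v)` (`gsum_pai`, `gsum_row`, `GS_symm`).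

Paper proof of `end_le`. Let `x ≤ 0` (the case `x ≥ 0` is the same with `a`, `b` and left, right exchanged), `D = x + l + 1`. If `Above l x K` then `On l ω (x, y)` for some `K ≤ y ≤ m` (the bond `((x, y), false)` is a side of the plaquette `(x, y)`, see `DX/End.lean`), so with `p = (x, y)` by `contact_le`
`P (Above l x K) ≤ ∑_{K ≤ y ≤ m} G2 a p * G2 p b / G2 a b`.
(1) `G2 p b ≤ C (1 + y) λ^(l - x)/(l - x)^(3/2)`: `g2_right` (`DX/Sd.lean`), `GS (l - x - 1) mid v ≤ C (1 + ds v) λ^(l-x)/(l - x)^(3/2)` (`lev_up`), `G2_decay` (as in `RD/G2pt.lean`; `x ≤ 0 < l`).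
(2) `G2 a p ≤ ∑ v, GS (D - 1) mid v * e^{-c₀ |v - m - y|}` (`g2_left`, `G2_decay`; `D - 1 = x + l ≥ 0`).
(3) So `∑_{y ≥ K} (1 + y) G2 a p ≤ C ∑ v, GS (D-1) mid v (1 + ds v) (1_{ds v ≥ K/2} + e^{-c₀ K/4}) = C (ℓ_{D-1} ((1 + z) 1_{z ≥ K/2}) + e^{-c₀ K/4} ℓ_{D-1} (1 + z))`, and `ℓ_{D-1} (1 + z) ≤ C λ^(D-1)` (`ell_lin`, `ell_one`).
(4) `(1 + z) 1_{z ≥ A} ≤ (1 + A) sinh (ε z)/sinh (ε A)` (`A = K/2 ≥ 1/2`; `z ↦ (1 + z)/sinh (ε z)` is decreasing), so by `ell_sinh` (constants `C₁, K₁, ε₀`) `ℓ_{D-1} (..) ≤ C₁ ε (1 + A) e^{K₁ ε² D} λ^(D-1)/sinh (ε A)` for `0 < ε ≤ ε₀`. Take `ε = min (ε₀, A/(2 K₁ D))`. If `ε = A/(2 K₁ D)`: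
`K₁ ε² D = ε A/2`; else `K₁ ε² D ≤ ε A/2` too. So the bound is `C₁ λ^(D-1) (1 + A) ε e^{ε A/2}/sinh (ε A) ≤ C λ^(D-1) e^{-ε A/4}` (`x e^{3x/4}/sinh x` is bounded for `x > 0`, `1 + A ≤ 3 A`), and `ε A = min (ε₀ A, A²/(2 K₁ D))`.
(5) `G2 a b ≥ c λ^(2l+1)/(2l+1)^(3/2)` (`g2_low`; `2 √l + 5 ≤ l ≤ m` for `l ≥ l₀`). `D + (l - x) = 2 l + 1`, `l - x ≥ (2l+1)/3`. Together `P ≤ C e^{-c min (K²/D, K)}`; `D = l - |x| + 1` for `x ≤ 0`.
-/

open Finset
open scoped Classical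

namespace Pool.Agent.Helper49.TT

open Pool.Agent.Helper49.DL Pool.Agent.Helper49.DX Pool.Agent.Helper49.RD

private lemma geo36 {c : ℝ} (hc : 0 < c) : ∃ B : ℝ, 0 < B ∧ ∀ S : Finset ℤ,
    ∑ j ∈ S, (1 + |(j : ℝ)|) * Real.exp (-(c * |(j : ℝ)|)) ≤ B := by
  have hr0 : 0 < Real.exp (-c) := Real.exp_pos _
  have hr1 : Real.exp (-c) < 1 := Real.exp_lt_one_iff.2 (by linarith)
  have hn : ‖Real.exp (-c)‖ < 1 := by
    rw [Real.norm_of_nonneg hr0.le]
    exact hr1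
  have h1 : Summable fun n : ℕ => (1 + (n : ℝ)) * Real.exp (-(c * (n : ℝ))) := by
    have h2 := (summable_geometric_of_norm_lt_one hn).add (summable_pow_mul_geometric_of_norm_lt_one 1 hn)
    refine h2.congr fun n => ?_
    rw [← Real.exp_nat_mul, pow_one]
    have h3 : (n : ℝ) * -c = -(c * (n : ℝ)) := by ring
    rw [h3]
    ring
  have h4 : Summable fun j : ℤ => (1 + |(j : ℝ)|) * Real.exp (-(c * |(j : ℝ)|)) := by
    refine Summable.of_nat_of_neg ?_ ?_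
    · refine h1.congr fun n => ?_
      rw [Int.cast_natCast, abs_of_nonneg (Nat.cast_nonneg n)]
    · refine h1.congr fun n => ?_
      rw [Int.cast_neg, Int.cast_natCast, abs_neg, abs_of_nonneg (Nat.cast_nonneg n)]
  have hnn : ∀ j : ℤ, 0 ≤ (1 + |(j : ℝ)|) * Real.exp (-(c * |(j : ℝ)|)) := fun j => by positivity
  refine ⟨∑' j : ℤ, (1 + |(j : ℝ)|) * Real.exp (-(c * |(j : ℝ)|)) + 1, ?_, fun S => ?_⟩
  · have h5 : (0 : ℝ) ≤ ∑' j : ℤ, (1 + |(j : ℝ)|) * Real.exp (-(c * |(j : ℝ)|)) := tsum_nonneg hnn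
    linarith
  · have := h4.sum_le_tsum S fun j _ => hnn j
    linarith

private lemma ds_mid36 (m : ℕ) (h : m < 2 * m + 1) : ds m ⟨m, h⟩ = 0 := by
  unfold ds
  simp

private lemma mid36 (t td : ℝ) (m L : ℕ) (h : m < 2 * m + 1) (v : Fin (2 * m + 1)) :
    GS t (xs t td m) L ⟨m, h⟩ v = gsum t td m L e0 (ds m v) := by
  rw [← gsum_row, Finset.sum_eq_single (⟨m, h⟩ : Fin (2 * m + 1))]
  · rw [ds_mid36]
    unfold e0
    simp
  · intro u _ hu
    have h2 : ds m u ≠ 0 := by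
      intro h3
      apply hu
      apply Fin.ext
      unfold ds at h3
      show (u : ℕ) = m
      omega
    unfold e0
    rw [if_neg h2, zero_mul]
  · intro h4
    exact absurd (Finset.mem_univ _) h4

private lemma midw36 (t td : ℝ) (m L : ℕ) (h : m < 2 * m + 1) (w : ℕ → ℝ) :
    ∑ v, GS t (xs t td m) L ⟨m, h⟩ v * w (ds m v) = gsum t td m L w 0 := by
  have h1 := gsum_row t td m L w ⟨m, h⟩
  rw [ds_mid36] at h1
  rw [← h1]
  refine Finset.sum_congr rfl fun v _ => ?_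
  rw [GS_symm, mul_comm]

/-- The distance of the row `v` to the middle, and a row `y`. -/
private lemma dist36 (m : ℕ) (v : Fin (2 * m + 1)) (y : ℤ) :
    (ds m v : ℝ) ≤ |(y : ℝ)| + |(((v : ℤ) - m - y : ℤ) : ℝ)| ∧
      (y : ℝ) ≤ (ds m v : ℝ) + |(((v : ℤ) - m - y : ℤ) : ℝ)| := by
  have h1 : (ds m v : ℤ) = |(v : ℤ) - m| := by
    unfold ds
    exact Int.natCast_natAbs _
  constructor
  · have h2 : (ds m v : ℤ) ≤ |y| + |(v : ℤ) - m - y| := by
      rw [h1]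
      have h3 : (v : ℤ) - m = y + ((v : ℤ) - m - y) := by ring
      calc |(v : ℤ) - m| = |y + ((v : ℤ) - m - y)| := by rw [← h3]
        _ ≤ _ := abs_add_le _ _
    exact_mod_cast h2
  · have h2 : y ≤ (ds m v : ℤ) + |(v : ℤ) - m - y| := by
      rw [h1]
      have h3 : y = ((v : ℤ) - m) - ((v : ℤ) - m - y) := by ring
      calc y ≤ |y| := le_abs_self y
        _ = |((v : ℤ) - m) - ((v : ℤ) - m - y)| := by rw [← h3]
        _ ≤ _ := abs_sub _ _
    exact_mod_cast h2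

private lemma rowB36 {t td c : ℝ} (ht : 0 < t) (hq : t ^ 2 + 2 * t < 1) (htd : 0 < td) (htt : td < t) (hc : 0 < c) :
    ∃ C : ℝ, 0 < C ∧ ∀ (m L : ℕ) (h : m < 2 * m + 1) (y : ℤ), 2 ≤ m →
      ∑ v : Fin (2 * m + 1), GS t (xs t td m) L ⟨m, h⟩ v * Real.exp (-(c * |(((v : ℤ) - m - y : ℤ) : ℝ)|)) ≤
        C * (1 + |(y : ℝ)|) * lam t ^ L / ((L : ℝ) + 1) ^ (3 / 2 : ℝ) := by
  obtain ⟨C, hC, H⟩ := lev_up ht hq htd htt
  obtain ⟨B, hB, HB⟩ := geo36 hc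
  have ht1 : t < 1 := by nlinarith
  have hl0 : 0 < lam t := lam_pos ht ht1
  refine ⟨C * B, by positivity, fun m L h y hm => ?_⟩
  have hL : 0 < ((L : ℝ) + 1) ^ (3 / 2 : ℝ) := Real.rpow_pos_of_pos (by positivity) _
  have h1 : ∀ v : Fin (2 * m + 1), GS t (xs t td m) L ⟨m, h⟩ v * Real.exp (-(c * |(((v : ℤ) - m - y : ℤ) : ℝ)|)) ≤
      C * (1 + |(y : ℝ)|) * lam t ^ L / ((L : ℝ) + 1) ^ (3 / 2 : ℝ) *
        ((1 + |(((v : ℤ) - m - y : ℤ) : ℝ)|) * Real.exp (-(c * |(((v : ℤ) - m - y : ℤ) : ℝ)|))) := by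
    intro v
    have h2 := (H m L hm).2 (ds m v) (ds_le m v)
    rw [← mid36 t td m L h v] at h2
    have h3 := (dist36 m v y).1
    have h4 : (1 + (ds m v : ℝ)) ≤ (1 + |(y : ℝ)|) * (1 + |(((v : ℤ) - m - y : ℤ) : ℝ)|) := by
      have h5 := mul_nonneg (abs_nonneg (y : ℝ)) (abs_nonneg ((((v : ℤ) - m - y : ℤ) : ℝ)))
      linarith
    have h6 : ((L + 1 : ℕ) : ℝ) = (L : ℝ) + 1 := by push_cast; ring
    rw [h6] at h2
    have h7 : C * (1 + (ds m v : ℝ)) * lam t ^ L / ((L : ℝ) + 1) ^ (3 / 2 : ℝ) ≤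
        C * (1 + |(y : ℝ)|) * lam t ^ L / ((L : ℝ) + 1) ^ (3 / 2 : ℝ) * (1 + |(((v : ℤ) - m - y : ℤ) : ℝ)|) := by
      rw [div_mul_eq_mul_div]
      refine div_le_div_of_nonneg_right ?_ hL.le
      have h8 := mul_le_mul_of_nonneg_left h4 (mul_nonneg hC.le (pow_pos hl0 L).le)
      linarith
    rw [← mul_assoc]
    exact mul_le_mul_of_nonneg_right (h2.trans h7) (Real.exp_pos _).le
  refine (Finset.sum_le_sum fun v _ => h1 v).trans ?_
  rw [← Finset.mul_sum]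
  have h9 : ∑ v : Fin (2 * m + 1), ((1 + |(((v : ℤ) - m - y : ℤ) : ℝ)|) *
      Real.exp (-(c * |(((v : ℤ) - m - y : ℤ) : ℝ)|))) ≤ B := by
    have h10 := HB ((Finset.univ : Finset (Fin (2 * m + 1))).image fun v : Fin (2 * m + 1) => ((v : ℕ) : ℤ) - m - y)
    rwa [Finset.sum_image] at h10
    intro v _ w _ hvw
    apply Fin.ext
    have : ((v : ℤ) - m - y) = (w : ℤ) - m - y := hvw
    omega
  refine (mul_le_mul_of_nonneg_left h9 (by positivity)).trans (le_of_eq ?_)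
  ring

private lemma sinh_star36 {A z e : ℝ} (hA : 0 < A) (hz : A ≤ z) (he : 0 < e) :
    z * Real.sinh (e * A) ≤ A * Real.sinh (e * z) := by
  have hcv : ConvexOn ℝ (Set.Ici (0 : ℝ)) Real.sinh := by
    refine convexOn_of_deriv2_nonneg (convex_Ici 0) Real.continuous_sinh.continuousOn
      Real.differentiable_sinh.differentiableOn ?_ ?_
    · rw [Real.deriv_sinh]
      exact Real.differentiable_cosh.differentiableOn
    · intro x hx
      rw [interior_Ici] at hx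
      show 0 ≤ deriv (deriv Real.sinh) x
      rw [Real.deriv_sinh, Real.deriv_cosh]
      exact Real.sinh_nonneg_iff.2 (le_of_lt hx)
  have hz0 : 0 < z := hA.trans_le hz
  have h1 := hcv.2 (Set.mem_Ici.2 (mul_pos he hz0).le) (Set.mem_Ici.2 (le_refl (0 : ℝ)))
    (div_pos hA hz0).le (sub_nonneg.2 ((div_le_one hz0).2 hz)) (by ring)
  simp only [smul_eq_mul, mul_zero, add_zero, Real.sinh_zero] at h1
  have h2 : A / z * (e * z) = e * A := by
    field_simp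
  rw [h2] at h1
  have h3 := mul_le_mul_of_nonneg_left h1 hz0.le
  calc z * Real.sinh (e * A) ≤ z * (A / z * Real.sinh (e * z)) := h3
    _ = A * Real.sinh (e * z) := by field_simp

private lemma sinh_low36 {X : ℝ} (hX : 0 ≤ X) : X * Real.exp (3 * X / 4) ≤ 8 * Real.sinh X := by
  have h1 : 1 + 2 * X ≤ 8 * Real.exp (X / 4) := by
    have := Real.add_one_le_exp (X / 4)
    linarith
  have h2 : (1 + 2 * X) * Real.exp (-(2 * X)) ≤ 1 := by
    have h3 := Real.add_one_le_exp (2 * X)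
    have h4 : Real.exp (2 * X) * Real.exp (-(2 * X)) = 1 := by
      rw [← Real.exp_add]
      simp
    rw [← h4]
    exact mul_le_mul_of_nonneg_right (by linarith) (Real.exp_pos _).le
  have h5 : 2 * X ≤ (1 + 2 * X) * (1 - Real.exp (-(2 * X))) := by linarith
  have h6 : 2 * X ≤ 8 * Real.exp (X / 4) * (1 - Real.exp (-(2 * X))) := by
    refine h5.trans (mul_le_mul_of_nonneg_right h1 ?_)
    have : Real.exp (-(2 * X)) ≤ 1 := Real.exp_le_one_iff.2 (by linarith)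
    linarith
  have h7 := mul_le_mul_of_nonneg_right h6 (Real.exp_pos (3 * X / 4)).le
  have h8 : Real.exp (X / 4) * Real.exp (3 * X / 4) = Real.exp X := by
    rw [← Real.exp_add]
    congr 1
    ring
  have h9 : Real.exp X * Real.exp (-(2 * X)) = Real.exp (-X) := by
    rw [← Real.exp_add]
    congr 1
    ring
  have h10 : 8 * Real.exp (X / 4) * (1 - Real.exp (-(2 * X))) * Real.exp (3 * X / 4) = 16 * Real.sinh X := by
    rw [Real.sinh_eq]
    calc 8 * Real.exp (X / 4) * (1 - Real.exp (-(2 * X))) * Real.exp (3 * X / 4)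
        = 8 * (Real.exp (X / 4) * Real.exp (3 * X / 4)) * (1 - Real.exp (-(2 * X))) := by ring
      _ = 8 * (Real.exp X - Real.exp X * Real.exp (-(2 * X))) := by rw [h8]; ring
      _ = 16 * ((Real.exp X - Real.exp (-X)) / 2) := by rw [h9]; ring
  rw [h10] at h7
  linarith

private lemma rowC36 {t td c : ℝ} (ht : 0 < t) (hq : t ^ 2 + 2 * t < 1) (htd : 0 < td) (htt : td < t) (hc : 0 < c) :
    ∃ C c' : ℝ, 0 < C ∧ 0 < c' ∧ ∀ (m L : ℕ) (h : m < 2 * m + 1) (D : ℝ) (K : ℤ) (S : Finset ℤ), 2 ≤ m →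
      (L : ℝ) ≤ D → 1 ≤ D → 1 ≤ K → (∀ y ∈ S, K ≤ y) →
      ∑ y ∈ S, (1 + (y : ℝ)) * ∑ v : Fin (2 * m + 1), GS t (xs t td m) L ⟨m, h⟩ v *
          Real.exp (-(c * |(((v : ℤ) - m - y : ℤ) : ℝ)|)) ≤
        C * lam t ^ L * Real.exp (-(c' * min ((K : ℝ) ^ 2 / D) (K : ℝ))) := by
  have ht1 : t < 1 := by nlinarith
  have hl0 : 0 < lam t := lam_pos ht ht1
  obtain ⟨B, hB, HB⟩ := geo36 (half_pos hc)
  obtain ⟨C₁, K₁, ε₀, hC₁, hK₁, hε₀, -, HS⟩ := ell_sinh ht hq htd htt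
  obtain ⟨C₂, hC₂, HL⟩ := ell_lin ht hq htd htt
  obtain ⟨C₃, hC₃, HO⟩ := ell_one ht hq htd htt
  refine ⟨B * (24 * C₁ + C₂ + C₃), min (min (ε₀ / 2) (1 / (8 * K₁)) / 4) (c / 4), by positivity,
    lt_min (by positivity) (by positivity), fun m L h D K S hm hLD hD hK hS => ?_⟩
  have hD0 : 0 < D := by linarith
  have hK1 : (1 : ℝ) ≤ K := by exact_mod_cast hK
  have hK0 : (0 : ℝ) < K := by linarith
  obtain ⟨A, hAdef⟩ : ∃ A : ℝ, A = (K : ℝ) / 2 := ⟨_, rfl⟩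
  have hA0 : 0 < A := by rw [hAdef]; linarith
  obtain ⟨e, hedef⟩ : ∃ e : ℝ, e = min ε₀ (A / (2 * K₁ * D)) := ⟨_, rfl⟩
  have he0 : 0 < e := by rw [hedef]; exact lt_min hε₀ (by positivity)
  have he1 : e ≤ ε₀ := by rw [hedef]; exact min_le_left _ _
  have he2 : e ≤ A / (2 * K₁ * D) := by rw [hedef]; exact min_le_right _ _
  obtain ⟨μ, hμ⟩ : ∃ μ : ℝ, μ = min ((K : ℝ) ^ 2 / D) (K : ℝ) := ⟨_, rfl⟩
  have hμ0 : 0 < μ := by rw [hμ]; exact lt_min (by positivity) hK0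
  have hμK : μ ≤ K := by rw [hμ]; exact min_le_right _ _
  have hμD : μ ≤ (K : ℝ) ^ 2 / D := by rw [hμ]; exact min_le_left _ _
  rw [← hμ]
  obtain ⟨X, hXdef⟩ : ∃ X : ℝ, X = e * A := ⟨_, rfl⟩
  have hX0 : 0 < X := by rw [hXdef]; positivity
  obtain ⟨q, hqdef⟩ : ∃ q : ℝ, q = min (ε₀ / 2) (1 / (8 * K₁)) := ⟨_, rfl⟩
  have hq0 : 0 < q := by rw [hqdef]; exact lt_min (by positivity) (by positivity)
  have hX : q * μ ≤ X := by
    rw [hXdef]
    rcases min_choice ε₀ (A / (2 * K₁ * D)) with h1 | h1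
    · have h2 : e = ε₀ := hedef.trans h1
      rw [h2, hAdef]
      have h3 : q ≤ ε₀ / 2 := by rw [hqdef]; exact min_le_left _ _
      calc q * μ ≤ ε₀ / 2 * K := mul_le_mul h3 hμK hμ0.le (by positivity)
        _ = ε₀ * (K / 2) := by ring
    · have h2 : e = A / (2 * K₁ * D) := hedef.trans h1
      rw [h2, hAdef]
      have h3 : q ≤ 1 / (8 * K₁) := by rw [hqdef]; exact min_le_right _ _
      calc q * μ ≤ 1 / (8 * K₁) * ((K : ℝ) ^ 2 / D) := mul_le_mul h3 hμD hμ0.le (by positivity)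
        _ = K / 2 / (2 * K₁ * D) * (K / 2) := by field_simp; ring
  -- the inner sum
  have hin : ∀ v : Fin (2 * m + 1), ∑ y ∈ S, (1 + (y : ℝ)) * Real.exp (-(c * |(((v : ℤ) - m - y : ℤ) : ℝ)|)) ≤
      B * ((1 + (ds m v : ℝ)) * ((if A ≤ (ds m v : ℝ) then 1 else 0) + Real.exp (-(c * K / 4)))) := by
    intro v
    have h1 : ∀ y ∈ S, (1 + (y : ℝ)) * Real.exp (-(c * |(((v : ℤ) - m - y : ℤ) : ℝ)|)) ≤
        ((1 + |(((v : ℤ) - m - y : ℤ) : ℝ)|) * Real.exp (-(c / 2 * |(((v : ℤ) - m - y : ℤ) : ℝ)|))) *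
          ((1 + (ds m v : ℝ)) * ((if A ≤ (ds m v : ℝ) then 1 else 0) + Real.exp (-(c * K / 4)))) := by
      intro y hy
      have hy1 : (K : ℝ) ≤ y := by exact_mod_cast hS y hy
      have h2 := (dist36 m v y).2
      have hj := abs_nonneg (((v : ℤ) - m - y : ℤ) : ℝ)
      generalize |(((v : ℤ) - m - y : ℤ) : ℝ)| = j at *
      have hd : (0 : ℝ) ≤ ds m v := Nat.cast_nonneg _
      have h3 : Real.exp (-(c * j)) ≤ Real.exp (-(c / 2 * j)) *
          ((if A ≤ (ds m v : ℝ) then 1 else 0) + Real.exp (-(c * K / 4))) := by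
        split_ifs with hA
        · have h4 : Real.exp (-(c * j)) ≤ Real.exp (-(c / 2 * j)) * 1 := by
            rw [mul_one]
            refine Real.exp_le_exp.2 ?_
            have := mul_nonneg hc.le hj
            linarith
          refine h4.trans (mul_le_mul_of_nonneg_left ?_ (Real.exp_pos _).le)
          have := Real.exp_pos (-(c * K / 4))
          linarith
        · rw [zero_add, ← Real.exp_add]
          refine Real.exp_le_exp.2 ?_
          push Not at hA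
          have h5 : (K : ℝ) / 2 ≤ j := by rw [hAdef] at hA; linarith
          have h6 := mul_le_mul_of_nonneg_left h5 (half_pos hc).le
          linarith
      have h6 : 1 + (y : ℝ) ≤ (1 + j) * (1 + (ds m v : ℝ)) := by
        have := mul_nonneg hj hd
        linarith
      calc (1 + (y : ℝ)) * Real.exp (-(c * j)) ≤ ((1 + j) * (1 + (ds m v : ℝ))) * (Real.exp (-(c / 2 * j)) *
          ((if A ≤ (ds m v : ℝ) then 1 else 0) + Real.exp (-(c * K / 4)))) :=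
            mul_le_mul h6 h3 (Real.exp_pos _).le (by positivity)
        _ = _ := by ring
    refine (Finset.sum_le_sum h1).trans ?_
    rw [← Finset.sum_mul]
    refine mul_le_mul_of_nonneg_right ?_ ?_
    · have h10 := HB (S.image fun y => (v : ℤ) - m - y)
      rwa [Finset.sum_image] at h10
      intro y _ z _ hyz
      have : ((v : ℤ) - m - y) = (v : ℤ) - m - z := hyz
      omega
    · have : (0 : ℝ) ≤ if A ≤ (ds m v : ℝ) then (1 : ℝ) else 0 := by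
        split_ifs
        · exact zero_le_one
        · exact le_rfl
      have := Real.exp_pos (-(c * K / 4))
      positivity
  have hGS : ∀ v, 0 ≤ GS t (xs t td m) L ⟨m, h⟩ v := fun v =>
    GS_nonneg ht.le (fun j => (xs_pos ht htd m j).le) L _ v
  have h1 : ∑ y ∈ S, (1 + (y : ℝ)) * ∑ v : Fin (2 * m + 1), GS t (xs t td m) L ⟨m, h⟩ v *
          Real.exp (-(c * |(((v : ℤ) - m - y : ℤ) : ℝ)|)) =
      ∑ v : Fin (2 * m + 1), GS t (xs t td m) L ⟨m, h⟩ v *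
        ∑ y ∈ S, (1 + (y : ℝ)) * Real.exp (-(c * |(((v : ℤ) - m - y : ℤ) : ℝ)|)) := by
    simp_rw [Finset.mul_sum]
    rw [Finset.sum_comm]
    refine Finset.sum_congr rfl fun v _ => Finset.sum_congr rfl fun y _ => ?_
    ring
  rw [h1]
  refine (Finset.sum_le_sum fun v _ => mul_le_mul_of_nonneg_left (hin v) (hGS v)).trans ?_
  have h2 := midw36 t td m L h (fun z => B * ((1 + (z : ℝ)) * ((if A ≤ (z : ℝ) then 1 else 0) + Real.exp (-(c * K / 4)))))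
  rw [h2]
  have hs0 : 0 < Real.sinh (e * A) := Real.sinh_pos_iff.2 (by positivity)
  have h3 := (lev_mono (L := L) (E := fun z => B * ((1 + (z : ℝ)) * ((if A ≤ (z : ℝ) then 1 else 0) + Real.exp (-(c * K / 4)))))
    (F := fun z => (B * ((1 + A) / Real.sinh (e * A))) * Real.sinh (e * z) +
      (B * Real.exp (-(c * K / 4))) * (1 * (1 : ℝ) + 1 * (z : ℝ))) ht hq htd htt.le hm (by
      intro z _
      have hz0 : (0 : ℝ) ≤ z := Nat.cast_nonneg z
      have hsz : 0 ≤ Real.sinh (e * z) := Real.sinh_nonneg_iff.2 (by positivity)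
      have h4 : (1 + (z : ℝ)) * (if A ≤ (z : ℝ) then 1 else 0) ≤ (1 + A) / Real.sinh (e * A) * Real.sinh (e * z) := by
        split_ifs with hAz
        · have h5 := sinh_star36 hA0 hAz he0
          rw [mul_one, div_mul_eq_mul_div, le_div_iff₀ hs0]
          have h6 : 0 ≤ Real.sinh (e * A) := hs0.le
          have h7 : Real.sinh (e * A) ≤ Real.sinh (e * z) := Real.sinh_le_sinh.2 (mul_le_mul_of_nonneg_left hAz he0.le)
          linarith
        · rw [mul_zero]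
          positivity
      have h8 := mul_le_mul_of_nonneg_left h4 hB.le
      show B * ((1 + (z : ℝ)) * ((if A ≤ (z : ℝ) then 1 else 0) + Real.exp (-(c * K / 4)))) ≤ _
      calc B * ((1 + (z : ℝ)) * ((if A ≤ (z : ℝ) then 1 else 0) + Real.exp (-(c * K / 4))))
          = B * ((1 + (z : ℝ)) * (if A ≤ (z : ℝ) then 1 else 0)) + B * Real.exp (-(c * K / 4)) * (1 * 1 + 1 * (z : ℝ)) := by
            ring
        _ ≤ _ := by
            have h9 : B * ((1 + A) / Real.sinh (e * A) * Real.sinh (e * z)) =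
              B * ((1 + A) / Real.sinh (e * A)) * Real.sinh (e * z) := by ring
            linarith)).2 0 (Nat.zero_le _)
  refine h3.trans ?_
  rw [gsum_lin t td m L (B * ((1 + A) / Real.sinh (e * A))) (B * Real.exp (-(c * K / 4)))
    (fun z => Real.sinh (e * z)) (fun z => 1 * (1 : ℝ) + 1 * (z : ℝ)) 0,
    gsum_lin t td m L 1 1 (fun _ => (1 : ℝ)) (fun z => (z : ℝ)) 0, one_mul, one_mul]
  have hpow : 0 < lam t ^ L := pow_pos hl0 L
  have g1 := HS e he0 he1 m hm L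
  have g2 := HL m L hm
  have g3 : gsum t td m L (fun _ => 1) 0 ≤ C₃ * lam t ^ L := by
    refine (HO m L hm).trans (div_le_self (by positivity) ?_)
    rw [Real.one_le_sqrt]
    have : (0 : ℝ) ≤ L := Nat.cast_nonneg L
    linarith
  have g4 : (lam t * Real.exp (K₁ * e ^ 2)) ^ L ≤ lam t ^ L * Real.exp (X / 2) := by
    rw [mul_pow, ← Real.exp_nat_mul]
    refine mul_le_mul_of_nonneg_left (Real.exp_le_exp.2 ?_) hpow.le
    have h5 : (L : ℝ) * (K₁ * e ^ 2) ≤ D * (K₁ * e ^ 2) := mul_le_mul_of_nonneg_right hLD (by positivity)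
    have h6 : D * (K₁ * e ^ 2) ≤ D * (K₁ * (e * (A / (2 * K₁ * D)))) := by
      refine mul_le_mul_of_nonneg_left (mul_le_mul_of_nonneg_left ?_ hK₁.le) hD0.le
      rw [sq]
      exact mul_le_mul_of_nonneg_left he2 he0.le
    have h7 : D * (K₁ * (e * (A / (2 * K₁ * D)))) = X / 2 := by
      rw [hXdef]
      field_simp
    linarith
  have g5 : B * ((1 + A) / Real.sinh (e * A)) * gsum t td m L (fun z => Real.sinh (e * z)) 0 ≤
      B * (24 * C₁) * lam t ^ L * Real.exp (-(X / 4)) := by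
    have hs0' : 0 < Real.sinh X := by rw [hXdef]; exact hs0
    have h5 : gsum t td m L (fun z => Real.sinh (e * z)) 0 ≤ C₁ * e * (lam t ^ L * Real.exp (X / 2)) :=
      g1.trans (mul_le_mul_of_nonneg_left g4 (by positivity))
    have h6 : (1 + A) * e ≤ 3 * X := by
      rw [hXdef]
      have h7 : 1 ≤ 2 * A := by rw [hAdef]; linarith
      have h8 := mul_le_mul_of_nonneg_left h7 he0.le
      linarith
    have h7 : X * Real.exp (X / 2) ≤ 8 * Real.sinh X * Real.exp (-(X / 4)) := by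
      have h8 := mul_le_mul_of_nonneg_right (sinh_low36 hX0.le) (Real.exp_pos (-(X / 4))).le
      have h9 : Real.exp (3 * X / 4) * Real.exp (-(X / 4)) = Real.exp (X / 2) := by
        rw [← Real.exp_add]
        congr 1
        ring
      rwa [mul_assoc, h9] at h8
    rw [← hXdef]
    calc B * ((1 + A) / Real.sinh X) * gsum t td m L (fun z => Real.sinh (e * z)) 0
        ≤ B * ((1 + A) / Real.sinh X) * (C₁ * e * (lam t ^ L * Real.exp (X / 2))) :=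
          mul_le_mul_of_nonneg_left h5 (by positivity)
      _ = B * C₁ * lam t ^ L * (((1 + A) * e) * Real.exp (X / 2)) / Real.sinh X := by ring
      _ ≤ B * C₁ * lam t ^ L * ((3 * X) * Real.exp (X / 2)) / Real.sinh X := by
          refine div_le_div_of_nonneg_right (mul_le_mul_of_nonneg_left
            (mul_le_mul_of_nonneg_right h6 (Real.exp_pos _).le) (by positivity)) hs0'.le
      _ = 3 * (B * C₁ * lam t ^ L) * (X * Real.exp (X / 2)) / Real.sinh X := by ring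
      _ ≤ 3 * (B * C₁ * lam t ^ L) * (8 * Real.sinh X * Real.exp (-(X / 4))) / Real.sinh X :=
          div_le_div_of_nonneg_right (mul_le_mul_of_nonneg_left h7 (by positivity)) hs0'.le
      _ = B * (24 * C₁) * lam t ^ L * Real.exp (-(X / 4)) := by field_simp; ring
  obtain ⟨κ, hκdef⟩ : ∃ κ : ℝ, κ = min (q / 4) (c / 4) := ⟨_, rfl⟩
  rw [← hqdef, ← hκdef]
  have hκ1 : κ ≤ q / 4 := by rw [hκdef]; exact min_le_left _ _
  have hκ2 : κ ≤ c / 4 := by rw [hκdef]; exact min_le_right _ _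
  have g6 : Real.exp (-(X / 4)) ≤ Real.exp (-(κ * μ)) := by
    refine Real.exp_le_exp.2 ?_
    have := mul_le_mul_of_nonneg_right hκ1 hμ0.le
    linarith
  have g7 : Real.exp (-(c * K / 4)) ≤ Real.exp (-(κ * μ)) := by
    refine Real.exp_le_exp.2 ?_
    have h5 := mul_le_mul_of_nonneg_right hκ2 hμ0.le
    have h6 := mul_le_mul_of_nonneg_left hμK (by positivity : 0 ≤ c / 4)
    linarith
  have g8 : B * Real.exp (-(c * K / 4)) * (gsum t td m L (fun _ => 1) 0 + gsum t td m L (fun z => (z : ℝ)) 0) ≤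
      B * Real.exp (-(κ * μ)) * (C₃ * lam t ^ L + C₂ * lam t ^ L) := by
    have h5 : gsum t td m L (fun _ => 1) 0 + gsum t td m L (fun z => (z : ℝ)) 0 ≤ C₃ * lam t ^ L + C₂ * lam t ^ L :=
      add_le_add g3 g2
    calc _ ≤ B * Real.exp (-(c * K / 4)) * (C₃ * lam t ^ L + C₂ * lam t ^ L) :=
          mul_le_mul_of_nonneg_left h5 (by positivity)
      _ ≤ _ := mul_le_mul_of_nonneg_right (mul_le_mul_of_nonneg_left g7 hB.le) (by positivity)
  have g9 : B * (24 * C₁) * lam t ^ L * Real.exp (-(X / 4)) ≤ B * (24 * C₁) * lam t ^ L * Real.exp (-(κ * μ)) :=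
    mul_le_mul_of_nonneg_left g6 (by positivity)
  calc _ ≤ B * (24 * C₁) * lam t ^ L * Real.exp (-(κ * μ)) + B * Real.exp (-(κ * μ)) * (C₃ * lam t ^ L + C₂ * lam t ^ L) :=
        add_le_add (g5.trans g9) g8
    _ = B * (24 * C₁ + C₂ + C₃) * lam t ^ L * Real.exp (-(κ * μ)) := by ring

private theorem broken_pos36 {N M : ℤ} {ω : Cfg}
    (hω : ω ∈ confs (box N M) (eta 0)) {b : Bond} (hb : Broken ω b) :
    (-N - 1 ≤ b.1.1 ∧ b.1.1 ≤ N ∧ -M ≤ b.1.2 ∧ b.1.2 ≤ M) ∨ b.1.2 = 0 := by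
  obtain ⟨⟨x, y⟩, d⟩ := b
  rw [mem_confs] at hω
  by_cases h1 : (x, y) ∈ box N M
  · rw [mem_box] at h1
    simp only at h1 ⊢
    left
    omega
  by_cases h2 : bend ((x, y), d) ∈ box N M
  · rw [mem_box] at h2
    left
    cases d
    · simp only [bend, e2, Bool.false_eq_true, if_false, Prod.mk_add_mk, add_zero] at h2 ⊢
      omega
    · simp only [bend, e1, if_true, Prod.mk_add_mk, add_zero] at h2 ⊢
      omega
  right
  by_contra hy
  apply hb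
  rw [hω _ h1, hω _ h2]
  simp only at hy
  cases d
  · simp only [bend, e2, Bool.false_eq_true, if_false, Prod.mk_add_mk, eta, decide_eq_decide]
    omega
  · simp only [bend, e1, if_true, Prod.mk_add_mk, add_zero, eta]

private theorem G2_comm36 {β J : ℝ} {N M : ℤ} (a b : PV (box N M)) :
    G2 β J N M a b = G2 β J N M b a := by
  unfold G2
  rw [pr_comm]

private theorem G2_nn36 {β J : ℝ} {N M : ℤ} (a b : PV (box N M)) : 0 ≤ G2 β J N M a b := by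
  unfold G2
  exact div_nonneg (ZG_nonneg (fun e => (xe_pos (kap J) e).le) _) (ZG_pos fun e => (xe_pos (kap J) e).le).le

/-- union bound -/
private theorem union36 {N M : ℤ} (hN : 0 ≤ N) (hM : 1 ≤ M) {β J : ℝ} {x K : ℤ} (hx : |x| ≤ N) (hK : 1 ≤ K) :
    avg β (kap J) (box N M) (eta 0) (fun ω => if Above N x K ω then 1 else 0) ≤
      ∑ p ∈ (Finset.univ : Finset (PV (box N M))).filter (fun p => p.1.1 = x ∧ K ≤ p.1.2),
        avg β (kap J) (box N M) (eta 0) (fun ω => if On N ω p.1 then 1 else 0) := by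
  set S : Finset (PV (box N M)) :=
    Finset.univ.filter (fun p => p.1.1 = x ∧ K ≤ p.1.2) with hS
  have hx' := abs_le.1 hx
  have h1 : ∀ ω ∈ confs (box N M) (eta 0), (if Above N x K ω then (1 : ℝ) else 0) ≤
      ∑ p ∈ S, if On N ω p.1 then 1 else 0 := by
    intro ω hω
    have hnn : ∀ p ∈ S, (0 : ℝ) ≤ if On N ω p.1 then 1 else 0 := by
      intro z _
      split_ifs
      · exact zero_le_one
      · exact le_rfl
    split_ifs with hW
    · obtain ⟨y, hy, hi⟩ := hW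
      have g1 := broken_pos36 hω hi.1
      simp only at g1
      have m1 : ((x, y) : Site) ∈ PL (box N M) := by
        rw [mem_PL_box hN hM]
        simp only
        omega
      have hmem : (⟨(x, y), m1⟩ : PV (box N M)) ∈ S := by
        rw [hS, Finset.mem_filter]
        exact ⟨Finset.mem_univ _, rfl, hy⟩
      refine le_trans (le_of_eq ?_) (Finset.single_le_sum
        (f := fun p : PV (box N M) => if On N ω p.1 then (1 : ℝ) else 0) hnn hmem)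
      simp only
      rw [if_pos]
      exact ⟨_, Or.inr (Or.inl rfl), hi⟩
    · exact Finset.sum_nonneg hnn
  refine (avg_mono h1).trans ?_
  rw [avg_sum]

/-- Sums over the plaquettes of a column. -/
private theorem col36 {N M : ℤ} {x K : ℤ} (g : ℤ → ℝ) :
    ∑ p ∈ (Finset.univ : Finset (PV (box N M))).filter (fun p => p.1.1 = x ∧ K ≤ p.1.2), g p.1.2 =
      ∑ y ∈ ((Finset.univ : Finset (PV (box N M))).filter (fun p => p.1.1 = x ∧ K ≤ p.1.2)).image (fun p => p.1.2), g y := by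
  rw [Finset.sum_image]
  intro p hp q hq hpq
  have hp' : p ∈ Finset.univ.filter (fun p : PV (box N M) => p.1.1 = x ∧ K ≤ p.1.2) := hp
  have hq' : q ∈ Finset.univ.filter (fun p : PV (box N M) => p.1.1 = x ∧ K ≤ p.1.2) := hq
  rw [Finset.mem_filter] at hp' hq'
  exact Subtype.ext (Prod.ext (hp'.2.1.trans hq'.2.1.symm) hpq)

/-- The end of the proof: the quotient of the bounds. -/
private theorem fin36 {lm Cb C₃ cl E G T : ℝ} (hl0 : 0 < lm) (hl1 : lm < 1) (hCb : 0 < Cb) (hC₃ : 0 < C₃) (hcl : 0 < cl)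
    (hE : 0 ≤ E) {l L1 L2 : ℕ} (h1 : 2 * l + 1 ≤ L1 + L2 + 2) (h2 : 2 * l + 1 ≤ 3 * (L2 + 1))
    (hG : cl * lm ^ (2 * l + 1) / (2 * (l : ℝ) + 1) ^ (3 / 2 : ℝ) ≤ G)
    (hT : T ≤ Cb * lm ^ L2 / ((L2 : ℝ) + 1) ^ (3 / 2 : ℝ) * (C₃ * lm ^ L1 * E)) :
    T / G ≤ Cb * C₃ / cl * (lm ^ 2)⁻¹ * (3 : ℝ) ^ (3 / 2 : ℝ) * E := by
  have p1 : 0 < (2 * (l : ℝ) + 1) ^ (3 / 2 : ℝ) := Real.rpow_pos_of_pos (by positivity) _
  have p2 : 0 < ((L2 : ℝ) + 1) ^ (3 / 2 : ℝ) := Real.rpow_pos_of_pos (by positivity) _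
  have hG0 : 0 < cl * lm ^ (2 * l + 1) / (2 * (l : ℝ) + 1) ^ (3 / 2 : ℝ) := by positivity
  have q1 : (2 * (l : ℝ) + 1) ^ (3 / 2 : ℝ) ≤ (3 : ℝ) ^ (3 / 2 : ℝ) * ((L2 : ℝ) + 1) ^ (3 / 2 : ℝ) := by
    rw [← Real.mul_rpow (by norm_num) (by positivity)]
    refine Real.rpow_le_rpow (by positivity) ?_ (by norm_num)
    exact_mod_cast h2
  have q2 : lm ^ (L1 + L2) * lm ^ 2 ≤ lm ^ (2 * l + 1) := by
    rw [← pow_add]
    exact pow_le_pow_of_le_one hl0.le hl1.le h1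
  have hT0 : 0 ≤ Cb * lm ^ L2 / ((L2 : ℝ) + 1) ^ (3 / 2 : ℝ) * (C₃ * lm ^ L1 * E) := by positivity
  have h3 : T / G ≤ (Cb * lm ^ L2 / ((L2 : ℝ) + 1) ^ (3 / 2 : ℝ) * (C₃ * lm ^ L1 * E)) /
      (cl * lm ^ (2 * l + 1) / (2 * (l : ℝ) + 1) ^ (3 / 2 : ℝ)) := by
    have hG' : 0 < G := hG0.trans_le hG
    rw [div_le_div_iff₀ hG' hG0]
    exact (mul_le_mul_of_nonneg_right hT hG0.le).trans (mul_le_mul_of_nonneg_left hG hT0)
  refine h3.trans ?_
  rw [div_le_iff₀ hG0]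
  have h4 : Cb * C₃ / cl * (lm ^ 2)⁻¹ * (3 : ℝ) ^ (3 / 2 : ℝ) * E *
      (cl * lm ^ (2 * l + 1) / (2 * (l : ℝ) + 1) ^ (3 / 2 : ℝ)) =
      Cb * C₃ * E * ((3 : ℝ) ^ (3 / 2 : ℝ) * (lm ^ 2)⁻¹ * (lm ^ (2 * l + 1) / (2 * (l : ℝ) + 1) ^ (3 / 2 : ℝ))) := by
    field_simp
  have h5 : Cb * lm ^ L2 / ((L2 : ℝ) + 1) ^ (3 / 2 : ℝ) * (C₃ * lm ^ L1 * E) =
      Cb * C₃ * E * (lm ^ (L1 + L2) / ((L2 : ℝ) + 1) ^ (3 / 2 : ℝ)) := by
    rw [pow_add]
    ring
  rw [h4, h5]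
  refine mul_le_mul_of_nonneg_left ?_ (by positivity)
  have h6 : lm ^ (L1 + L2) ≤ (lm ^ 2)⁻¹ * lm ^ (2 * l + 1) := by
    rw [inv_mul_eq_div, le_div_iff₀ (by positivity)]
    exact q2
  rw [div_le_iff₀ p2]
  calc lm ^ (L1 + L2) ≤ (lm ^ 2)⁻¹ * lm ^ (2 * l + 1) := h6
    _ = (lm ^ 2)⁻¹ * lm ^ (2 * l + 1) * ((2 * (l : ℝ) + 1) ^ (3 / 2 : ℝ) / (2 * (l : ℝ) + 1) ^ (3 / 2 : ℝ)) := by
        rw [div_self p1.ne', mul_one]
    _ ≤ (lm ^ 2)⁻¹ * lm ^ (2 * l + 1) * (((3 : ℝ) ^ (3 / 2 : ℝ) * ((L2 : ℝ) + 1) ^ (3 / 2 : ℝ)) / (2 * (l : ℝ) + 1) ^ (3 / 2 : ℝ)) := by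
        refine mul_le_mul_of_nonneg_left (div_le_div_of_nonneg_right q1 p1.le) (by positivity)
    _ = _ := by ring

private lemma sqrt36 {l : ℕ} (hl : 12 ≤ l) : 2 * (Nat.sqrt l : ℤ) + 5 ≤ l := by
  have h1 : Nat.sqrt l * Nat.sqrt l ≤ l := Nat.sqrt_le l
  have h2 : 2 * Nat.sqrt l + 5 ≤ l := by
    by_cases h : 4 ≤ Nat.sqrt l
    · nlinarith
    · omega
  exact_mod_cast h2

theorem end_le {β₁ β J : ℝ} (h0 : 0 ≤ β₁) (h : β₁ < β) (hm : 0 < mag β₁) (hJ : 1 < J) :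
    ∃ (C c : ℝ) (l₀ : ℕ), 0 < C ∧ 0 < c ∧ 1 ≤ l₀ ∧ ∀ l m : ℕ, l₀ ≤ l → l ≤ m → ∀ x K : ℤ, |x| ≤ l → 1 ≤ K →
      avg β (kap J) (box l m) (eta 0) (fun ω => if Above l x K ω then 1 else 0) ≤
        C * Real.exp (-(c * min ((K : ℝ) ^ 2 / ((l : ℝ) - |(x : ℝ)| + 1)) (K : ℝ))) := by
  have hq := t_small h0 h hm
  have hβ : 0 < β := lt_of_le_of_lt h0 h
  have hJ0 : 0 < J := by linarith
  obtain ⟨c₀, hc₀⟩ : ∃ c₀ : ℝ, c₀ = (β - β₁) * mag β₁ ^ 2 := ⟨_, rfl⟩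
  have hc0 : 0 < c₀ := by
    rw [hc₀]
    exact mul_pos (by linarith) (pow_pos hm 2)
  obtain ⟨t, htdef⟩ : ∃ t : ℝ, t = Real.exp (-β) := ⟨_, rfl⟩
  obtain ⟨td, htddef⟩ : ∃ td : ℝ, td = Real.exp (-(β * J)) := ⟨_, rfl⟩
  have ht : 0 < t := by rw [htdef]; exact Real.exp_pos _
  have htd : 0 < td := by rw [htddef]; exact Real.exp_pos _
  have htt : td < t := by
    rw [htdef, htddef]
    refine Real.exp_lt_exp.2 ?_
    have := mul_lt_mul_of_pos_left hJ hβ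
    linarith
  obtain ⟨cl, hcl, hlow⟩ := g2_low hβ hJ0 hq
  have hql : Real.exp (-β) ^ 2 + 2 * Real.exp (-β) < 1 := hq
  rw [← htdef] at hq hlow
  have ht1 : t < 1 := by nlinarith
  have hl0 : 0 < lam t := lam_pos ht ht1
  have hl1 : lam t < 1 := lam_lt_one ht hq
  obtain ⟨Cb, hCb, HB⟩ := rowB36 ht hq htd htt hc0
  obtain ⟨C₃, c₃, hC₃, hc₃, HC⟩ := rowC36 ht hq htd htt hc0
  obtain ⟨B, hB, HG⟩ := geo36 (half_pos hc0)
  refine ⟨Cb * (C₃ + B) / cl * (lam t ^ 2)⁻¹ * (3 : ℝ) ^ (3 / 2 : ℝ), min c₃ (c₀ / 2), 12, by positivity,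
    lt_min hc₃ (by positivity), by norm_num, fun l m hl hlm x K hx hK => ?_⟩
  have hN : (0 : ℤ) ≤ (l : ℤ) := by omega
  have hM : (1 : ℤ) ≤ (m : ℤ) := by omega
  have hm1 : 1 ≤ m := by omega
  have hm2 : 2 ≤ m := by omega
  have hmm : m < 2 * m + 1 := by omega
  have hx' := abs_le.1 hx
  have hK1 : (1 : ℝ) ≤ K := by exact_mod_cast hK
  -- the ends
  have ma : ((-(l : ℤ) - 1, 0) : Site) ∈ PL (box (l : ℤ) m) := by
    rw [mem_PL_box hN hM]
    simp only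
    omega
  have mb : (((l : ℤ), 0) : Site) ∈ PL (box (l : ℤ) m) := by
    rw [mem_PL_box hN hM]
    simp only
    omega
  obtain ⟨a, ha⟩ : ∃ a : PV (box (l : ℤ) m), a.1 = (-(l : ℤ) - 1, 0) := ⟨⟨_, ma⟩, rfl⟩
  obtain ⟨b, hb⟩ : ∃ b : PV (box (l : ℤ) m), b.1 = ((l : ℤ), 0) := ⟨⟨_, mb⟩, rfl⟩
  have hGab : cl * lam t ^ (2 * l + 1) / (2 * (l : ℝ) + 1) ^ (3 / 2 : ℝ) ≤ G2 β J l m a b := by
    have h1 := hlow (l : ℤ) (m : ℤ) (by omega) (by
      rw [Int.toNat_natCast]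
      have := sqrt36 hl
      omega) a b ha hb
    have h2 : (2 * (l : ℤ) + 1).toNat = 2 * l + 1 := by omega
    rw [h2, Int.cast_natCast] at h1
    exact h1
  have hGpos : 0 < G2 β J (l : ℤ) m a b := G2_pos hN hM ha hb
  -- rows of the column `x`
  have mq : ∀ v : Fin (2 * m + 1), ((x, (v : ℤ) - m) : Site) ∈ PL (box (l : ℤ) m) := by
    intro v
    rw [mem_PL_box hN hM]
    simp only
    have := v.2
    omega
  obtain ⟨Q, hQ⟩ : ∃ Q : Fin (2 * m + 1) → PV (box (l : ℤ) m), ∀ v, (Q v).1 = (x, (v : ℤ) - m) :=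
    ⟨fun v => ⟨_, mq v⟩, fun v => rfl⟩
  have hdec : ∀ (p : PV (box (l : ℤ) m)), p.1.1 = x → ∀ v, G2 β J l m (Q v) p ≤
      Real.exp (-(c₀ * |(((v : ℤ) - m - p.1.2 : ℤ) : ℝ)|)) := by
    intro p hp v
    have h1 := G2_decay h0 h.le hJ.le hN hM (Q v) p
    rw [hQ v, hp, ← hc₀] at h1
    simp only [sub_self, abs_zero] at h1
    rw [max_eq_right (abs_nonneg _), Int.cast_abs] at h1
    exact h1
  have hGS : ∀ (L : ℕ) v, 0 ≤ GS t (xs t td m) L ⟨m, hmm⟩ v := fun L v =>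
    GS_nonneg ht.le (fun j => (xs_pos ht htd m j).le) L _ v
  have hleft : ∀ (p : PV (box (l : ℤ) m)) (L : ℕ), p.1.1 = x → (L : ℤ) = x + l → G2 β J l m a p ≤
      ∑ v : Fin (2 * m + 1), GS t (xs t td m) L ⟨m, hmm⟩ v * Real.exp (-(c₀ * |(((v : ℤ) - m - p.1.2 : ℤ) : ℝ)|)) := by
    intro p L hp hL
    have h1 := g2_left (N := (l : ℤ)) hN hm1 hβ hJ0 ha p (L := L) (by rw [hp]; exact hL) Q (fun v => by rw [hQ v, hp])
    rw [← htdef, ← htddef] at h1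
    exact h1.trans (Finset.sum_le_sum fun v _ => mul_le_mul_of_nonneg_left (hdec p hp v) (hGS L v))
  have hright : ∀ (p : PV (box (l : ℤ) m)) (L : ℕ), p.1.1 = x → (L : ℤ) + 1 = l - x → G2 β J l m b p ≤
      ∑ v : Fin (2 * m + 1), GS t (xs t td m) L ⟨m, hmm⟩ v * Real.exp (-(c₀ * |(((v : ℤ) - m - p.1.2 : ℤ) : ℝ)|)) := by
    intro p L hp hL
    have h1 := g2_right (N := (l : ℤ)) hN hm1 hβ hJ0 hb p (L := L) (by rw [hp]; exact hL) Q (fun v => by rw [hQ v, hp])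
    rw [← htdef, ← htddef] at h1
    exact h1.trans (Finset.sum_le_sum fun v _ => mul_le_mul_of_nonneg_left (hdec p hp v) (hGS L v))
  -- reduction to the sum over the column
  refine (union36 hN hM hx hK).trans ?_
  refine (Finset.sum_le_sum fun p _ => contact_le hN hM hβ.le hJ0.le ha hb p).trans ?_
  rw [← Finset.sum_div]
  obtain ⟨S, hS⟩ : ∃ S : Finset (PV (box (l : ℤ) m)), S = Finset.univ.filter (fun p => p.1.1 = x ∧ K ≤ p.1.2) := ⟨_, rfl⟩
  obtain ⟨S', hS'⟩ : ∃ S' : Finset ℤ, S' = S.image (fun p => p.1.2) := ⟨_, rfl⟩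
  have hSK : ∀ y ∈ S', K ≤ y := by
    intro y hy
    rw [hS', Finset.mem_image] at hy
    obtain ⟨p, hp, rfl⟩ := hy
    rw [hS, Finset.mem_filter] at hp
    exact hp.2.2
  obtain ⟨D, hDdef⟩ : ∃ D : ℝ, D = (l : ℝ) - |(x : ℝ)| + 1 := ⟨_, rfl⟩
  obtain ⟨c', hc'⟩ : ∃ c' : ℝ, c' = min c₃ (c₀ / 2) := ⟨_, rfl⟩
  have hxr : |(x : ℝ)| ≤ l := by exact_mod_cast hx
  have hD1 : 1 ≤ D := by rw [hDdef]; linarith
  have hD0 : 0 < D := by linarith
  rw [← hDdef, ← hc', ← hS]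
  have hμ0 : 0 ≤ min ((K : ℝ) ^ 2 / D) (K : ℝ) := le_min (by positivity) (by linarith)
  have hexp1 : Real.exp (-(c₃ * min ((K : ℝ) ^ 2 / D) (K : ℝ))) ≤ Real.exp (-(c' * min ((K : ℝ) ^ 2 / D) (K : ℝ))) := by
    refine Real.exp_le_exp.2 (neg_le_neg (mul_le_mul_of_nonneg_right ?_ hμ0))
    rw [hc']
    exact min_le_left _ _
  have hexp2 : Real.exp (-(c₀ / 2 * (K : ℝ))) ≤ Real.exp (-(c' * min ((K : ℝ) ^ 2 / D) (K : ℝ))) := by
    refine Real.exp_le_exp.2 (neg_le_neg (mul_le_mul ?_ (min_le_right _ _) hμ0 (by positivity)))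
    rw [hc']
    exact min_le_right _ _
  obtain ⟨E, hE⟩ : ∃ E : ℝ, E = Real.exp (-(c' * min ((K : ℝ) ^ 2 / D) (K : ℝ))) := ⟨_, rfl⟩
  rw [← hE] at hexp1 hexp2 ⊢
  have hE0 : 0 < E := by rw [hE]; exact Real.exp_pos _
  have hS2 : ∀ p ∈ S, p.1.1 = x ∧ K ≤ p.1.2 := by
    intro p hp
    rw [hS, Finset.mem_filter] at hp
    exact hp.2
  -- common end of the proof
  have key : ∀ (L1 L2 : ℕ) (R : ℤ → ℝ), 2 * l + 1 ≤ L1 + L2 + 2 → 2 * l + 1 ≤ 3 * (L2 + 1) → (∀ y, 0 ≤ R y) →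
      (∀ p ∈ S, G2 β J l m a p * G2 β J l m p b ≤
        (Cb * (1 + |((p.1.2 : ℤ) : ℝ)|) * lam t ^ L2 / ((L2 : ℝ) + 1) ^ (3 / 2 : ℝ)) * R p.1.2) →
      (∑ y ∈ S', (1 + (y : ℝ)) * R y ≤ (C₃ + B) * lam t ^ L1 * E) →
      (∑ p ∈ S, G2 β J l m a p * G2 β J l m p b) / G2 β J l m a b ≤
        Cb * (C₃ + B) / cl * (lam t ^ 2)⁻¹ * (3 : ℝ) ^ (3 / 2 : ℝ) * E := by
    intro L1 L2 R h1 h2 hR h3 h4
    refine fin36 (l := l) (L1 := L1) (L2 := L2) hl0 hl1 hCb (by positivity) hcl hE0.le h1 h2 hGab ?_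
    have h5 : ∑ p ∈ S, G2 β J l m a p * G2 β J l m p b ≤
        ∑ p ∈ S, Cb * lam t ^ L2 / ((L2 : ℝ) + 1) ^ (3 / 2 : ℝ) * ((1 + ((p.1.2 : ℤ) : ℝ)) * R p.1.2) := by
      refine Finset.sum_le_sum fun p hp => (h3 p hp).trans (le_of_eq ?_)
      have h6 : (0 : ℝ) ≤ ((p.1.2 : ℤ) : ℝ) := by
        have := (hS2 p hp).2
        exact_mod_cast (by omega : (0 : ℤ) ≤ p.1.2)
      rw [abs_of_nonneg h6]
      ring
    refine h5.trans ?_
    rw [← Finset.mul_sum]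
    refine mul_le_mul_of_nonneg_left ?_ (by positivity)
    have h7 := col36 (N := (l : ℤ)) (M := (m : ℤ)) (x := x) (K := K) (fun y => (1 + (y : ℝ)) * R y)
    rw [← hS, ← hS'] at h7
    rw [h7]
    exact h4
  have hRnn : ∀ (L : ℕ) (y : ℤ), 0 ≤ ∑ v : Fin (2 * m + 1), GS t (xs t td m) L ⟨m, hmm⟩ v *
      Real.exp (-(c₀ * |(((v : ℤ) - m - y : ℤ) : ℝ)|)) := fun L y =>
    Finset.sum_nonneg fun v _ => mul_nonneg (hGS L v) (Real.exp_pos _).le
  have hstep : ∀ L : ℕ, (L : ℝ) ≤ D → ∑ y ∈ S', (1 + (y : ℝ)) * ∑ v : Fin (2 * m + 1), GS t (xs t td m) L ⟨m, hmm⟩ v *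
      Real.exp (-(c₀ * |(((v : ℤ) - m - y : ℤ) : ℝ)|)) ≤ (C₃ + B) * lam t ^ L * E := by
    intro L hL
    refine (HC m L hmm D K S' hm2 hL hD1 hK hSK).trans ?_
    have h1 : C₃ * lam t ^ L * Real.exp (-(c₃ * min ((K : ℝ) ^ 2 / D) (K : ℝ))) ≤ C₃ * lam t ^ L * E :=
      mul_le_mul_of_nonneg_left hexp1 (by positivity)
    have h2 : 0 ≤ B * lam t ^ L * E := by positivity
    linarith
  rcases le_or_gt x 0 with hx0 | hx0
  · -- left half
    obtain ⟨L1, hL1⟩ : ∃ L1 : ℕ, (L1 : ℤ) = x + l := ⟨(x + l).toNat, by omega⟩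
    obtain ⟨L2, hL2⟩ : ∃ L2 : ℕ, (L2 : ℤ) + 1 = l - x := ⟨(l - x - 1).toNat, by omega⟩
    refine key L1 L2 _ (by omega) (by omega) (hRnn L1) (fun p hp => ?_) (hstep L1 ?_)
    · rw [mul_comm, G2_comm36 p b]
      refine mul_le_mul ((hright p L2 (hS2 p hp).1 hL2).trans (HB m L2 hmm p.1.2 hm2)) (hleft p L1 (hS2 p hp).1 hL1)
        (G2_nn36 _ _) (by positivity)
    · have h1 : |(x : ℝ)| = -x := abs_of_nonpos (by exact_mod_cast hx0)
      have h2 : (L1 : ℝ) = x + l := by exact_mod_cast hL1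
      rw [hDdef, h1, h2]
      linarith
  · obtain ⟨L2, hL2⟩ : ∃ L2 : ℕ, (L2 : ℤ) = x + l := ⟨(x + l).toNat, by omega⟩
    rcases lt_or_eq_of_le hx'.2 with hxl | hxl
    · -- right half
      obtain ⟨L1, hL1⟩ : ∃ L1 : ℕ, (L1 : ℤ) + 1 = l - x := ⟨(l - x - 1).toNat, by omega⟩
      refine key L1 L2 _ (by omega) (by omega) (hRnn L1) (fun p hp => ?_) (hstep L1 ?_)
      · rw [G2_comm36 p b]
        refine mul_le_mul ((hleft p L2 (hS2 p hp).1 hL2).trans (HB m L2 hmm p.1.2 hm2)) (hright p L1 (hS2 p hp).1 hL1)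
          (G2_nn36 _ _) (by positivity)
      · have h1 : |(x : ℝ)| = x := abs_of_nonneg (by exact_mod_cast hx0.le)
        have h2 : (L1 : ℝ) + 1 = l - x := by exact_mod_cast hL1
        rw [hDdef, h1]
        linarith
    · -- the last column
      refine key 0 L2 (fun y => Real.exp (-(c₀ * |(y : ℝ)|))) (by omega) (by omega) (fun y => (Real.exp_pos _).le)
        (fun p hp => ?_) ?_
      · refine mul_le_mul ((hleft p L2 (hS2 p hp).1 hL2).trans (HB m L2 hmm p.1.2 hm2)) ?_ (G2_nn36 _ _) (by positivity)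
        have h1 := G2_decay h0 h.le hJ.le hN hM p b
        rw [← hc₀] at h1
        have h2 : (max |p.1.1 - b.1.1| |p.1.2 - b.1.2| : ℤ) = |p.1.2| := by
          rw [(hS2 p hp).1, hb, hxl]
          simp
        rw [h2, Int.cast_abs] at h1
        exact h1
      · have h1 : ∀ y ∈ S', (1 + (y : ℝ)) * Real.exp (-(c₀ * |(y : ℝ)|)) ≤
            Real.exp (-(c₀ / 2 * (K : ℝ))) * ((1 + |(y : ℝ)|) * Real.exp (-(c₀ / 2 * |(y : ℝ)|))) := by
          intro y hy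
          have h2 : (K : ℝ) ≤ y := by exact_mod_cast hSK y hy
          have h3 : |(y : ℝ)| = y := abs_of_nonneg (by linarith)
          rw [h3]
          have h4 : Real.exp (-(c₀ * (y : ℝ))) ≤ Real.exp (-(c₀ / 2 * (K : ℝ))) * Real.exp (-(c₀ / 2 * (y : ℝ))) := by
            rw [← Real.exp_add]
            refine Real.exp_le_exp.2 ?_
            have h5 := mul_le_mul_of_nonneg_left h2 (half_pos hc0).le
            linarith
          calc (1 + (y : ℝ)) * Real.exp (-(c₀ * (y : ℝ)))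
              ≤ (1 + (y : ℝ)) * (Real.exp (-(c₀ / 2 * (K : ℝ))) * Real.exp (-(c₀ / 2 * (y : ℝ)))) :=
                mul_le_mul_of_nonneg_left h4 (by linarith)
            _ = _ := by ring
        refine (Finset.sum_le_sum h1).trans ?_
        rw [← Finset.mul_sum]
        have h5 := HG S'
        calc Real.exp (-(c₀ / 2 * (K : ℝ))) * ∑ y ∈ S', (1 + |(y : ℝ)|) * Real.exp (-(c₀ / 2 * |(y : ℝ)|))
            ≤ E * B := mul_le_mul hexp2 h5 (Finset.sum_nonneg fun y _ => by positivity) hE0.le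
          _ ≤ (C₃ + B) * lam t ^ 0 * E := by
              rw [pow_zero, mul_one]
              have h6 := mul_pos hC₃ hE0
              linarith

end Pool.Agent.Helper49.TT
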