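import Pool.Agent.Helper49.TT.WallEnd
import Pool.Agent.Helper49.TT.BlockCol
import Pool.Agent.Helper49.DX.End

/-!
Block TT-E: increments of the interface.

`Good n r K ω`: the interface is below the height `K` in the columns with `|x| ≥ n - r`, and below `n / 2` everywhere.

Paper proofs. Interface bonds `((x, y), false)` have `|x| ≤ n`, `-n ≤ y ≤ n`, or `y = 0` (`broken_pos65` in `DX/End.lean`). So `Above n x K` with `K ≥ 1` implies `|x| ≤ n`, `K ≤ n`.
* `incr`: let `C, c, l₀` be from `wall_end` and `end_le`, `r = 2 l₀ + 3`, `n ≥ r`. Let `E` be the event. If `|u'| ≥ n - r` then `Good` and `Above n u' (K + h)` are contradictory (`above_mono`). If `|u| > n`: drop the condition at `u`: `P (Above n u' (K + h)) ≤ C exp (-(c min ((K+h)²/(n - |u'| + 1), K + h)))` (`end_le`), `n - |u'| + 1 ≤ |u - u'|`,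
  `K + h ≥ h`. Let `|u| ≤ n`, `u < u' < n - r` (for `u > u'` reflect: block on the left side `[-n, u - 1]` or `[-n + 1, u - 1]`). If `K > n` or `K + h > n`, `E` is impossible. Let the block be `[u + 1, n]` if `n - u` is odd, `[u + 1, n - 1]` if it is even: `{x : |x - c'| ≤ l}` with `l ≥ l₀`, `|c'| + l ≤ n`; its right
  neighbour column is `n + 1` (not `Above` any height `≥ 1`) or `n` (not `Above` `K` by `Good`). `block_col` with `H = K`, `m = n - K + 1`, `K_block = h + 1`, `x = u'`: `E` is contained in its event (`H - 1 + m = n`: no `Above n x' n` by `Good`, `n / 2 ≤ n`; `H - 1 + (h + 1) = K + h`). Then `wall_end`: the distance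
  `l - |u' - c'| + 1` to the ends of the block is at most `u' - u`.
* `tail`: `end_le` for `J`: `n - |u| + 1 ≤ n + 1`, `K ≤ n` (else the event is empty), so `min (K²/(n + 1 - |u|), K) ≥ K²/(n + 1)`.
* `good_lim`: `end_tight` (`DX/End.lean`) for the finitely many `|x|` in `[n - r, n]` (the constant `C` of `end_tight` does not depend on `r`, `t`); `|x| > n`: no `Above`. Second part: union bound over `|x| ≤ n` with `tail`: `(2 n + 1) C exp (-(c n²/(8 (n + 1)))) → 0`.
-/

open Finset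
open scoped Classical

namespace Pool.Agent.Helper49.TT

open Pool.Agent.Helper49.DL Pool.Agent.Helper49.DX

/-- The interface is low near the ends, and not very high. -/
def Good (n : ℕ) (r : ℕ) (K : ℤ) (ω : Cfg) : Prop :=
  (∀ x : ℤ, (n : ℤ) - r ≤ |x| → ¬ Above n x K ω) ∧ ∀ x : ℤ, ¬ Above n x ((n : ℤ) / 2) ω

/-- the interface does not leave the box -/
private theorem above_box_h99 {n x K : ℤ} (hK : 1 ≤ K) {ω : Cfg}
    (hω : ω ∈ confs (box n n) (eta 0)) (hA : Above n x K ω) : |x| ≤ n ∧ K ≤ n := by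
  obtain ⟨y, hy, hI⟩ := hA
  have hb : Broken ω ((x, y), false) := hI.1
  rw [mem_confs] at hω
  by_cases h1 : (x, y) ∈ box n n
  · rw [mem_box] at h1
    simp only at h1
    rw [abs_le]
    omega
  by_cases h2 : bend ((x, y), false) ∈ box n n
  · rw [mem_box] at h2
    simp only [bend, e2, Bool.false_eq_true, if_false, Prod.mk_add_mk, add_zero] at h2
    rw [abs_le]
    omega
  exfalso
  apply hb
  rw [hω _ h1, hω _ h2]
  simp only [bend, e2, Bool.false_eq_true, if_false, Prod.mk_add_mk, add_zero, eta,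
    decide_eq_decide]
  omega

private theorem PJ_le_h99 {β J : ℝ} {n : ℤ} {E F : Cfg → Prop}
    (h : ∀ ω ∈ confs (box n n) (eta 0), E ω → F ω) : PJ β J n E ≤ PJ β J n F := by
  unfold PJ
  refine avg_mono fun ω hω => ?_
  by_cases hE : E ω
  · rw [if_pos hE, if_pos (h ω hω hE)]
  · rw [if_neg hE]
    split_ifs
    · exact zero_le_one
    · exact le_rfl

private theorem PJ_zero_h99 {β J : ℝ} {n : ℤ} {E : Cfg → Prop}
    (h : ∀ ω ∈ confs (box n n) (eta 0), ¬ E ω) : PJ β J n E ≤ 0 := by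
  have h1 : PJ β J n E ≤ avg β (kap J) (box n n) (eta 0) (fun _ => 0) := by
    unfold PJ
    refine avg_mono fun ω hω => ?_
    rw [if_neg (h ω hω)]
  rwa [avg_const] at h1

private theorem PJ_sum_h99 {β J : ℝ} {n : ℤ} {E : Cfg → Prop} {ι : Type} (S : Finset ι)
    (F : ι → Cfg → Prop) (h : ∀ ω ∈ confs (box n n) (eta 0), E ω → ∃ i ∈ S, F i ω) :
    PJ β J n E ≤ ∑ i ∈ S, PJ β J n (F i) := by
  unfold PJ
  rw [← avg_sum]
  refine avg_mono fun ω hω => ?_
  have hnn : ∀ i ∈ S, (0 : ℝ) ≤ if F i ω then 1 else 0 := by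
    intro i _
    split_ifs
    · exact zero_le_one
    · exact le_rfl
  by_cases hE : E ω
  · rw [if_pos hE]
    obtain ⟨i, hi, hF⟩ := h ω hω hE
    have h1 := Finset.single_le_sum hnn hi
    rwa [if_pos hF] at h1
  · rw [if_neg hE]
    exact Finset.sum_nonneg hnn

/-- comparison of the exponents -/
private theorem expo_h99 {C C' c c' : ℝ} (hC : C' ≤ C) (hC0 : 0 < C) (hc : c ≤ c') (hc0 : 0 < c)
    {k k' d d' : ℝ} (hk : 1 ≤ k) (hkk : k ≤ k') (hd : 0 < d') (hdd : d' ≤ d) :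
    C' * Real.exp (-(c' * min (k' ^ 2 / d') k')) ≤ C * Real.exp (-(c * min (k ^ 2 / d) k)) := by
  have h1 : min (k ^ 2 / d) k ≤ min (k' ^ 2 / d') k' := by
    refine min_le_min ?_ hkk
    have h2 : k ^ 2 ≤ k' ^ 2 := pow_le_pow_left₀ (by linarith) hkk 2
    exact div_le_div₀ (by positivity) h2 hd hdd
  have h3 : 0 ≤ min (k ^ 2 / d) k := by
    refine le_min ?_ (by linarith)
    have : 0 < d := lt_of_lt_of_le hd hdd
    positivity
  have h4 : c * min (k ^ 2 / d) k ≤ c' * min (k' ^ 2 / d') k' :=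
    mul_le_mul hc h1 h3 (hc0.le.trans hc)
  have h5 : Real.exp (-(c' * min (k' ^ 2 / d') k')) ≤ Real.exp (-(c * min (k ^ 2 / d) k)) :=
    Real.exp_le_exp.2 (by linarith)
  calc C' * Real.exp (-(c' * min (k' ^ 2 / d') k'))
      ≤ C * Real.exp (-(c' * min (k' ^ 2 / d') k')) :=
        mul_le_mul_of_nonneg_right hC (Real.exp_pos _).le
    _ ≤ _ := mul_le_mul_of_nonneg_left h5 hC0.le

section

variable {β₁ β J : ℝ} (h0 : 0 ≤ β₁) (h : β₁ < β) (hm : 0 < mag β₁) (hJ : 1 < J)

include h0 h hm hJ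

theorem incr : ∃ (C c : ℝ) (r : ℕ), 0 < C ∧ 0 < c ∧ ∀ n : ℕ, r ≤ n → ∀ u u' K k : ℤ, u ≠ u' → 2 ≤ K → 1 ≤ k →
    PJ β J n (fun ω => Good n r K ω ∧ ¬ Above n u K ω ∧ Above n u' (K + k) ω) ≤
      C * Real.exp (-(c * min ((k : ℝ) ^ 2 / |(u : ℝ) - u'|) (k : ℝ))) := by
  obtain ⟨C1, c1, l1, hC1, hc1, hl1, hwall⟩ := wall_end h0 h hm
  obtain ⟨C2, c2, l2, hC2, hc2, hl2, hend⟩ := end_le h0 h hm hJ
  have hβ : 0 ≤ β := h0.trans h.le
  refine ⟨max C1 C2, min c1 c2, 2 * max l1 l2 + 3, lt_max_of_lt_left hC1, lt_min hc1 hc2,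
    fun n hn u u' K k huu hK hk => ?_⟩
  obtain ⟨C, hCd⟩ : ∃ C, C = max C1 C2 := ⟨_, rfl⟩
  obtain ⟨c, hcd⟩ : ∃ c, c = min c1 c2 := ⟨_, rfl⟩
  obtain ⟨l₀, hl₀⟩ : ∃ l₀, l₀ = max l1 l2 := ⟨_, rfl⟩
  rw [← hCd, ← hcd]
  rw [← hl₀] at hn ⊢
  have hC0 : 0 < C := by rw [hCd]; exact lt_max_of_lt_left hC1
  have hc0 : 0 < c := by rw [hcd]; exact lt_min hc1 hc2
  have hCC1 : C1 ≤ C := by rw [hCd]; exact le_max_left _ _
  have hCC2 : C2 ≤ C := by rw [hCd]; exact le_max_right _ _
  have hcc1 : c ≤ c1 := by rw [hcd]; exact min_le_left _ _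
  have hcc2 : c ≤ c2 := by rw [hcd]; exact min_le_right _ _
  have hl1' : l1 ≤ l₀ := by rw [hl₀]; exact le_max_left _ _
  have hl2' : l2 ≤ l₀ := by rw [hl₀]; exact le_max_right _ _
  have hR : 0 ≤ C * Real.exp (-(c * min ((k : ℝ) ^ 2 / |(u : ℝ) - u'|) (k : ℝ))) :=
    (mul_pos hC0 (Real.exp_pos _)).le
  have hkr : (1 : ℝ) ≤ k := by exact_mod_cast hk
  by_cases hu' : (n : ℤ) - (2 * l₀ + 3 : ℕ) ≤ |u'|
  · refine (PJ_zero_h99 ?_).trans hR
    rintro ω _ ⟨hg, _, hA⟩
    exact hg.1 u' hu' (above_mono (by omega) hA)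
  rw [not_le] at hu'
  have hu1 := abs_lt.1 hu'
  by_cases hKn : (n : ℤ) < K + k
  · refine (PJ_zero_h99 ?_).trans hR
    rintro ω hω ⟨_, _, hA⟩
    have := (above_box_h99 (by omega) hω hA).2
    omega
  rw [not_lt] at hKn
  push_cast at hu' hu1
  by_cases hu : (n : ℤ) < |u|
  · have h1 : PJ β J n (fun ω => Good n (2 * l₀ + 3) K ω ∧ ¬ Above n u K ω ∧
        Above n u' (K + k) ω) ≤ PJ β J n (Above n u' (K + k)) :=
      PJ_mono fun ω hE => hE.2.2
    refine h1.trans ((hend n n (by omega) le_rfl u' (K + k) (by omega) (by omega)).trans ?_)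
    refine expo_h99 hCC2 hC0 hcc2 hc0 hkr ?_ ?_ ?_
    · push_cast
      have : (2 : ℝ) ≤ K := by exact_mod_cast hK
      linarith
    · have : |(u' : ℝ)| ≤ n := by
        rw [← Int.cast_abs]
        exact_mod_cast (by omega : |u'| ≤ (n : ℤ))
      linarith
    · have h2 : |(u : ℝ)| - |(u' : ℝ)| ≤ |(u : ℝ) - u'| := abs_sub_abs_le_abs_sub _ _
      have h3 : (n : ℝ) + 1 ≤ |(u : ℝ)| := by
        rw [← Int.cast_abs]
        exact_mod_cast (by omega : (n : ℤ) + 1 ≤ |u|)
      linarith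
  rw [not_lt] at hu
  have hu2 := abs_le.1 hu
  -- a block
  have block : ∀ c' l : ℤ, (l₀ : ℤ) ≤ l → |c'| + l ≤ n → |u' - c'| ≤ l →
      (∀ ω ∈ confs (box n n) (eta 0), Good n (2 * l₀ + 3) K ω → ¬ Above n u K ω →
        ¬ Above n (c' - l - 1) K ω ∧ ¬ Above n (c' + l + 1) K ω) →
      l - |u' - c'| + 1 ≤ |u - u'| →
      PJ β J n (fun ω => Good n (2 * l₀ + 3) K ω ∧ ¬ Above n u K ω ∧ Above n u' (K + k) ω) ≤
        C * Real.exp (-(c * min ((k : ℝ) ^ 2 / |(u : ℝ) - u'|) (k : ℝ))) := by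
    intro c' l hl hcl hxl hab hdist
    obtain ⟨ln, rfl⟩ : ∃ ln : ℕ, l = ln := ⟨l.toNat, by omega⟩
    obtain ⟨mn, hmn⟩ : ∃ mn : ℕ, (n : ℤ) - K + 1 = mn := ⟨((n : ℤ) - K + 1).toNat, by omega⟩
    have h1 := block_col hβ (by linarith : (0 : ℝ) ≤ J) (N := n) (M := n) (c := c') (l := ln)
      (H := K) (m := mn) (K := k + 1) (x := u') (by omega) (by omega) hK (by omega) hcl
      (by omega) hxl
    have h2 : PJ β J n (fun ω => Good n (2 * l₀ + 3) K ω ∧ ¬ Above n u K ω ∧
        Above n u' (K + k) ω) ≤ avg β (kap J) (box n n) (eta 0) (fun ω =>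
        if ¬ Above n (c' - ln - 1) K ω ∧ ¬ Above n (c' + ln + 1) K ω ∧
          (∀ x', |x' - c'| ≤ ln → ¬ Above n x' (K - 1 + mn) ω) ∧
          Above n u' (K - 1 + (k + 1)) ω then 1 else 0) := by
      unfold PJ
      refine avg_mono fun ω hω => ?_
      by_cases hE : Good n (2 * l₀ + 3) K ω ∧ ¬ Above n u K ω ∧ Above n u' (K + k) ω
      · rw [if_pos hE]
        obtain ⟨hg, hgu, hA⟩ := hE
        obtain ⟨ha, hb⟩ := hab ω hω hg hgu
        rw [if_pos]
        refine ⟨ha, hb, fun x' _ hx' => ?_, ?_⟩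
        · exact hg.2 x' (above_mono (by omega) hx')
        · have h5 : K - 1 + (k + 1) = K + k := by ring
          rwa [h5]
      · rw [if_neg hE]
        split_ifs <;> norm_num
    refine h2.trans (h1.trans ?_)
    refine (hwall ln mn (by omega) (by omega) (u' - c') (k + 1) hxl (by omega)).trans ?_
    have hcast : |((u' - c' : ℤ) : ℝ)| = ((|u' - c'| : ℤ) : ℝ) := (Int.cast_abs).symm
    have hcast2 : |(u : ℝ) - u'| = ((|u - u'| : ℤ) : ℝ) := by
      rw [Int.cast_abs]
      push_cast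
      rfl
    refine expo_h99 hCC1 hC0 hcc1 hc0 hkr ?_ ?_ ?_
    · push_cast
      linarith
    · rw [hcast]
      have : ((|u' - c'| : ℤ) : ℝ) ≤ ((ln : ℤ) : ℝ) := Int.cast_le.2 hxl
      simp only [Int.cast_natCast] at this
      linarith
    · rw [hcast, hcast2]
      exact_mod_cast hdist
  rcases lt_or_gt_of_ne huu with hlt | hlt
  · -- block `[u + 1, b]`
    obtain ⟨b, l, hbl, hb⟩ : ∃ b l : ℤ, b - u - 1 = 2 * l ∧ (b = n ∨ b = n - 1) := by
      rcases Int.even_or_odd' (n - u - 1) with ⟨l, hl | hl⟩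
      · exact ⟨n, l, hl, Or.inl rfl⟩
      · exact ⟨n - 1, l, by omega, Or.inr rfl⟩
    refine block (b - l) l (by omega) ?_ ?_ ?_ ?_
    · have h1 : |b - l| ≤ n - l := by
        rw [abs_le]
        omega
      omega
    · rw [abs_le]
      omega
    · intro ω hω hg hgu
      refine ⟨?_, ?_⟩
      · have h5 : b - l - l - 1 = u := by omega
        rwa [h5]
      · have h5 : b - l + l + 1 = b + 1 := by ring
        rw [h5]
        rcases hb with rfl | rfl
        · intro hA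
          have := (above_box_h99 (by omega) hω hA).1
          rw [abs_le] at this
          omega
        · refine hg.1 _ ?_
          have := le_abs_self ((n : ℤ) - 1 + 1)
          push_cast
          omega
    · have h3 := neg_abs_le (u' - (b - l))
      have h4 := neg_abs_le (u - u')
      have h5 := neg_le_abs (u - u')
      omega
  · -- block `[b, u - 1]`
    obtain ⟨b, l, hbl, hb⟩ : ∃ b l : ℤ, u - 1 - b = 2 * l ∧ (b = -n ∨ b = -n + 1) := by
      rcases Int.even_or_odd' (u - 1 + n) with ⟨l, hl | hl⟩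
      · exact ⟨-n, l, by omega, Or.inl rfl⟩
      · exact ⟨-n + 1, l, by omega, Or.inr rfl⟩
    refine block (b + l) l (by omega) ?_ ?_ ?_ ?_
    · have h1 : |b + l| ≤ n - l := by
        rw [abs_le]
        omega
      omega
    · rw [abs_le]
      omega
    · intro ω hω hg hgu
      refine ⟨?_, ?_⟩
      · have h5 : b + l - l - 1 = b - 1 := by ring
        rw [h5]
        rcases hb with rfl | rfl
        · intro hA
          have := (above_box_h99 (by omega) hω hA).1
          rw [abs_le] at this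
          omega
        · refine hg.1 _ ?_
          have := neg_le_abs (-(n : ℤ) + 1 - 1)
          push_cast
          omega
      · have h5 : b + l + l + 1 = u := by omega
        rwa [h5]
    · have h3 := le_abs_self (u' - (b + l))
      have h5 := le_abs_self (u - u')
      omega

theorem tail : ∃ (C c : ℝ) (r : ℕ), 0 < C ∧ 0 < c ∧ ∀ n : ℕ, r ≤ n → ∀ u K : ℤ, 1 ≤ K →
    PJ β J n (Above n u K) ≤ C * Real.exp (-(c * ((K : ℝ) ^ 2 / (n + 1)))) := by
  obtain ⟨C, c, l₀, hC, hc, hl, hend⟩ := end_le h0 h hm hJ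
  refine ⟨C, c, l₀, hC, hc, fun n hn u K hK => ?_⟩
  have hR : 0 ≤ C * Real.exp (-(c * ((K : ℝ) ^ 2 / (n + 1)))) :=
    (mul_pos hC (Real.exp_pos _)).le
  by_cases hu : |u| ≤ n ∧ K ≤ n
  · refine (hend n n hn le_rfl u K hu.1 hK).trans ?_
    refine mul_le_mul_of_nonneg_left (Real.exp_le_exp.2 ?_) hC.le
    refine neg_le_neg (mul_le_mul_of_nonneg_left ?_ hc.le)
    have hK1 : (1 : ℝ) ≤ K := by exact_mod_cast hK
    have hKn : (K : ℝ) ≤ n := by exact_mod_cast hu.2
    have hun : |(u : ℝ)| ≤ n := by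
      rw [← Int.cast_abs]
      exact_mod_cast hu.1
    refine le_min ?_ ?_
    · refine div_le_div_of_nonneg_left (by positivity) (by linarith) ?_
      have := abs_nonneg (u : ℝ)
      linarith
    · rw [div_le_iff₀ (by linarith)]
      nlinarith
  · refine (PJ_zero_h99 ?_).trans hR
    intro ω hω hA
    exact hu (above_box_h99 hK hω hA)

theorem good_lim : ∃ C : ℝ, 0 < C ∧ ∀ (r : ℕ) (t : ℝ), 0 < t → ∃ n₀ : ℕ, ∀ n : ℕ, n₀ ≤ n → ∀ K : ℤ,
    C * Real.log n ≤ K → PJ β J n (fun ω => ¬ Good n r K ω) ≤ t := by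
  obtain ⟨C, hC, het⟩ := end_tight h0 h hm hJ.le
  obtain ⟨C', c', r', hC', hc', htail⟩ := tail h0 h hm hJ
  refine ⟨C, hC, fun r t ht => ?_⟩
  have ht' : 0 < t / (4 * (r + 1)) := by positivity
  choose! n₁ hn₁ using fun (j : ℕ) => het j (t / (4 * (r + 1))) (by omega) ht'
  obtain ⟨n₂, hn₂⟩ : ∃ n₂ : ℕ, ∀ j ∈ Finset.range (r + 1), n₁ j ≤ n₂ := by
    refine ⟨∑ j ∈ Finset.range (r + 1), (n₁ j).toNat, fun j hj => ?_⟩
    have h1 : (n₁ j).toNat ≤ ∑ j ∈ Finset.range (r + 1), (n₁ j).toNat :=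
      Finset.single_le_sum (f := fun j => (n₁ j).toNat) (fun _ _ => Nat.zero_le _) hj
    omega
  obtain ⟨B, hB⟩ : ∃ B : ℝ, B = 768 * C' / (c' ^ 2 * t) := ⟨_, rfl⟩
  refine ⟨max (max n₂ r') (max (r + 6) ⌈B⌉₊), fun n hn K hK => ?_⟩
  have hn2 : n₂ ≤ n := ((le_max_left _ _).trans (le_max_left _ _)).trans hn
  have hnr' : r' ≤ n := ((le_max_right _ _).trans (le_max_left _ _)).trans hn
  have hnr : r + 6 ≤ n := ((le_max_left _ _).trans (le_max_right _ _)).trans hn
  have hnB : B ≤ n := (Nat.le_ceil _).trans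
    (by exact_mod_cast ((le_max_right _ _).trans (le_max_right _ _)).trans hn)
  have hnR : (6 : ℝ) ≤ n := by exact_mod_cast (by omega : 6 ≤ n)
  have hK1 : 1 ≤ K := by
    have h1 : 0 < C * Real.log n := mul_pos hC (Real.log_pos (by linarith))
    have h2 : (0 : ℝ) < K := h1.trans_le hK
    exact_mod_cast h2
  -- near the ends
  have hA : PJ β J n (fun ω => ∃ x : ℤ, (n : ℤ) - r ≤ |x| ∧ Above n x K ω) ≤ t / 2 := by
    have h1 := PJ_sum_h99 (β := β) (J := J) (n := n)
      (E := fun ω => ∃ x : ℤ, (n : ℤ) - r ≤ |x| ∧ Above n x K ω)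
      (Finset.range (r + 1) ×ˢ ({1, -1} : Finset ℤ))
      (fun p => Above n (p.2 * (n - p.1)) K) (by
        rintro ω hω ⟨x, hx, hxA⟩
        have h2 := (above_box_h99 hK1 hω hxA).1
        rcases le_total 0 x with h3 | h3
        · rw [abs_of_nonneg h3] at hx h2
          refine ⟨((n - x).toNat, 1), ?_, ?_⟩
          · rw [Finset.mem_product, Finset.mem_range]
            refine ⟨by simp only; omega, by simp⟩
          · have h4 : (1 : ℤ) * (n - ((n - x).toNat : ℕ)) = x := by omega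
            simp only
            rwa [h4]
        · rw [abs_of_nonpos h3] at hx h2
          refine ⟨((n + x).toNat, -1), ?_, ?_⟩
          · rw [Finset.mem_product, Finset.mem_range]
            refine ⟨by simp only; omega, by simp⟩
          · have h4 : (-1 : ℤ) * (n - ((n + x).toNat : ℕ)) = x := by omega
            simp only
            rwa [h4])
    refine h1.trans ?_
    have h2 : ∀ p ∈ Finset.range (r + 1) ×ˢ ({1, -1} : Finset ℤ),
        PJ β J n (Above n (p.2 * (n - p.1)) K) ≤ t / (4 * (r + 1)) := by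
      rintro ⟨j, s⟩ hp
      rw [Finset.mem_product] at hp
      obtain ⟨hj, hs⟩ := hp
      simp only at hj hs ⊢
      have hj' := Finset.mem_range.1 hj
      refine hn₁ j n ((hn₂ j hj).trans (by exact_mod_cast hn2)) _ K ?_ (by exact_mod_cast hK)
      have h5 : (0 : ℤ) ≤ n - j := by omega
      simp only [Finset.mem_insert, Finset.mem_singleton] at hs
      rcases hs with rfl | rfl
      · rw [one_mul, abs_of_nonneg h5]
      · rw [neg_mul, one_mul, abs_neg, abs_of_nonneg h5]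
    refine (Finset.sum_le_sum h2).trans ?_
    rw [Finset.sum_const, nsmul_eq_mul, Finset.card_product, Finset.card_range]
    have h6 : ({1, -1} : Finset ℤ).card = 2 := by decide
    rw [h6]
    push_cast
    have : (0 : ℝ) < r + 1 := by positivity
    field_simp
    norm_num
  -- very high
  have hB' : PJ β J n (fun ω => ∃ x : ℤ, Above n x ((n : ℤ) / 2) ω) ≤ t / 2 := by
    have hn2' : 1 ≤ (n : ℤ) / 2 := by omega
    have h1 := PJ_sum_h99 (β := β) (J := J) (n := n)
      (E := fun ω => ∃ x : ℤ, Above n x ((n : ℤ) / 2) ω)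
      (Finset.Icc (-n : ℤ) n) (fun x => Above n x ((n : ℤ) / 2)) (by
        rintro ω hω ⟨x, hxA⟩
        have h2 := (above_box_h99 hn2' hω hxA).1
        rw [abs_le] at h2
        exact ⟨x, Finset.mem_Icc.2 h2, hxA⟩)
    refine h1.trans ((Finset.sum_le_sum fun x _ => htail n hnr' x _ hn2').trans ?_)
    rw [Finset.sum_const, nsmul_eq_mul, Int.card_Icc]
    have h3 : (((n : ℤ) + 1 - -n).toNat : ℝ) = 2 * n + 1 := by
      have : ((n : ℤ) + 1 - -n).toNat = 2 * n + 1 := by omega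
      rw [this]
      push_cast
      ring
    rw [h3]
    have h4 : ((n : ℝ) - 1) / 2 ≤ (((n : ℤ) / 2 : ℤ) : ℝ) := by
      have h5 : (n : ℤ) - 1 ≤ 2 * ((n : ℤ) / 2) := by omega
      have h6 : (((n : ℤ) - 1 : ℤ) : ℝ) ≤ ((2 * ((n : ℤ) / 2) : ℤ) : ℝ) := Int.cast_le.2 h5
      push_cast at h6
      linarith
    have h5 : (n : ℝ) / 8 ≤ (((n : ℤ) / 2 : ℤ) : ℝ) ^ 2 / (n + 1) := by
      rw [le_div_iff₀ (by linarith)]
      have h6 : (((n : ℝ) - 1) / 2) ^ 2 ≤ (((n : ℤ) / 2 : ℤ) : ℝ) ^ 2 :=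
        pow_le_pow_left₀ (by linarith) h4 2
      nlinarith
    have h6 : Real.exp (-(c' * ((((n : ℤ) / 2 : ℤ) : ℝ) ^ 2 / (n + 1)))) ≤
        128 / (c' * n) ^ 2 := by
      have h7 : c' * n / 8 ≤ c' * ((((n : ℤ) / 2 : ℤ) : ℝ) ^ 2 / (n + 1)) := by
        calc c' * n / 8 = c' * (n / 8) := by ring
          _ ≤ _ := mul_le_mul_of_nonneg_left h5 hc'.le
      have h8 : Real.exp (-(c' * ((((n : ℤ) / 2 : ℤ) : ℝ) ^ 2 / (n + 1)))) ≤
          Real.exp (-(c' * n / 8)) := Real.exp_le_exp.2 (by linarith)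
      refine h8.trans ?_
      have h9 : 0 < c' * n / 8 := by positivity
      have h10 := Real.quadratic_le_exp_of_nonneg h9.le
      rw [Real.exp_neg, inv_eq_one_div, div_le_div_iff₀ (Real.exp_pos _) (by positivity)]
      nlinarith
    have h7 : (2 * (n : ℝ) + 1) * (C' * (128 / (c' * n) ^ 2)) ≤ t / 2 := by
      have h8 : (2 * (n : ℝ) + 1) * (C' * (128 / (c' * n) ^ 2)) ≤
          3 * n * (C' * (128 / (c' * n) ^ 2)) := by
        refine mul_le_mul_of_nonneg_right (by linarith) (by positivity)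
      have h9 : 3 * n * (C' * (128 / (c' * n) ^ 2)) = (384 * C' / c' ^ 2) / n := by
        have : (n : ℝ) ≠ 0 := by linarith
        field_simp
        norm_num
      rw [h9] at h8
      refine h8.trans ?_
      rw [div_le_iff₀ (by linarith)]
      have h10 : 768 * C' / (c' ^ 2 * t) ≤ n := hB ▸ hnB
      rw [div_le_iff₀ (by positivity)] at h10
      rw [div_le_iff₀ (by positivity)]
      nlinarith
    refine le_trans ?_ h7
    refine mul_le_mul_of_nonneg_left ?_ (by linarith)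
    exact mul_le_mul_of_nonneg_left h6 hC'.le
  have hor : PJ β J n (fun ω => ¬ Good n r K ω) ≤
      PJ β J n (fun ω => ∃ x : ℤ, (n : ℤ) - r ≤ |x| ∧ Above n x K ω) +
      PJ β J n (fun ω => ∃ x : ℤ, Above n x ((n : ℤ) / 2) ω) := by
    refine PJ_or fun ω hG => ?_
    unfold Good at hG
    rw [not_and_or] at hG
    rcases hG with hG | hG
    · left
      push Not at hG
      exact hG
    · right
      push Not at hG
      exact hG
  linarith

end

end Pool.Agent.Helper49.TT
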