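import Pool.Agent.Helper49.TT.Incr
import Pool.Agent.Helper49.TT.Dyadic

/-!
Block TT-G: modulus of continuity of the interface above the height `C log n`.

Paper proof of `mod_up`. `C₀` from `good_lim`, `C`, `c`, `r` from `incr`, `tail` (take common constants). Let `K₀ n = ⌈C₀ log n⌉ + 2`. `Good n r (K₀ n)` implies `Good n r K` for `K ≥ K₀ n`; let `G = Good n r (K₀ n)`, `P (¬ G) → 0`. Let `ε > 0`, `0 < δ ≤ 1`, `n` large, `J` with `δ n ≤ 2^J ≤ 2 δ n` (`δ n ≥ 1`).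
For `ω` let `F x = K₀ + #{K : K₀ < K ≤ n + 1, Above n x K ω}`: for `K > K₀`: `Above n x K ↔ K ≤ F x` (`Above` is decreasing in `K`, and false for `K > n`; `|x| > n`: `F x = K₀`). If the event holds (`K ≥ K₀`, `¬ Above x K`, `Above x' (K + k)`, `k = ⌈ε √n⌉`) then `F x ≤ K`, `F x' ≥ K + k`, so `F x' - F x ≥ k ≥ ε √n`.
Let `κ = (1 - 2^(-1/4))/4`, `h_j = κ ε √n 2^(-(J - j)/4)` for `j ≤ J`: `2 ∑_{j<J} h_j + h_J < ε √n` (geometric series: `2 κ ∑_{i ≥ 1} 2^(-i/4) + κ < 1`). By `chain` there are `j ≤ J`, `i` with `|F (2^j i + 2^j) - F (2^j i)| > h_j`; let `{u, u'} = {2^j i, 2^j i + 2^j}`, `F u' - F u > h_j`. At least one of them is in `[-n, n]`, so there are at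
most `2 n/2^j + 3` values of `i`. Let `g = ⌊h_j/2⌋ ≥ 1` (`h_j ≥ κ ε √n (2 δ n)^(-1/4)` is large) and `K' = K₀ + g q` (`q ≥ 0`) the first such number with `K' > F u` (or `K' = K₀ + g q ≥ F u + 1`, `q ≥ 0` minimal), so `K' ≤ F u + g` and `¬ Above n u K'`, and `Above n u' (K' + k')` with `k' = ⌈h_j⌉ - g ≥ h_j/2` (`F u' ≥ F u + ⌈h_j⌉ ≥ K' + k'`). (`F` takes integer
values. If `F u = K₀` then `K' = K₀ + g`; in any case `K' ≥ K₀`, `K' > F u` gives `¬ Above n u K'`.) By `incr` and `tail` (geometric mean of the two bounds) the probability of `G` and this event for given `j, i, q` is at most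
`C exp (-(c/2) min (k'²/2^j, k')) exp (-(c/2) (g q)²/(n + 1))`; it is `0` if `K' > n`. Sum over `q`: `∑_q exp (-(c/2) (g q)²/(n+1)) ≤ 1 + C √n/g` (compare with the Gaussian integral, or `e^{-x²} ≤ ...`). Sum over `i` (and the two orders) and `j = J - i'`, `i' ≥ 0`: `2 n/2^j + 3 ≤ (5/δ) 2^{i'}` (`2^J ≥ δ n`, `δ ≤ 1`, `n ≥ 2^j/2`...),
`√n/g ≤ (8/(κ ε)) 2^{i'/4}`, `k'²/2^j ≥ κ² ε² n 2^{-i'/2}/(4 * 2 δ n 2^{-i'}) = κ² ε² 2^{i'/2}/(8 δ)`, `k' ≥ κ ε √n 2^{-i'/4}/2 ≥ (κ ε/4) n^{1/4}` (`2^{i'} ≤ 2^J ≤ 2 n`). So the total is at most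
`∑_{i'} (C/(δ ε)) 2^{2 i'} (exp (-(a 2^{i'/2})) + exp (-(b n^{1/4})))`, `a = c κ² ε²/(16 δ)`, `b = c κ ε/8`, `i' ≤ J ≤ log₂ (2 n)`: the first sum tends to `0` as `δ → 0` (`exp (-(a y)) ≤ C_p (a y)^(-p)` with `p = 6`: `∑ 2^{2i'} 2^{-3 i'} a^{-6}`, `a^{-6}/δ ~ δ^5`), the second is at most
`(C/(δ ε)) 16 n³ exp (-(b n^{1/4})) → 0` as `n → ∞`.
-/

open Finset
open scoped Classical

namespace Pool.Agent.Helper49.TT

open Pool.Agent.Helper49.DL Pool.Agent.Helper49.DX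

private lemma rho_sum38 (m : ℕ) : ∑ j ∈ range m, ((7 : ℝ) / 8) ^ (m - j) = 7 * (1 - (7 / 8) ^ m) := by
  induction m with
  | zero => simp
  | succ m ih =>
    rw [Finset.sum_range_succ']
    have h1 : ∀ j ∈ range m, ((7 : ℝ) / 8) ^ (m + 1 - (j + 1)) = (7 / 8) ^ (m - j) := by
      intro j _
      congr 1
      omega
    rw [Finset.sum_congr rfl h1, ih, Nat.sub_zero, pow_succ]
    ring

private lemma geo_sum38 {a : ℝ} (h0 : 0 ≤ a) (ha : a ≤ 2 / 3) (m : ℕ) :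
    ∑ j ∈ range (m + 1), a ^ (m - j) ≤ 3 * (1 - (2 / 3) ^ (m + 1)) := by
  induction m with
  | zero => simp; norm_num
  | succ m ih =>
    rw [Finset.sum_range_succ']
    have h1 : ∀ j ∈ range (m + 1), a ^ (m + 1 - (j + 1)) = a ^ (m - j) := by
      intro j _
      congr 1
      omega
    rw [Finset.sum_congr rfl h1, Nat.sub_zero]
    have h2 : a ^ (m + 1) ≤ (2 / 3) ^ (m + 1) := pow_le_pow_left₀ h0 ha _
    have h3 : ((2 : ℝ) / 3) ^ (m + 1 + 1) = (2 / 3) ^ (m + 1) * (2 / 3) := pow_succ _ _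
    rw [h3]
    linarith

private lemma gauss_sum38 {a : ℝ} (ha : 0 < a) (N : ℕ) :
    ∑ q ∈ range N, Real.exp (-(a * ((q : ℝ) + 1) ^ 2)) ≤ 2 / Real.sqrt a := by
  set s := Real.sqrt a with hs
  have hs0 : 0 < s := Real.sqrt_pos.2 ha
  have hsa : s ^ 2 = a := Real.sq_sqrt ha.le
  have key : ∑ q ∈ range N, Real.exp (-(a * ((q : ℝ) + 1) ^ 2)) ≤ 2 * (N / (1 + s * N)) := by
    induction N with
    | zero => simp
    | succ N ih =>
      rw [Finset.sum_range_succ]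
      have hN : (0 : ℝ) ≤ N := Nat.cast_nonneg N
      push_cast
      have h1 : 0 < 1 + s * N := by positivity
      have h2 : 0 < 1 + s * (N + 1) := by positivity
      have h3 : Real.exp (-(a * ((N : ℝ) + 1) ^ 2)) ≤ 2 / (1 + s * (N + 1)) ^ 2 := by
        rw [Real.exp_neg, ← one_div, div_le_div_iff₀ (Real.exp_pos _) (by positivity)]
        have h4 := Real.add_one_le_exp (a * ((N : ℝ) + 1) ^ 2)
        have h5 : (1 + s * (N + 1)) ^ 2 ≤ 2 * (1 + s ^ 2 * ((N : ℝ) + 1) ^ 2) := by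
          nlinarith [sq_nonneg (1 - s * ((N : ℝ) + 1))]
        rw [hsa] at h5
        linarith
      have h6 : 2 * ((N : ℝ) / (1 + s * N)) + 2 / (1 + s * (N + 1)) ^ 2 ≤ 2 * (((N : ℝ) + 1) / (1 + s * (N + 1))) := by
        have h7 : ((N : ℝ) + 1) / (1 + s * (N + 1)) - (N : ℝ) / (1 + s * N) =
            1 / ((1 + s * (N + 1)) * (1 + s * N)) := by
          rw [div_sub_div _ _ h2.ne' h1.ne']
          congr 1
          ring
        have h8 : 1 / (1 + s * (N + 1)) ^ 2 ≤ 1 / ((1 + s * (N + 1)) * (1 + s * N)) := by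
          apply one_div_le_one_div_of_le (by positivity)
          rw [sq]
          apply mul_le_mul_of_nonneg_left _ h2.le
          nlinarith
        have h9 : 2 / (1 + s * (N + 1)) ^ 2 = 2 * (1 / (1 + s * ((N : ℝ) + 1)) ^ 2) := by ring
        rw [h9]
        linarith
      linarith
  refine key.trans ?_
  have hN : (0 : ℝ) ≤ N := Nat.cast_nonneg N
  rw [← mul_div_assoc, div_le_div_iff₀ (by positivity) hs0]
  nlinarith

private lemma exp_neg_le38 {x : ℝ} (hx : 0 < x) (p : ℕ) :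
    Real.exp (-x) ≤ (p.factorial : ℝ) / x ^ p := by
  rw [Real.exp_neg, ← one_div, div_le_div_iff₀ (Real.exp_pos _) (by positivity), one_mul]
  have := Real.pow_div_factorial_le_exp x hx.le p
  rw [div_le_iff₀ (by positivity)] at this
  linarith

private lemma two_pow38 {x : ℝ} (hx : 1 ≤ x) : ∃ m : ℕ, x ≤ 2 ^ m ∧ (2 : ℝ) ^ m ≤ 2 * x := by
  obtain ⟨k, h1, h2⟩ := exists_nat_pow_near hx (by norm_num : (1 : ℝ) < 2)
  exact ⟨k + 1, h2.le, by rw [pow_succ]; linarith⟩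

private lemma rho_four38 (m : ℕ) : 1 ≤ (2 : ℝ) ^ m * (((7 : ℝ) / 8) ^ m) ^ 4 := by
  rw [← pow_mul, mul_comm m 4, pow_mul, ← mul_pow]
  apply one_le_pow₀
  norm_num

private lemma ex_max38 {A : ℤ → Prop} {K₀ n : ℤ} (hmono : ∀ K K', K ≤ K' → A K' → A K)
    (hb : ∀ K, K₀ < K → A K → K ≤ n) : ∃ F : ℤ, K₀ ≤ F ∧ ∀ K, K₀ < K → (A K ↔ K ≤ F) := by
  classical
  obtain ⟨F, hF1, hF2⟩ := Int.exists_greatest_of_bdd (P := fun K => K ≤ K₀ ∨ (K₀ < K ∧ A K))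
    ⟨max K₀ n, by
      intro z hz
      rcases hz with hz | ⟨hz, hz2⟩
      · exact hz.trans (le_max_left _ _)
      · exact (hb z hz hz2).trans (le_max_right _ _)⟩ ⟨K₀, Or.inl le_rfl⟩
  refine ⟨F, hF2 K₀ (Or.inl le_rfl), fun K hK => ⟨fun h => hF2 K (Or.inr ⟨hK, h⟩), fun h => ?_⟩⟩
  rcases hF1 with h1 | ⟨h1, h2⟩
  · omega
  · exact hmono K F h h2

private lemma perj38 {C b ε δ : ℝ} (hC : 0 < C) (hb : 0 < b) (hε : 0 < ε) (hδ : 0 < δ) {n m j : ℕ}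
    (hn : 1 ≤ n) (h1 : δ * n ≤ 2 ^ m) (h2 : (2 : ℝ) ^ m ≤ 2 * (δ * n)) (hj : j ≤ m) {g k' N : ℝ}
    (hg : ε / 16 * Real.sqrt n * (7 / 8) ^ (m - j) / 4 ≤ g)
    (hk : ε / 16 * Real.sqrt n * (7 / 8) ^ (m - j) / 2 ≤ k')
    (hN : N ≤ 8 * n / 2 ^ j) :
    N * (C * Real.exp (-(b * min (k' ^ 2 / 2 ^ j) k')) * (2 / Real.sqrt (b * g ^ 2 / (n + 1)))) ≤
      2048 * C / (Real.sqrt b * ε) / δ * (16 / 7) ^ (m - j) *
        (Real.exp (-(b * (ε ^ 2 / (2048 * δ)) * (49 / 32) ^ (m - j))) +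
          Real.exp (-(b * (ε / 32) * (Real.sqrt n * (7 / 8) ^ m)))) := by
  have hn0 : (1 : ℝ) ≤ n := by exact_mod_cast hn
  have hnp : (0 : ℝ) < n := by linarith
  set s := m - j with hs
  have hms : (2 : ℝ) ^ m = 2 ^ j * 2 ^ s := by
    rw [← pow_add]; congr 1; omega
  set ρ : ℝ := (7 / 8) ^ s with hρ
  have hρ0 : 0 < ρ := by positivity
  set w := Real.sqrt n with hw
  have hw0 : 0 < w := Real.sqrt_pos.2 hnp
  have hw2 : w ^ 2 = n := Real.sq_sqrt hnp.le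
  set v := Real.sqrt b with hv
  have hv0 : 0 < v := Real.sqrt_pos.2 hb
  have hv2 : v ^ 2 = b := Real.sq_sqrt hb.le
  have hH0 : 0 < ε / 16 * w * ρ := by positivity
  have hg0 : 0 < g := lt_of_lt_of_le (by positivity) hg
  have hk0 : 0 < k' := lt_of_lt_of_le (by positivity) hk
  have hj0 : (0 : ℝ) < 2 ^ j := by positivity
  have hs0 : (0 : ℝ) < 2 ^ s := by positivity
  -- step 1
  have e1 : v * ε * ρ / 128 ≤ Real.sqrt (b * g ^ 2 / (n + 1)) := by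
    apply Real.le_sqrt_of_sq_le
    rw [le_div_iff₀ (by positivity)]
    have f1 : (ε / 16 * w * ρ / 4) ^ 2 ≤ g ^ 2 := pow_le_pow_left₀ (by positivity) hg 2
    have f2 : (v * ε * ρ / 128) ^ 2 * (n + 1) ≤ (v * ε * ρ / 128) ^ 2 * (2 * n) :=
      mul_le_mul_of_nonneg_left (by linarith) (by positivity)
    refine f2.trans ?_
    calc (v * ε * ρ / 128) ^ 2 * (2 * n) = v ^ 2 * (ε ^ 2 * ρ ^ 2 * n / 8192) := by ring
      _ ≤ b * (ε / 16 * w * ρ / 4) ^ 2 := by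
          rw [hv2]
          apply mul_le_mul_of_nonneg_left _ hb.le
          have : (ε / 16 * w * ρ / 4) ^ 2 = ε ^ 2 * ρ ^ 2 * w ^ 2 / 4096 := by ring
          rw [this, hw2]
          have : 0 ≤ ε ^ 2 * ρ ^ 2 * n := by positivity
          linarith
      _ ≤ b * g ^ 2 := mul_le_mul_of_nonneg_left f1 hb.le
  have e2 : 2 / Real.sqrt (b * g ^ 2 / (n + 1)) ≤ 256 / (v * ε * ρ) := by
    have f0 : 0 < v * ε * ρ / 128 := by positivity
    calc 2 / Real.sqrt (b * g ^ 2 / (n + 1)) ≤ 2 / (v * ε * ρ / 128) :=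
          div_le_div_of_nonneg_left (by norm_num) f0 e1
      _ = 256 / (v * ε * ρ) := by field_simp; norm_num
  -- step 2
  have hA : ε ^ 2 / (2048 * δ) * (49 / 32) ^ s ≤ k' ^ 2 / 2 ^ j := by
    rw [le_div_iff₀ hj0]
    have f1 : (ε / 16 * w * ρ / 2) ^ 2 ≤ k' ^ 2 := pow_le_pow_left₀ (by positivity) hk 2
    refine le_trans ?_ f1
    have f2 : ((49 : ℝ) / 32) ^ s = 2 ^ s * ρ ^ 2 := by
      rw [hρ, ← pow_mul, mul_comm s 2, pow_mul, ← mul_pow]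
      norm_num
    have f3 : (ε / 16 * w * ρ / 2) ^ 2 = ε ^ 2 * ρ ^ 2 * w ^ 2 / 1024 := by ring
    rw [f2, f3, hw2]
    have f4 : ε ^ 2 / (2048 * δ) * (2 ^ s * ρ ^ 2) * 2 ^ j = ε ^ 2 * ρ ^ 2 / (2048 * δ) * 2 ^ m := by
      rw [hms]; ring
    rw [f4]
    calc ε ^ 2 * ρ ^ 2 / (2048 * δ) * 2 ^ m ≤ ε ^ 2 * ρ ^ 2 / (2048 * δ) * (2 * (δ * n)) :=
          mul_le_mul_of_nonneg_left h2 (by positivity)
      _ = ε ^ 2 * ρ ^ 2 * n / 1024 := by field_simp; norm_num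
  have hB : ε / 32 * (w * (7 / 8) ^ m) ≤ k' := by
    refine le_trans ?_ hk
    have f1 : ((7 : ℝ) / 8) ^ m ≤ ρ := pow_le_pow_of_le_one (by norm_num) (by norm_num) (by omega)
    have f2 : ε / 32 * (w * (7 / 8) ^ m) ≤ ε / 32 * (w * ρ) := by gcongr
    linarith
  have e3 : Real.exp (-(b * min (k' ^ 2 / 2 ^ j) k')) ≤
      Real.exp (-(b * (ε ^ 2 / (2048 * δ)) * (49 / 32) ^ s)) +
          Real.exp (-(b * (ε / 32) * (w * (7 / 8) ^ m))) := by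
    rcases le_total (k' ^ 2 / 2 ^ j) k' with h | h
    · rw [min_eq_left h]
      refine le_trans (Real.exp_le_exp.2 ?_) (le_add_of_nonneg_right (Real.exp_pos _).le)
      rw [neg_le_neg_iff, mul_assoc]
      exact mul_le_mul_of_nonneg_left hA hb.le
    · rw [min_eq_right h]
      refine le_trans (Real.exp_le_exp.2 ?_) (le_add_of_nonneg_left (Real.exp_pos _).le)
      rw [neg_le_neg_iff, mul_assoc]
      exact mul_le_mul_of_nonneg_left hB hb.le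
  -- step 3
  have e4 : N ≤ 8 * 2 ^ s / δ := by
    refine hN.trans ?_
    rw [div_le_div_iff₀ hj0 hδ]
    have : 8 * (2 : ℝ) ^ s * 2 ^ j = 8 * 2 ^ m := by rw [hms]; ring
    rw [this]
    nlinarith
  set X := Real.exp (-(b * (ε ^ 2 / (2048 * δ)) * (49 / 32) ^ s)) +
          Real.exp (-(b * (ε / 32) * (w * (7 / 8) ^ m))) with hX
  have hX0 : 0 < X := by positivity
  calc N * (C * Real.exp (-(b * min (k' ^ 2 / 2 ^ j) k')) * (2 / Real.sqrt (b * g ^ 2 / (n + 1))))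
      ≤ (8 * 2 ^ s / δ) * (C * X * (256 / (v * ε * ρ))) := by
        apply mul_le_mul e4 _ (by positivity) (by positivity)
        apply mul_le_mul _ e2 (by positivity) (by positivity)
        exact mul_le_mul_of_nonneg_left e3 hC.le
    _ = 2048 * C / (v * ε) / δ * (16 / 7) ^ s * X := by
        have f1 : ((16 : ℝ) / 7) ^ s = 2 ^ s / ρ := by
          rw [hρ, ← div_pow]
          norm_num
        rw [f1]
        field_simp
        norm_num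

private lemma total38 {M b ε δ t : ℝ} (hM : 0 < M) (hb : 0 < b) (hε : 0 < ε) (hδ : 0 < δ) (hδ1 : δ ≤ 1)
    (ht : 0 < t) (hδt : M * 18 * (2048 / (b * ε ^ 2)) ^ 3 * δ ≤ t / 4) :
    ∃ n₀ : ℕ, ∀ n : ℕ, n₀ ≤ n → ∀ m : ℕ, δ * n ≤ 2 ^ m → (2 : ℝ) ^ m ≤ 2 * (δ * n) →
      ∑ j ∈ range (m + 1), M / δ * (16 / 7) ^ (m - j) *
        (Real.exp (-(b * (ε ^ 2 / (2048 * δ)) * (49 / 32) ^ (m - j))) +
          Real.exp (-(b * (ε / 32) * (Real.sqrt n * (7 / 8) ^ m)))) ≤ t / 2 := by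
  set D : ℝ := M / δ * 256 * ((20).factorial : ℝ) / (b * (ε / 32)) ^ 20 with hD
  have hD0 : 0 < D := by positivity
  refine ⟨⌈4 * D / t⌉₊ + 1, fun n hn m h1 h2 => ?_⟩
  have hn1 : 1 ≤ n := by omega
  have hn0 : (1 : ℝ) ≤ n := by exact_mod_cast hn1
  have hnp : (0 : ℝ) < n := by linarith
  have hnD : 4 * D / t ≤ n := by
    have := Nat.le_ceil (4 * D / t)
    have h3 : ((⌈4 * D / t⌉₊ : ℕ) : ℝ) ≤ n := by exact_mod_cast (by omega : ⌈4 * D / t⌉₊ ≤ n)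
    linarith
  have h2n : (2 : ℝ) ^ m ≤ 2 * n := by nlinarith
  simp only [mul_add]
  rw [Finset.sum_add_distrib]
  have hMδ : 0 < M / δ := by positivity
  -- first sum
  have p1 : ∑ j ∈ range (m + 1), M / δ * (16 / 7) ^ (m - j) *
        Real.exp (-(b * (ε ^ 2 / (2048 * δ)) * (49 / 32) ^ (m - j))) ≤ t / 4 := by
    set a := b * (ε ^ 2 / (2048 * δ)) with ha
    have ha0 : 0 < a := by positivity
    set r : ℝ := 16 / 7 / (49 / 32) ^ 3 with hr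
    have hr0 : 0 ≤ r := by positivity
    have hr1 : r ≤ 2 / 3 := by rw [hr]; norm_num
    have q1 : ∀ j ∈ range (m + 1), M / δ * (16 / 7) ^ (m - j) *
        Real.exp (-(a * (49 / 32) ^ (m - j))) ≤ M / δ * (6 / a ^ 3) * r ^ (m - j) := by
      intro j _
      set s := m - j
      have f1 := exp_neg_le38 (x := a * (49 / 32) ^ s) (by positivity) 3
      have f2 : ((3 : ℕ).factorial : ℝ) / (a * (49 / 32) ^ s) ^ 3 = 6 / a ^ 3 / ((49 / 32) ^ 3) ^ s := by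
        rw [mul_pow, ← pow_mul, mul_comm s 3, pow_mul, div_div]
        norm_num [Nat.factorial]
      rw [f2] at f1
      calc M / δ * (16 / 7) ^ s * Real.exp (-(a * (49 / 32) ^ s))
          ≤ M / δ * (16 / 7) ^ s * (6 / a ^ 3 / ((49 / 32) ^ 3) ^ s) :=
            mul_le_mul_of_nonneg_left f1 (by positivity)
        _ = M / δ * (6 / a ^ 3) * r ^ s := by
            rw [hr, div_pow (16 / 7 : ℝ)]
            ring
    refine (Finset.sum_le_sum q1).trans ?_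
    rw [← Finset.mul_sum]
    have q2 := geo_sum38 hr0 hr1 m
    have q3 : ∑ j ∈ range (m + 1), r ^ (m - j) ≤ 3 := by
      refine q2.trans ?_
      have h0 : (0 : ℝ) ≤ (2 / 3) ^ (m + 1) := pow_nonneg (by norm_num) _
      generalize ((2 : ℝ) / 3) ^ (m + 1) = z at h0 ⊢
      linarith
    calc M / δ * (6 / a ^ 3) * ∑ j ∈ range (m + 1), r ^ (m - j)
        ≤ M / δ * (6 / a ^ 3) * 3 := mul_le_mul_of_nonneg_left q3 (by positivity)
      _ = M * 18 * (2048 / (b * ε ^ 2)) ^ 3 * δ ^ 2 := by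
          rw [ha]
          field_simp
          ring
      _ ≤ M * 18 * (2048 / (b * ε ^ 2)) ^ 3 * δ := by
          apply mul_le_mul_of_nonneg_left _ (by positivity)
          nlinarith
      _ ≤ t / 4 := hδt
  -- second sum
  have p2 : ∑ j ∈ range (m + 1), M / δ * (16 / 7) ^ (m - j) *
        Real.exp (-(b * (ε / 32) * (Real.sqrt n * (7 / 8) ^ m))) ≤ t / 4 := by
    set y := Real.sqrt n * (7 / 8) ^ m with hy
    have hy0 : 0 < y := mul_pos (Real.sqrt_pos.2 hnp) (by positivity)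
    have hy4 : (n : ℝ) / 2 ≤ y ^ 4 := by
      have f1 := rho_four38 m
      have f2 : y ^ 4 = n ^ 2 * ((7 / 8) ^ m) ^ 4 := by
        rw [hy, mul_pow]
        congr 1
        have f3 : Real.sqrt (n : ℝ) ^ 4 = (Real.sqrt (n : ℝ) ^ 2) ^ 2 := by ring
        rw [f3, Real.sq_sqrt hnp.le]
      rw [f2]
      have f3 : (1 : ℝ) ≤ 2 * n * ((7 / 8) ^ m) ^ 4 := f1.trans (by gcongr)
      nlinarith
    have f1 := exp_neg_le38 (x := b * (ε / 32) * y) (by positivity) 20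
    have f2 : (b * (ε / 32) * y) ^ 20 = (b * (ε / 32)) ^ 20 * (y ^ 4) ^ 5 := by ring
    have f3 : Real.exp (-(b * (ε / 32) * y)) ≤
        ((20).factorial : ℝ) / ((b * (ε / 32)) ^ 20 * (n / 2) ^ 5) := by
      refine f1.trans ?_
      rw [f2]
      apply div_le_div_of_nonneg_left (by positivity) (by positivity)
      gcongr
    have q1 : ∀ j ∈ range (m + 1), M / δ * (16 / 7) ^ (m - j) * Real.exp (-(b * (ε / 32) * y)) ≤
        M / δ * (2 * n) ^ 2 * (((20).factorial : ℝ) / ((b * (ε / 32)) ^ 20 * (n / 2) ^ 5)) := by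
      intro j _
      have g1 : ((16 : ℝ) / 7) ^ (m - j) ≤ (2 * n) ^ 2 := by
        calc ((16 : ℝ) / 7) ^ (m - j) ≤ (16 / 7) ^ m := pow_le_pow_right₀ (by norm_num) (by omega)
          _ ≤ (2 ^ 2) ^ m := pow_le_pow_left₀ (by norm_num) (by norm_num) _
          _ = (2 ^ m) ^ 2 := by rw [← pow_mul, ← pow_mul, mul_comm]
          _ ≤ (2 * n) ^ 2 := pow_le_pow_left₀ (by positivity) h2n 2
      apply mul_le_mul _ f3 (Real.exp_pos _).le (by positivity)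
      exact mul_le_mul_of_nonneg_left g1 (by positivity)
    refine (Finset.sum_le_sum q1).trans ?_
    rw [Finset.sum_const, Finset.card_range, nsmul_eq_mul]
    have g2 : ((m + 1 : ℕ) : ℝ) ≤ 2 * n := by
      have : m + 1 ≤ 2 ^ m := Nat.lt_two_pow_self
      calc ((m + 1 : ℕ) : ℝ) ≤ ((2 ^ m : ℕ) : ℝ) := by exact_mod_cast this
        _ = 2 ^ m := by push_cast; rfl
        _ ≤ 2 * n := h2n
    calc ((m + 1 : ℕ) : ℝ) * (M / δ * (2 * n) ^ 2 * (((20).factorial : ℝ) / ((b * (ε / 32)) ^ 20 * (n / 2) ^ 5)))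
        ≤ (2 * n) * (M / δ * (2 * n) ^ 2 * (((20).factorial : ℝ) / ((b * (ε / 32)) ^ 20 * (n / 2) ^ 5))) :=
          mul_le_mul_of_nonneg_right g2 (by positivity)
      _ = D / n ^ 2 := by
          rw [hD]
          field_simp
          norm_num
      _ ≤ D / n := by
          apply div_le_div_of_nonneg_left hD0.le hnp
          nlinarith
      _ ≤ t / 4 := by
          rw [div_le_iff₀ ht] at hnD
          rw [div_le_iff₀ hnp]
          linarith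
  linarith

private lemma above_range38 {N x K : ℤ} {ω : Cfg} (hω : ω ∈ confs (box N N) (eta 0)) (hK : 1 ≤ K)
    (h : Above N x K ω) : |x| ≤ N ∧ K ≤ N := by
  obtain ⟨y, hy, hi⟩ := h
  have hb := hi.1
  rw [mem_confs] at hω
  by_cases h1 : (x, y) ∈ box N N
  · rw [mem_box] at h1
    simp only at h1
    rw [abs_le]
    omega
  by_cases h2 : bend ((x, y), false) ∈ box N N
  · rw [mem_box] at h2
    simp only [bend, e2, Bool.false_eq_true, if_false, Prod.mk_add_mk, add_zero] at h2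
    rw [abs_le]
    omega
  exfalso
  apply hb
  rw [hω _ h1, hω _ h2]
  simp only [bend, e2, Bool.false_eq_true, if_false, Prod.mk_add_mk, eta, decide_eq_decide]
  omega

private lemma PJ_union38 {β J : ℝ} {n : ℤ} {ι : Type*} {S : Finset ι} {E : Cfg → Prop}
    {F : ι → Cfg → Prop} (h : ∀ ω ∈ confs (box n n) (eta 0), E ω → ∃ i ∈ S, F i ω) :
    PJ β J n E ≤ ∑ i ∈ S, PJ β J n (F i) := by
  unfold PJ
  rw [← avg_sum]
  refine avg_mono fun ω hω => ?_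
  have hnn : ∀ i ∈ S, (0 : ℝ) ≤ if F i ω then 1 else 0 := by
    intro i _
    split_ifs
    · exact zero_le_one
    · exact le_rfl
  by_cases hE : E ω
  · obtain ⟨i, hi, hF⟩ := h ω hω hE
    rw [if_pos hE]
    exact le_trans (le_of_eq (if_pos hF).symm)
      (Finset.single_le_sum (f := fun i => if F i ω then (1 : ℝ) else 0) hnn hi)
  · rw [if_neg hE]
    exact Finset.sum_nonneg hnn

private lemma PJ_or38 {β J : ℝ} {n : ℤ} {E F G : Cfg → Prop}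
    (h : ∀ ω ∈ confs (box n n) (eta 0), E ω → F ω ∨ G ω) :
    PJ β J n E ≤ PJ β J n F + PJ β J n G := by
  unfold PJ
  rw [← avg_add]
  refine avg_mono fun ω hω => ?_
  by_cases hE : E ω
  · rw [if_pos hE]
    rcases h ω hω hE with h1 | h1
    · rw [if_pos h1]
      split_ifs <;> norm_num
    · rw [if_pos h1]
      split_ifs <;> norm_num
  · rw [if_neg hE]
    split_ifs <;> norm_num

private lemma comb38 {P C b X Y : ℝ} (hC : 0 ≤ C) (hb : 0 ≤ b) (h1 : P ≤ C * Real.exp (-(2 * b * X)))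
    (h2 : P ≤ C * Real.exp (-(2 * b * Y))) : P ≤ C * Real.exp (-(b * X)) * Real.exp (-(b * Y)) := by
  rw [mul_assoc, ← Real.exp_add]
  rcases le_total X Y with h | h
  · refine h2.trans (mul_le_mul_of_nonneg_left (Real.exp_le_exp.2 ?_) hC)
    nlinarith
  · refine h1.trans (mul_le_mul_of_nonneg_left (Real.exp_le_exp.2 ?_) hC)
    nlinarith

private theorem det38 {n : ℕ} {K₀ : ℤ} (hK₀ : 1 ≤ K₀) {ω : Cfg} (hω : ω ∈ confs (box n n) (eta 0))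
    {h : ℕ → ℝ} {m : ℕ} (h0 : ∀ j, 0 ≤ h j) (hh : ∀ j ≤ m, 4 ≤ h j) {B : ℝ}
    (hsum : 2 * ∑ j ∈ range m, h j + h m < B) {x x' K k : ℤ} (hx : |x - x'| ≤ 2 ^ m)
    (hK : K₀ < K) (hk : B ≤ k) (hk0 : 0 ≤ k) (h1 : ¬ Above n x K ω) (h2 : Above n x' (K + k) ω) :
    ∃ j ∈ range (m + 1), ∃ i ∈ Finset.Icc (-((n : ℤ) / 2 ^ j)) ((n : ℤ) / 2 ^ j),
      ∃ s ∈ ({1, -1} : Finset ℤ), ∃ q ∈ range n,
        ¬ Above n (2 ^ j * i + s * 2 ^ j) (K₀ + ⌊h j / 2⌋ * ((q : ℤ) + 1)) ω ∧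
        Above n (2 ^ j * i) (K₀ + ⌊h j / 2⌋ * ((q : ℤ) + 1) + (⌊h j⌋ + 1 - ⌊h j / 2⌋)) ω := by
  have hF : ∀ x : ℤ, ∃ F : ℤ, K₀ ≤ F ∧ ∀ K, K₀ < K → (Above n x K ω ↔ K ≤ F) := fun x =>
    ex_max38 (A := fun K => Above n x K ω) (n := n) (fun K K' h hA => above_mono h hA)
      (fun K hK hA => (above_range38 hω (by omega) hA).2)
  choose F hF1 hF2 using hF
  have e1 : F x < K := by
    by_contra hc
    exact h1 ((hF2 x K hK).2 (by omega))
  have e2 : K + k ≤ F x' := (hF2 x' (K + k) (by omega)).1 h2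
  by_contra hcon
  push Not at hcon
  have e3 : ∀ j ≤ m, ∀ i : ℤ, |(F (2 ^ j * i + 2 ^ j) : ℝ) - F (2 ^ j * i)| ≤ h j := by
    intro j hj i
    have claim : ∀ i' s : ℤ, s ∈ ({1, -1} : Finset ℤ) →
        (F (2 ^ j * i') : ℝ) - F (2 ^ j * i' + s * 2 ^ j) ≤ h j := by
      intro i' s hs
      by_contra hgt
      rw [not_le] at hgt
      have hj4 := hh j hj
      set g := ⌊h j / 2⌋ with hg
      have hg1 : 1 ≤ g := by
        rw [hg, Int.le_floor]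
        push_cast
        linarith
      have hgf : g ≤ ⌊h j⌋ := Int.floor_le_floor (by linarith)
      have f1 : ⌊h j⌋ < F (2 ^ j * i') - F (2 ^ j * i' + s * 2 ^ j) := by
        rw [Int.floor_lt]
        push_cast
        exact hgt
      set u' := 2 ^ j * i' with hu'
      set u := u' + s * 2 ^ j with hu
      set q := (F u - K₀) / g with hq
      have hq0 : 0 ≤ q := Int.ediv_nonneg (by have := hF1 u; omega) (by omega)
      have d1 := Int.emod_add_mul_ediv (F u - K₀) g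
      have d2 := Int.emod_nonneg (F u - K₀) (by omega : g ≠ 0)
      have d3 := Int.emod_lt_of_pos (F u - K₀) (by omega : 0 < g)
      rw [← hq] at d1
      have d4 : g * (q + 1) = g * q + g := by ring
      have d5 : 0 ≤ g * q := mul_nonneg (by omega) hq0
      have g1 : K₀ + g * (q + 1) + (⌊h j⌋ + 1 - g) ≤ F u' := by rw [d4]; omega
      have g2 : Above n u' (K₀ + g * (q + 1) + (⌊h j⌋ + 1 - g)) ω :=
        (hF2 u' _ (by rw [d4]; omega)).2 g1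
      have g3 : ¬ Above n u (K₀ + g * (q + 1)) ω := by
        intro hA
        have := (hF2 u _ (by rw [d4]; omega)).1 hA
        rw [d4] at this
        omega
      obtain ⟨g4, g5⟩ := above_range38 hω (by rw [d4]; omega) g2
      have hqn : q.toNat < n := by
        have : q + 1 ≤ g * (q + 1) := by nlinarith
        omega
      have hi' : i' ∈ Finset.Icc (-((n : ℤ) / 2 ^ j)) ((n : ℤ) / 2 ^ j) := by
        have hp : (0 : ℤ) < 2 ^ j := by positivity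
        rw [abs_le] at g4
        have k1 : i' ≤ (n : ℤ) / 2 ^ j := by
          rw [Int.le_ediv_iff_mul_le hp]
          linarith [g4.2, mul_comm i' (2 ^ j)]
        have k2 : -i' ≤ (n : ℤ) / 2 ^ j := by
          rw [Int.le_ediv_iff_mul_le hp]
          linarith [g4.1, mul_comm i' (2 ^ j), neg_mul i' (2 ^ j)]
        rw [Finset.mem_Icc]
        constructor <;> linarith
      have hqc : ((q.toNat : ℕ) : ℤ) = q := Int.toNat_of_nonneg hq0
      refine hcon j (Finset.mem_range.2 (by omega)) i' hi' s hs q.toNat (Finset.mem_range.2 hqn) ?_ ?_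
      · rw [hqc]; exact g3
      · rw [hqc]; exact g2
    rw [abs_le]
    have c1 := claim i 1 (by simp)
    have c2 := claim (i + 1) (-1) (by simp)
    have k1 : (2 : ℤ) ^ j * i + 1 * 2 ^ j = 2 ^ j * i + 2 ^ j := by ring
    have k2 : (2 : ℤ) ^ j * (i + 1) = 2 ^ j * i + 2 ^ j := by ring
    have k3 : (2 : ℤ) ^ j * i + 2 ^ j + -1 * 2 ^ j = 2 ^ j * i := by ring
    rw [k1] at c1
    rw [k2, k3] at c2
    constructor <;> linarith
  have e4 := chain (f := fun x => (F x : ℝ)) h0 e3 hx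
  have e5 : (k : ℝ) < F x' - F x := by
    have : k < F x' - F x := by omega
    have h6 : (k : ℝ) < ((F x' - F x : ℤ) : ℝ) := by exact_mod_cast this
    push_cast at h6
    exact h6
  have e6 := neg_abs_le ((F x : ℝ) - F x')
  linarith

private theorem one38 {β J : ℝ} {n r : ℕ} {K₀ : ℤ} (hK₀ : 2 ≤ K₀) {C c₁ c₂ C₁ C₂ b : ℝ}
    (hC₁ : 0 < C₁) (hC1 : C₁ ≤ C) (hC2 : C₂ ≤ C) (hb : 0 < b) (hb1 : 2 * b ≤ c₁) (hb2 : 2 * b ≤ c₂)
    (hincr : ∀ u u' K k : ℤ, u ≠ u' → 2 ≤ K → 1 ≤ k →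
      PJ β J n (fun ω => Good n r K ω ∧ ¬ Above n u K ω ∧ Above n u' (K + k) ω) ≤
        C₁ * Real.exp (-(c₁ * min ((k : ℝ) ^ 2 / |(u : ℝ) - u'|) (k : ℝ))))
    (htail : ∀ u K : ℤ, 1 ≤ K →
      PJ β J n (Above n u K) ≤ C₂ * Real.exp (-(c₂ * ((K : ℝ) ^ 2 / (n + 1)))))
    (j : ℕ) (i s : ℤ) (hs : s ∈ ({1, -1} : Finset ℤ)) (q : ℕ) {g k' : ℤ} (hg : 1 ≤ g) (hk' : 1 ≤ k') :
    PJ β J n (fun ω => Good n r K₀ ω ∧ ¬ Above n (2 ^ j * i + s * 2 ^ j) (K₀ + g * ((q : ℤ) + 1)) ω ∧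
        Above n (2 ^ j * i) (K₀ + g * ((q : ℤ) + 1) + k') ω) ≤
      C * Real.exp (-(b * min ((k' : ℝ) ^ 2 / 2 ^ j) (k' : ℝ))) *
        Real.exp (-(b * (g : ℝ) ^ 2 / (n + 1) * ((q : ℝ) + 1) ^ 2)) := by
  have hgq : 1 ≤ g * ((q : ℤ) + 1) := by nlinarith
  have hp : (0 : ℤ) < 2 ^ j := by positivity
  have hpr : (0 : ℝ) < 2 ^ j := by positivity
  have hn1 : (0 : ℝ) < (n : ℝ) + 1 := by positivity
  have hk'r : (1 : ℝ) ≤ k' := by exact_mod_cast hk'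
  have hs' : s = 1 ∨ s = -1 := by simpa using hs
  have hsabs : |(((2 ^ j * i + s * 2 ^ j : ℤ) : ℝ)) - ((2 ^ j * i : ℤ) : ℝ)| = 2 ^ j := by
    push_cast
    rcases hs' with rfl | rfl
    · rw [show (2 : ℝ) ^ j * i + ((1 : ℤ) : ℝ) * 2 ^ j - 2 ^ j * i = 2 ^ j by push_cast; ring]
      exact abs_of_pos hpr
    · rw [show (2 : ℝ) ^ j * i + ((-1 : ℤ) : ℝ) * 2 ^ j - 2 ^ j * i = -2 ^ j by push_cast; ring]
      rw [abs_neg]
      exact abs_of_pos hpr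
  have hne : 2 ^ j * i + s * 2 ^ j ≠ 2 ^ j * i := by
    rcases hs' with rfl | rfl
    · intro h; linarith
    · intro h; linarith
  have h1 := hincr (2 ^ j * i + s * 2 ^ j) (2 ^ j * i) (K₀ + g * ((q : ℤ) + 1)) k' hne
    (by linarith) hk'
  rw [hsabs] at h1
  have h2 := htail (2 ^ j * i) (K₀ + g * ((q : ℤ) + 1) + k') (by linarith)
  have m1 : PJ β J n (fun ω => Good n r K₀ ω ∧ ¬ Above n (2 ^ j * i + s * 2 ^ j) (K₀ + g * ((q : ℤ) + 1)) ω ∧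
        Above n (2 ^ j * i) (K₀ + g * ((q : ℤ) + 1) + k') ω) ≤ PJ β J n (fun ω =>
          Good n r (K₀ + g * ((q : ℤ) + 1)) ω ∧ ¬ Above n (2 ^ j * i + s * 2 ^ j) (K₀ + g * ((q : ℤ) + 1)) ω ∧
        Above n (2 ^ j * i) (K₀ + g * ((q : ℤ) + 1) + k') ω) := by
    refine PJ_mono fun ω hω => ⟨⟨fun x hx hA => hω.1.1 x hx (above_mono (by linarith) hA), hω.1.2⟩, hω.2⟩
  have m2 : PJ β J n (fun ω => Good n r K₀ ω ∧ ¬ Above n (2 ^ j * i + s * 2 ^ j) (K₀ + g * ((q : ℤ) + 1)) ω ∧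
        Above n (2 ^ j * i) (K₀ + g * ((q : ℤ) + 1) + k') ω) ≤
      PJ β J n (Above n (2 ^ j * i) (K₀ + g * ((q : ℤ) + 1) + k')) := PJ_mono fun ω hω => hω.2.2
  have hC0 : 0 ≤ C := hC₁.le.trans hC1
  have key := comb38 (P := PJ β J n (fun ω => Good n r K₀ ω ∧
        ¬ Above n (2 ^ j * i + s * 2 ^ j) (K₀ + g * ((q : ℤ) + 1)) ω ∧
        Above n (2 ^ j * i) (K₀ + g * ((q : ℤ) + 1) + k') ω)) (C := C) (b := b)
      (X := min ((k' : ℝ) ^ 2 / 2 ^ j) (k' : ℝ)) (Y := (g : ℝ) ^ 2 / (n + 1) * ((q : ℝ) + 1) ^ 2) hC0 hb.le ?_ ?_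
  · refine key.trans (le_of_eq ?_)
    congr 3
    ring
  · refine (m1.trans h1).trans ?_
    apply mul_le_mul hC1 _ (Real.exp_pos _).le hC0
    apply Real.exp_le_exp.2
    rw [neg_le_neg_iff]
    apply mul_le_mul_of_nonneg_right hb1
    exact le_min (by positivity) (by linarith)
  · refine (m2.trans h2).trans ?_
    apply mul_le_mul hC2 _ (Real.exp_pos _).le hC0
    apply Real.exp_le_exp.2
    rw [neg_le_neg_iff]
    have f1 : (g : ℝ) ^ 2 / (n + 1) * ((q : ℝ) + 1) ^ 2 ≤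
        (((K₀ + g * ((q : ℤ) + 1) + k' : ℤ) : ℝ)) ^ 2 / (n + 1) := by
      rw [div_mul_eq_mul_div, ← mul_pow]
      apply div_le_div_of_nonneg_right _ hn1.le
      apply pow_le_pow_left₀
      · have : (0 : ℝ) ≤ g := by exact_mod_cast (by linarith : 0 ≤ g)
        positivity
      · push_cast
        have : (0 : ℝ) ≤ K₀ := by exact_mod_cast (by linarith : (0 : ℤ) ≤ K₀)
        linarith
    exact mul_le_mul hb2 f1 (by positivity) (by linarith)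

private theorem level38 {β J : ℝ} {n r : ℕ} (hn : 1 ≤ n) {K₀ : ℤ} (hK₀ : 2 ≤ K₀) {C c₁ c₂ C₁ C₂ b : ℝ}
    (hC₁ : 0 < C₁) (hC1 : C₁ ≤ C) (hC2 : C₂ ≤ C) (hb : 0 < b) (hb1 : 2 * b ≤ c₁) (hb2 : 2 * b ≤ c₂)
    (hincr : ∀ u u' K k : ℤ, u ≠ u' → 2 ≤ K → 1 ≤ k →
      PJ β J n (fun ω => Good n r K ω ∧ ¬ Above n u K ω ∧ Above n u' (K + k) ω) ≤
        C₁ * Real.exp (-(c₁ * min ((k : ℝ) ^ 2 / |(u : ℝ) - u'|) (k : ℝ))))
    (htail : ∀ u K : ℤ, 1 ≤ K →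
      PJ β J n (Above n u K) ≤ C₂ * Real.exp (-(c₂ * ((K : ℝ) ^ 2 / (n + 1)))))
    {ε δ : ℝ} (hε : 0 < ε) (hδ : 0 < δ) (hδ1 : δ ≤ 1) {m : ℕ}
    (h1 : δ * n ≤ 2 ^ m) (h2 : (2 : ℝ) ^ m ≤ 2 * (δ * n)) {j : ℕ} (hj : j ≤ m) {H : ℝ}
    (hH : H = ε / 16 * Real.sqrt n * (7 / 8) ^ (m - j)) (hH4 : 4 ≤ H) :
    PJ β J n (fun ω => ∃ i ∈ Finset.Icc (-((n : ℤ) / 2 ^ j)) ((n : ℤ) / 2 ^ j),
      ∃ s ∈ ({1, -1} : Finset ℤ), ∃ q ∈ range n,
        Good n r K₀ ω ∧ ¬ Above n (2 ^ j * i + s * 2 ^ j) (K₀ + ⌊H / 2⌋ * ((q : ℤ) + 1)) ω ∧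
        Above n (2 ^ j * i) (K₀ + ⌊H / 2⌋ * ((q : ℤ) + 1) + (⌊H⌋ + 1 - ⌊H / 2⌋)) ω) ≤
      2048 * C / (Real.sqrt b * ε) / δ * (16 / 7) ^ (m - j) *
        (Real.exp (-(b * (ε ^ 2 / (2048 * δ)) * (49 / 32) ^ (m - j))) +
          Real.exp (-(b * (ε / 32) * (Real.sqrt n * (7 / 8) ^ m)))) := by
  set g := ⌊H / 2⌋ with hg
  have hg1 : 1 ≤ g := by
    rw [hg, Int.le_floor]
    push_cast
    linarith
  have hgf : g ≤ ⌊H⌋ := Int.floor_le_floor (by linarith)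
  have hgr : H / 4 ≤ g := by
    have := Int.lt_floor_add_one (H / 2)
    rw [← hg] at this
    linarith
  have hkr : H / 2 ≤ ((⌊H⌋ + 1 - g : ℤ) : ℝ) := by
    have k1 := Int.lt_floor_add_one H
    have k2 := Int.floor_le (H / 2)
    rw [← hg] at k2
    push_cast
    linarith
  have hn0 : (1 : ℝ) ≤ n := by exact_mod_cast hn
  have hC : 0 < C := hC₁.trans_le hC1
  have hjp : (0 : ℝ) < 2 ^ j := by positivity
  set k' : ℤ := ⌊H⌋ + 1 - g with hk'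
  have hk1 : 1 ≤ k' := by omega
  set X := C * Real.exp (-(b * min ((k' : ℝ) ^ 2 / 2 ^ j) (k' : ℝ))) with hX
  have hX0 : 0 < X := by positivity
  have hgp : (0 : ℝ) < g := by exact_mod_cast (by omega : 0 < g)
  set Y := 2 / Real.sqrt (b * (g : ℝ) ^ 2 / (n + 1)) with hY
  have hY0 : 0 < Y := by positivity
  have s1 : ∀ i s : ℤ, s ∈ ({1, -1} : Finset ℤ) → PJ β J n (fun ω => ∃ q ∈ range n,
        Good n r K₀ ω ∧ ¬ Above n (2 ^ j * i + s * 2 ^ j) (K₀ + g * ((q : ℤ) + 1)) ω ∧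
        Above n (2 ^ j * i) (K₀ + g * ((q : ℤ) + 1) + k') ω) ≤ X * Y := by
    intro i s hs
    refine (PJ_union38 (F := fun (q : ℕ) ω => Good n r K₀ ω ∧
      ¬ Above n (2 ^ j * i + s * 2 ^ j) (K₀ + g * ((q : ℤ) + 1)) ω ∧
        Above n (2 ^ j * i) (K₀ + g * ((q : ℤ) + 1) + k') ω) (fun ω _ h => h)).trans ?_
    refine (Finset.sum_le_sum fun q _ => one38 hK₀ hC₁ hC1 hC2 hb hb1 hb2 hincr htail j i s hs q hg1 hk1).trans ?_
    rw [← Finset.mul_sum]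
    exact mul_le_mul_of_nonneg_left (gauss_sum38 (by positivity) n) hX0.le
  have s2 : ∀ i : ℤ, PJ β J n (fun ω => ∃ s ∈ ({1, -1} : Finset ℤ), ∃ q ∈ range n,
        Good n r K₀ ω ∧ ¬ Above n (2 ^ j * i + s * 2 ^ j) (K₀ + g * ((q : ℤ) + 1)) ω ∧
        Above n (2 ^ j * i) (K₀ + g * ((q : ℤ) + 1) + k') ω) ≤ 2 * (X * Y) := by
    intro i
    refine (PJ_union38 (F := fun (s : ℤ) ω => ∃ q ∈ range n, Good n r K₀ ω ∧
      ¬ Above n (2 ^ j * i + s * 2 ^ j) (K₀ + g * ((q : ℤ) + 1)) ω ∧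
        Above n (2 ^ j * i) (K₀ + g * ((q : ℤ) + 1) + k') ω) (fun ω _ h => h)).trans ?_
    refine (Finset.sum_le_sum fun s hs => s1 i s hs).trans (le_of_eq ?_)
    rw [Finset.sum_const, nsmul_eq_mul, Finset.card_pair (by norm_num)]
    push_cast
    ring
  refine (PJ_union38 (F := fun (i : ℤ) ω => ∃ s ∈ ({1, -1} : Finset ℤ), ∃ q ∈ range n, Good n r K₀ ω ∧
      ¬ Above n (2 ^ j * i + s * 2 ^ j) (K₀ + g * ((q : ℤ) + 1)) ω ∧
        Above n (2 ^ j * i) (K₀ + g * ((q : ℤ) + 1) + k') ω) (fun ω _ h => h)).trans ?_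
  refine (Finset.sum_le_sum fun i _ => s2 i).trans ?_
  rw [Finset.sum_const, nsmul_eq_mul]
  set N : ℝ := ((Finset.Icc (-((n : ℤ) / 2 ^ j)) ((n : ℤ) / 2 ^ j)).card : ℝ) * 2 with hN
  have hNle : N ≤ 8 * n / 2 ^ j := by
    have hc : ((Finset.Icc (-((n : ℤ) / 2 ^ j)) ((n : ℤ) / 2 ^ j)).card : ℤ) = 2 * ((n : ℤ) / 2 ^ j) + 1 := by
      rw [Int.card_Icc]
      have : 0 ≤ (n : ℤ) / 2 ^ j := Int.ediv_nonneg (by positivity) (by positivity)
      omega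
    have hc2 : ((Finset.Icc (-((n : ℤ) / 2 ^ j)) ((n : ℤ) / 2 ^ j)).card : ℝ) = 2 * (((n : ℤ) / 2 ^ j : ℤ) : ℝ) + 1 := by
      exact_mod_cast hc
    have hc3 : (((n : ℤ) / 2 ^ j : ℤ) : ℝ) ≤ n / 2 ^ j := by
      rw [le_div_iff₀ hjp]
      have := Int.ediv_mul_le (n : ℤ) (by positivity : (2 : ℤ) ^ j ≠ 0)
      exact_mod_cast this
    have hc4 : (1 : ℝ) ≤ 2 * (n / 2 ^ j) := by
      rw [← mul_div_assoc, le_div_iff₀ hjp, one_mul]
      calc (2 : ℝ) ^ j ≤ 2 ^ m := pow_le_pow_right₀ (by norm_num) hj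
        _ ≤ 2 * (δ * n) := h2
        _ ≤ 2 * n := by nlinarith
    rw [hN, hc2]
    have hc5 : 8 * (n : ℝ) / 2 ^ j = 8 * (n / 2 ^ j) := by ring
    rw [hc5]
    linarith
  have hfin := perj38 (C := C) (b := b) (ε := ε) (δ := δ) hC hb hε hδ (n := n) (m := m) (j := j) hn h1 h2 hj
    (g := g) (k' := k') (N := N) (by rw [← hH]; exact hgr) (by rw [← hH]; exact hkr) hNle
  refine le_trans (le_of_eq ?_) hfin
  rw [hN, hX, hY]
  ring

theorem mod_up {β₁ β J : ℝ} (h0 : 0 ≤ β₁) (h : β₁ < β) (hm : 0 < mag β₁) (hJ : 1 < J) : ∃ C₀ : ℝ, 0 < C₀ ∧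
    ∀ ε t : ℝ, 0 < ε → 0 < t → ∃ (δ : ℝ) (n₀ : ℕ), 0 < δ ∧ ∀ n : ℕ, n₀ ≤ n →
      PJ β J n (fun ω => ∃ x x' K k : ℤ, |(x : ℝ) - x'| ≤ δ * n ∧ C₀ * Real.log n + 3 ≤ K ∧ ε * Real.sqrt n ≤ k ∧
        ¬ Above n x K ω ∧ Above n x' (K + k) ω) ≤ t := by
  obtain ⟨C₀, hC₀, hgood⟩ := good_lim h0 h hm hJ
  obtain ⟨C₁, c₁, r, hC₁, hc₁, hincr⟩ := incr h0 h hm hJ
  obtain ⟨C₂, c₂, r₂, hC₂, hc₂, htail⟩ := tail h0 h hm hJ
  refine ⟨C₀, hC₀, fun ε t hε ht => ?_⟩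
  obtain ⟨n₁, hn₁⟩ := hgood r (t / 2) (by positivity)
  set C := max C₁ C₂ with hC
  have hC1 : C₁ ≤ C := le_max_left _ _
  have hC2 : C₂ ≤ C := le_max_right _ _
  have hCp : 0 < C := hC₁.trans_le hC1
  set b := min c₁ c₂ / 2 with hb
  have hb0 : 0 < b := by rw [hb]; exact half_pos (lt_min hc₁ hc₂)
  have hb1 : 2 * b ≤ c₁ := by
    have := min_le_left c₁ c₂
    rw [hb]; linarith
  have hb2 : 2 * b ≤ c₂ := by
    have := min_le_right c₁ c₂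
    rw [hb]; linarith
  set M := 2048 * C / (Real.sqrt b * ε) with hM
  have hM0 : 0 < M := by
    have := Real.sqrt_pos.2 hb0
    positivity
  set A := M * 18 * (2048 / (b * ε ^ 2)) ^ 3 with hA
  have hA0 : 0 < A := by positivity
  set δ := min 1 (t / (4 * A)) with hδ
  have hδ0 : 0 < δ := lt_min one_pos (by positivity)
  have hδ1 : δ ≤ 1 := min_le_left _ _
  have hδt : A * δ ≤ t / 4 := by
    calc A * δ ≤ A * (t / (4 * A)) := mul_le_mul_of_nonneg_left (min_le_right _ _) hA0.le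
      _ = t / 4 := by field_simp
  obtain ⟨n₂, hn₂⟩ := total38 (M := M) (b := b) (ε := ε) (δ := δ) (t := t) hM0 hb0 hε hδ0 hδ1 ht hδt
  refine ⟨δ, n₁ + n₂ + r + r₂ + ⌈1 / δ⌉₊ + ⌈2 * (64 / ε) ^ 4⌉₊ + 1, hδ0, fun n hn => ?_⟩
  have hn1 : 1 ≤ n := by omega
  have hn0 : (1 : ℝ) ≤ n := by exact_mod_cast hn1
  have hnp : (0 : ℝ) < n := by linarith
  have hnδ : 1 ≤ δ * n := by
    have k1 := Nat.le_ceil (1 / δ)
    have k2 : ((⌈1 / δ⌉₊ : ℕ) : ℝ) ≤ n := by exact_mod_cast (by omega : ⌈1 / δ⌉₊ ≤ n)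
    have k3 : 1 / δ ≤ n := k1.trans k2
    rw [div_le_iff₀ hδ0] at k3
    linarith
  have hnε : 2 * (64 / ε) ^ 4 ≤ n := by
    have k1 := Nat.le_ceil (2 * (64 / ε) ^ 4)
    have k2 : ((⌈2 * (64 / ε) ^ 4⌉₊ : ℕ) : ℝ) ≤ n := by
      exact_mod_cast (by omega : ⌈2 * (64 / ε) ^ 4⌉₊ ≤ n)
    exact k1.trans k2
  obtain ⟨m, hm1, hm2⟩ := two_pow38 hnδ
  set w := Real.sqrt n with hw
  have hw0 : 0 < w := Real.sqrt_pos.2 hnp
  set H : ℕ → ℝ := fun j => ε / 16 * w * (7 / 8) ^ (m - j) with hH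
  have hH0 : ∀ j, 0 ≤ H j := fun j => by simp only [hH]; positivity
  have hH4 : ∀ j ≤ m, 4 ≤ H j := by
    intro j _
    have f0 : (2 : ℝ) ^ m ≤ 2 * n := by nlinarith
    have f1 := rho_four38 m
    have f2 : (w * (7 / 8) ^ m) ^ 4 = n ^ 2 * ((7 / 8) ^ m) ^ 4 := by
      rw [mul_pow]
      congr 1
      have f3 : w ^ 4 = (w ^ 2) ^ 2 := by ring
      rw [f3, hw, Real.sq_sqrt hnp.le]
    have f3 : (1 : ℝ) ≤ 2 * n * ((7 / 8) ^ m) ^ 4 := f1.trans (by gcongr)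
    have f4 : (64 / ε) ^ 4 ≤ (w * (7 / 8) ^ m) ^ 4 := by
      rw [f2]
      nlinarith
    have f5 : 64 / ε ≤ w * (7 / 8) ^ m := le_of_pow_le_pow_left₀ (by norm_num) (by positivity) f4
    have f6 : ((7 : ℝ) / 8) ^ m ≤ (7 / 8) ^ (m - j) :=
      pow_le_pow_of_le_one (by norm_num) (by norm_num) (by omega)
    have f7 : 64 / ε ≤ w * (7 / 8) ^ (m - j) := f5.trans (by gcongr)
    rw [div_le_iff₀ hε] at f7
    simp only [hH]
    linarith
  have hsum : 2 * ∑ j ∈ range m, H j + H m < ε * w := by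
    simp only [hH]
    rw [← Finset.mul_sum, rho_sum38, Nat.sub_self, pow_zero]
    have f1 : (0 : ℝ) < (7 / 8) ^ m := by positivity
    have f2 : 0 < ε * w := by positivity
    have f3 : 0 < ε * w * (7 / 8) ^ m := by positivity
    nlinarith
  set K₀ : ℤ := ⌈C₀ * Real.log n⌉ + 2 with hK₀
  have hlog : 0 ≤ C₀ * Real.log n := mul_nonneg hC₀.le (Real.log_nonneg hn0)
  have hK2 : 2 ≤ K₀ := by
    have : 0 ≤ ⌈C₀ * Real.log n⌉ := Int.ceil_nonneg hlog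
    omega
  have hgd : PJ β J n (fun ω => ¬ Good n r K₀ ω) ≤ t / 2 := by
    apply hn₁ n (by omega) K₀
    rw [hK₀]
    push_cast
    have := Int.le_ceil (C₀ * Real.log n)
    linarith
  have step1 := PJ_or38 (β := β) (J := J) (n := n)
    (E := fun ω => ∃ x x' K k : ℤ, |(x : ℝ) - x'| ≤ δ * n ∧ C₀ * Real.log n + 3 ≤ K ∧ ε * w ≤ k ∧
        ¬ Above n x K ω ∧ Above n x' (K + k) ω)
    (F := fun ω => ¬ Good n r K₀ ω)
    (G := fun ω => ∃ j ∈ range (m + 1), ∃ i ∈ Finset.Icc (-((n : ℤ) / 2 ^ j)) ((n : ℤ) / 2 ^ j),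
      ∃ s ∈ ({1, -1} : Finset ℤ), ∃ q ∈ range n,
        Good n r K₀ ω ∧ ¬ Above n (2 ^ j * i + s * 2 ^ j) (K₀ + ⌊H j / 2⌋ * ((q : ℤ) + 1)) ω ∧
        Above n (2 ^ j * i) (K₀ + ⌊H j / 2⌋ * ((q : ℤ) + 1) + (⌊H j⌋ + 1 - ⌊H j / 2⌋)) ω) ?_
  · refine step1.trans ?_
    have step2 := PJ_union38 (β := β) (J := J) (n := n) (S := range (m + 1))
      (E := fun ω => ∃ j ∈ range (m + 1), ∃ i ∈ Finset.Icc (-((n : ℤ) / 2 ^ j)) ((n : ℤ) / 2 ^ j),
        ∃ s ∈ ({1, -1} : Finset ℤ), ∃ q ∈ range n,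
        Good n r K₀ ω ∧ ¬ Above n (2 ^ j * i + s * 2 ^ j) (K₀ + ⌊H j / 2⌋ * ((q : ℤ) + 1)) ω ∧
        Above n (2 ^ j * i) (K₀ + ⌊H j / 2⌋ * ((q : ℤ) + 1) + (⌊H j⌋ + 1 - ⌊H j / 2⌋)) ω)
      (F := fun j ω => ∃ i ∈ Finset.Icc (-((n : ℤ) / 2 ^ j)) ((n : ℤ) / 2 ^ j),
        ∃ s ∈ ({1, -1} : Finset ℤ), ∃ q ∈ range n,
        Good n r K₀ ω ∧ ¬ Above n (2 ^ j * i + s * 2 ^ j) (K₀ + ⌊H j / 2⌋ * ((q : ℤ) + 1)) ω ∧
        Above n (2 ^ j * i) (K₀ + ⌊H j / 2⌋ * ((q : ℤ) + 1) + (⌊H j⌋ + 1 - ⌊H j / 2⌋)) ω)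
      (fun ω _ h => h)
    have step3 := Finset.sum_le_sum fun j (hj : j ∈ range (m + 1)) =>
      level38 (β := β) (J := J) (n := n) (r := r) hn1 hK2 hC₁ hC1 hC2 hb0 hb1 hb2
        (hincr n (by omega)) (htail n (by omega)) hε hδ0 hδ1 hm1 hm2
        (j := j) (by have := Finset.mem_range.1 hj; omega) (H := H j) rfl
        (hH4 j (by have := Finset.mem_range.1 hj; omega))
    have step4 := hn₂ n (by omega) m hm1 hm2
    have := (step2.trans step3).trans step4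
    linarith
  · intro ω hω hE
    obtain ⟨x, x', K, k, hx, hK, hk, h1, h2⟩ := hE
    by_cases hG : Good n r K₀ ω
    · right
      have hxZ : |x - x'| ≤ 2 ^ m := by
        have : |(x : ℝ) - x'| ≤ 2 ^ m := hx.trans hm1
        exact_mod_cast this
      have hKK : K₀ < K := by
        have f1 : ⌈C₀ * Real.log n⌉ ≤ K - 3 := by
          rw [Int.ceil_le]
          push_cast
          linarith
        omega
      have hk0 : 0 ≤ k := by
        have : (0 : ℝ) ≤ k := le_trans (by positivity) hk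
        exact_mod_cast this
      obtain ⟨j, hj, i, hi, s, hs, q, hq, g1, g2⟩ := det38 (by omega) hω hH0 hH4 hsum hxZ hKK hk hk0 h1 h2
      exact ⟨j, hj, i, hi, s, hs, q, hq, hG, g1, g2⟩
    · exact Or.inl hG

end Pool.Agent.Helper49.TT
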