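import Pool.Agent.Helper49.DX.Wl4
import Pool.Agent.Helper49.DX.Fkg

/-!
Block TT-B: with probability bounded below the interface is above the whole defect line.

Paper proof of `noup_low`. `κ = kap J`, `Up` from `DX/Wl1.lean`, increasing in `ω` (`up_mono`).
(1) As in the proof of `lower_final` (`DX/Wl4.lean`, copy its private lemmas): `no_contact` with `t = 1/8`, `side_half`: there are `R ≥ 0`, `n₀` with `avg (box l M) (1 {∀ x, |x| ≤ l - R → ¬ Up (x, 1)}) ≥ 1/4` for all `n₀ ≤ l ≤ M`.
(2) Let `S` be the set of the sites `(x, 1)` with `l - R < |x| ≤ l` (at most `2 R`), `B = {ω = false on S}`. If `ω ∈ B` then `¬ Up (x, 1)` for `l - R < |x| ≤ l`: `(-l, 1)` is `StarAdj` to `(-l - 1, 0)`, which is off the box with height `≤ 0`, so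
`(-l, 1), (-l + 1, 1), ..., (-l + R - 1, 1)` are `Low` one after the other (`Low`: a path of `StarAdj` `false` sites from the outside of the lower half); the same on the right; `up_not_low`.
(3) `avg (1_B) ≥ p^(2 R)` with `p > 0` depending only on `β, J`: finite energy. For a single site: for all `Λ ∋ v`, `η`, and `G ≥ 0` not depending on `ω v`: `avg (G * 1 {ω v = false}) ≥ p * avg G`: `dlr` with `Λ' = {v}` and
`avg β κ {v} ω (1 {ω v = false}) = e^{β a}/(e^{β a} + e^{β b}) ≥ 1/(1 + e^{β (3 + J)})` where `a, b ≤ 3 + J` are the energies of the two values (`en κ {v}`); iterate over the sites of `S`.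
(4) `avg_fkg` (`DX/Fkg.lean`) for the decreasing events (apply it to `1 -` indicator or to minus the indicators): `avg (1_A 1_B) ≥ avg 1_A * avg 1_B ≥ p^(2R)/4`.
-/

open Finset
open scoped Classical

namespace Pool.Agent.Helper49.TT

open Pool.Agent.Helper49.DL Pool.Agent.Helper49.DX

private theorem gg_step26b {N M : ℤ} {ω : Cfg} (h : ω ∈ confs (box N M) (eta 0)) (hM : 0 ≤ M) {x : ℤ}
    (hc : ¬ On N ω (x, 0)) : gg N M ω (x, 1) = gg N M ω (x + 1, 1) := by
  have h1 := gg_hor h hM x 1
  have h2 : ig N ω ((x, 1), true) = 0 := by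
    unfold ig
    rw [if_neg]
    intro h3
    refine hc ⟨((x, 1), true), Or.inr (Or.inr (Or.inr ?_)), h3⟩
    simp [e2]
  rw [h2] at h1
  exact CharTwo.add_eq_zero.1 h1

private theorem gg_row26b {N M n : ℤ} {ω : Cfg} (h : ω ∈ confs (box N M) (eta 0)) (hM : 0 ≤ M)
    (h1 : gg N M ω (0, 1) = 1) (hc : ¬ ∃ x : ℤ, |x| ≤ n ∧ On N ω (x, 0)) (x : ℤ) (hx : |x| ≤ n) :
    gg N M ω (x, 1) = 1 := by
  have hc' : ∀ y : ℤ, |y| ≤ n → ¬ On N ω (y, 0) := fun y hy ho => hc ⟨y, hy, ho⟩
  have hpos : ∀ k : ℕ, (k : ℤ) ≤ n → gg N M ω ((k : ℤ), 1) = 1 := by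
    intro k
    induction k with
    | zero => intro _; exact h1
    | succ k ih =>
      intro hk
      push_cast at hk ⊢
      rw [← gg_step26b h hM (hc' k (by rw [Nat.abs_cast]; omega))]
      exact ih (by omega)
  have hneg : ∀ k : ℕ, (k : ℤ) ≤ n → gg N M ω (-(k : ℤ), 1) = 1 := by
    intro k
    induction k with
    | zero => intro _; exact h1
    | succ k ih =>
      intro hk
      push_cast at hk ⊢
      have h2 : |(-((k : ℤ) + 1))| ≤ n := by
        rw [abs_neg, abs_of_nonneg (by omega)]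
        exact hk
      rw [gg_step26b h hM (hc' _ h2)]
      have h3 : -((k : ℤ) + 1) + 1 = -(k : ℤ) := by ring
      rw [h3]
      exact ih (by omega)
  rcases Int.eq_nat_or_neg x with ⟨k, rfl | rfl⟩
  · exact hpos k (by rwa [Nat.abs_cast] at hx)
  · exact hneg k (by rwa [abs_neg, Nat.abs_cast] at hx)

/-- Finite energy, one site, all boundary conditions. -/
private theorem fin_one26 {β J : ℝ} (hβ : 0 ≤ β) (hJ : 1 ≤ J) (v : Site) (ω : Cfg) :
    1 / (2 * Real.exp (β * (2 + 2 * J))) ≤
      avg β (kap J) {v} ω (fun ξ => if ξ v = false then 1 else 0) := by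
  have hk1 : ∀ i, kap J i ≤ J := by
    intro i
    unfold kap
    split_ifs
    · exact le_rfl
    · exact hJ
  have hk0 : ∀ i, 0 ≤ kap J i := fun i => kap_nonneg (by linarith) i
  have hen : ∀ ξ : Cfg, en (kap J) {v} ξ ≤ 2 + 2 * J := by
    intro ξ
    unfold en
    have c1 : (hb {v}).card ≤ 2 := by
      unfold hb
      refine (Finset.card_union_le _ _).trans ?_
      have := Finset.card_image_le (s := ({v} : Finset Site)) (f := fun i => i - e1)
      rw [Finset.card_singleton] at this ⊢
      omega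
    have c2 : (vb {v}).card ≤ 2 := by
      unfold vb
      refine (Finset.card_union_le _ _).trans ?_
      have := Finset.card_image_le (s := ({v} : Finset Site)) (f := fun i => i - e2)
      rw [Finset.card_singleton] at this ⊢
      omega
    have s1 : ∑ i ∈ hb {v}, agr (ξ i) (ξ (i + e1)) ≤ 2 := by
      refine (Finset.sum_le_card_nsmul _ _ 1 fun i _ => agr_le_one _ _).trans ?_
      rw [nsmul_eq_mul, mul_one]
      exact_mod_cast c1
    have s2 : ∑ i ∈ vb {v}, kap J i * agr (ξ i) (ξ (i + e2)) ≤ 2 * J := by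
      refine (Finset.sum_le_card_nsmul _ _ J fun i _ => ?_).trans ?_
      · have h1 := mul_le_mul (hk1 i) (agr_le_one (ξ i) (ξ (i + e2))) (agr_nonneg _ _)
          (by linarith : (0 : ℝ) ≤ J)
        rwa [mul_one] at h1
      · rw [nsmul_eq_mul]
        refine mul_le_mul_of_nonneg_right ?_ (by linarith)
        exact_mod_cast c2
    linarith
  have hen0 : ∀ ξ : Cfg, 0 ≤ en (kap J) {v} ξ := by
    intro ξ
    unfold en
    refine add_nonneg (Finset.sum_nonneg fun i _ => agr_nonneg _ _)
      (Finset.sum_nonneg fun i _ => mul_nonneg (hk0 i) (agr_nonneg _ _))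
  have hw1 : ∀ ξ : Cfg, 1 ≤ wg β (kap J) {v} ξ := by
    intro ξ
    unfold wg
    exact Real.one_le_exp (mul_nonneg hβ (hen0 ξ))
  have hw2 : ∀ ξ : Cfg, wg β (kap J) {v} ξ ≤ Real.exp (β * (2 + 2 * J)) := by
    intro ξ
    unfold wg
    exact Real.exp_le_exp.2 (mul_le_mul_of_nonneg_left (hen ξ) hβ)
  have hcard : (confs {v} ω).card ≤ 2 := by
    unfold confs
    refine Finset.card_image_le.trans ?_
    rw [Finset.card_powerset, Finset.card_singleton]
    norm_num
  have hZ1 : Zg β (kap J) {v} ω (fun _ => 1) ≤ 2 * Real.exp (β * (2 + 2 * J)) := by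
    unfold Zg
    refine (Finset.sum_le_card_nsmul _ _ (Real.exp (β * (2 + 2 * J))) fun ξ _ => ?_).trans ?_
    · rw [mul_one]
      exact hw2 ξ
    · rw [nsmul_eq_mul]
      refine mul_le_mul_of_nonneg_right ?_ (Real.exp_pos _).le
      exact_mod_cast hcard
  have hZ2 : 1 ≤ Zg β (kap J) {v} ω (fun ξ => if ξ v = false then 1 else 0) := by
    have hmem : Function.update ω v false ∈ confs {v} ω := by
      rw [mem_confs]
      intro i hi
      rw [Finset.mem_singleton] at hi
      rw [Function.update_of_ne hi]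
    unfold Zg
    have h1 := Finset.single_le_sum (f := fun ξ : Cfg => wg β (kap J) {v} ξ *
      (if ξ v = false then (1 : ℝ) else 0)) (fun ξ _ => by
        refine mul_nonneg (wg_pos _ _ _ _).le ?_
        split_ifs <;> norm_num) hmem
    refine le_trans ?_ h1
    simp only [Function.update_self, if_true, mul_one]
    exact hw1 _
  unfold avg
  exact div_le_div₀ (by linarith) hZ2 Zg_one_pos hZ1

/-- Finite energy, one site of the box. -/
private theorem fin_box26 {β J : ℝ} (hβ : 0 ≤ β) (hJ : 1 ≤ J) {Λ : Finset Site} {η : Cfg} {v : Site}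
    (hv : v ∈ Λ) : 1 / (2 * Real.exp (β * (2 + 2 * J))) ≤
      avg β (kap J) Λ η (fun ξ => if ξ v = false then 1 else 0) := by
  have h1 := dlr (β := β) (κ := kap J) (η := η) (Finset.singleton_subset_iff.2 hv) (fun _ => 1)
    (fun ξ => if ξ v = false then 1 else 0) (fun _ _ _ => rfl)
  simp only [one_mul] at h1
  have h2 : avg β (kap J) Λ η (fun ξ => if ξ v = false then 1 else 0) =
      avg β (kap J) Λ η (fun ω => avg β (kap J) {v} ω (fun ξ => if ξ v = false then 1 else 0)) := by
    unfold avg at h1 ⊢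
    rw [h1]
  rw [h2, ← avg_const (β := β) (κ := kap J) (Λ := Λ) (η := η) (1 / (2 * Real.exp (β * (2 + 2 * J))))]
  exact avg_mono fun ω _ => fin_one26 hβ hJ v ω

private theorem avg_fkg_anti26 {β : ℝ} {κ : Site → ℝ} {Λ : Finset Site} {η : Cfg} (hβ : 0 ≤ β)
    (hκ : ∀ i, 0 ≤ κ i) {f g : Cfg → ℝ} (hf : Antitone f) (hg : Antitone g) :
    avg β κ Λ η f * avg β κ Λ η g ≤ avg β κ Λ η (fun ω => f ω * g ω) := by
  have h1 := avg_fkg (Λ := Λ) (η := η) hβ hκ (f := fun ω => (-1) * f ω) (g := fun ω => (-1) * g ω)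
    (fun a b hab => by have := hf hab; simp only; linarith)
    (fun a b hab => by have := hg hab; simp only; linarith)
  rw [avg_smul, avg_smul] at h1
  have h2 : avg β κ Λ η (fun ω => (-1) * f ω * ((-1) * g ω)) = avg β κ Λ η (fun ω => f ω * g ω) :=
    avg_congr fun ω _ => by ring
  rw [h2] at h1
  linarith

private theorem anti_ind26 (P : Cfg → Prop) [i : ∀ ω, Decidable (P ω)]
    (hP : ∀ a b : Cfg, a ≤ b → P b → P a) :
    Antitone (fun ω : Cfg => @ite ℝ (P ω) (i ω) 1 0) := by
  intro a b hab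
  simp only
  by_cases hb : P b
  · rw [if_pos hb, if_pos (hP a b hab hb)]
  · rw [if_neg hb]
    split_ifs <;> norm_num

private theorem fin_set26 {β J : ℝ} (hβ : 0 ≤ β) (hJ : 1 ≤ J) {Λ : Finset Site} {η : Cfg}
    (S : Finset Site) (hS : S ⊆ Λ) : (1 / (2 * Real.exp (β * (2 + 2 * J)))) ^ S.card ≤
      avg β (kap J) Λ η (fun ξ => if ∀ v ∈ S, ξ v = false then 1 else 0) := by
  induction S using Finset.induction with
  | empty =>
    simp only [Finset.card_empty, pow_zero, Finset.notMem_empty, false_imp_iff, implies_true, if_true]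
    rw [avg_const]
  | insert v S hv ih =>
    have h1 := ih ((Finset.subset_insert v S).trans hS)
    have h2 := fin_box26 (η := η) hβ hJ (hS (Finset.mem_insert_self v S))
    have h3 := avg_fkg_anti26 (Λ := Λ) (η := η) hβ (kap_nonneg (by linarith : (0 : ℝ) ≤ J))
      (f := fun ξ => if ξ v = false then 1 else 0)
      (g := fun ξ => if ∀ v ∈ S, ξ v = false then 1 else 0)
      (anti_ind26 (fun ξ : Cfg => ξ v = false) fun a b hab hb => by
        have := hab v
        rw [hb] at this
        exact le_bot_iff.1 this)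
      (anti_ind26 (fun ξ : Cfg => ∀ v ∈ S, ξ v = false) fun a b hab hb w hw => by
        have := hab w
        rw [hb w hw] at this
        exact le_bot_iff.1 this)
    have h4 : avg β (kap J) Λ η (fun ξ => (if ξ v = false then (1 : ℝ) else 0) *
        (if ∀ v ∈ S, ξ v = false then 1 else 0)) =
        avg β (kap J) Λ η (fun ξ => if ∀ w ∈ insert v S, ξ w = false then 1 else 0) := by
      refine avg_congr fun ξ _ => ?_
      simp only [Finset.forall_mem_insert]
      by_cases a1 : ξ v = false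
      · by_cases a2 : ∀ v ∈ S, ξ v = false
        · rw [if_pos a1, if_pos a2, if_pos ⟨a1, a2⟩, one_mul]
        · rw [if_pos a1, if_neg a2, if_neg (fun hh => a2 hh.2), mul_zero]
      · rw [if_neg a1, zero_mul, if_neg (fun hh : ξ v = false ∧ ∀ v ∈ S, ξ v = false => a1 hh.1)]
    rw [← h4, Finset.card_insert_of_notMem hv, pow_succ, mul_comm]
    refine le_trans ?_ h3
    exact mul_le_mul h2 h1 (by positivity) (le_trans (by positivity) h2)

private theorem quarter26 {β₁ β J : ℝ} (h0 : 0 ≤ β₁) (h : β₁ < β) (hm : 0 < mag β₁) (hJ : 1 < J) :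
    ∃ R n : ℤ, 0 ≤ R ∧ R ≤ n ∧ 1 ≤ n ∧ ∀ N M : ℤ, n ≤ N → N ≤ M →
      1 / 4 ≤ avg β (kap J) (box N M) (eta 0)
        (fun ω => if ∀ x : ℤ, |x| ≤ N - R → ¬ Up N M ω (x, 1) then 1 else 0) := by
  obtain ⟨R, n0, hR, hnc⟩ := no_contact h0 h hm hJ (show (0 : ℝ) < 1 / 8 by norm_num)
  refine ⟨R, max (max n0 R) 1, hR, (le_max_right _ _).trans (le_max_left _ _), le_max_right _ _, ?_⟩
  intro N M hN hNM
  have hN0 : n0 ≤ N := ((le_max_left _ _).trans (le_max_left _ _)).trans hN
  have hNR : R ≤ N := ((le_max_right _ _).trans (le_max_left _ _)).trans hN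
  have hN1 : 1 ≤ N := (le_max_right _ _).trans hN
  have hM1 : 1 ≤ M := hN1.trans hNM
  have hNn : 0 ≤ N := by omega
  have hc := hnc N M hN0 hNM
  have hs := side_half hNn hM1 β J 0
  set a : ℝ := avg β (kap J) (box N M) (eta 0) (fun ω => if gg N M ω (0, 1) = 1 then 1 else 0) with ha
  set i0 : ℝ := avg β (kap J) (box N M) (eta 0)
    (fun ω => if Interface N ω ((0, 0), false) then 1 else 0) with hi0
  set c : ℝ := avg β (kap J) (box N M) (eta 0)
    (fun ω => if ∃ x : ℤ, |x| ≤ N - R ∧ On N ω (x, 0) then 1 else 0) with hcdef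
  set A : ℝ := avg β (kap J) (box N M) (eta 0)
    (fun ω => if ∀ x : ℤ, |x| ≤ N - R → ¬ Up N M ω (x, 1) then 1 else 0) with hA
  have h1 : i0 ≤ c := by
    refine avg_mono fun ω _ => ?_
    by_cases h2 : Interface N ω ((0, 0), false)
    · have h3 : ∃ x : ℤ, |x| ≤ N - R ∧ On N ω (x, 0) := by
        refine ⟨0, ?_, ((0, 0), false), Or.inr (Or.inl rfl), h2⟩
        rw [abs_zero]
        omega
      rw [if_pos h2, if_pos h3]
    · rw [if_neg h2]
      split_ifs
      · exact zero_le_one
      · exact le_rfl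
  have h2 : a ≤ A + c := by
    rw [hA, hcdef, ← avg_add]
    refine avg_mono fun ω hω => ?_
    by_cases h3 : gg N M ω (0, 1) = 1
    · by_cases h4 : ∃ x : ℤ, |x| ≤ N - R ∧ On N ω (x, 0)
      · rw [if_pos h3, if_pos h4]
        split_ifs <;> norm_num
      · have h5 : ∀ x : ℤ, |x| ≤ N - R → ¬ Up N M ω (x, 1) := by
          intro x hx hup
          have h6 := up_gg hω hNn hM1 hup
          have h7 := gg_row26b hω (by omega) h3 h4 x hx
          rw [h6] at h7
          exact absurd h7 (by decide)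
        rw [if_pos h3, if_neg h4, if_pos h5]
        norm_num
    · rw [if_neg h3]
      split_ifs <;> norm_num
  have h3 : 1 / 2 - i0 ≤ a := by
    have := (abs_le.1 hs).1
    linarith
  linarith

private theorem low_left26 {l M R : ℤ} {ω : Cfg} (hl : 1 ≤ l) (hM : 1 ≤ M) (hRl : R ≤ l)
    (hω : ∀ x : ℤ, l - R < |x| → |x| ≤ l → ω (x, 1) = false) (k : ℕ) (hk : (k : ℤ) < R) :
    Low l M ω (-l + k, 1) := by
  have hmem : ∀ k : ℕ, (k : ℤ) < R → ((-l + k, 1) : Site) ∈ box l M := by
    intro k hk
    rw [mem_box]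
    simp only
    omega
  have hf : ∀ k : ℕ, (k : ℤ) < R → ω (-l + k, 1) = false := by
    intro k hk
    have e : |(-l + (k : ℤ))| = l - k := by
      rw [abs_of_nonpos (by omega)]
      ring
    exact hω _ (by rw [e]; omega) (by rw [e]; omega)
  induction k with
  | zero =>
    have h0 : Low l M ω (-l - 1, 0) := by
      refine ⟨(-l - 1, 0), ?_, le_rfl, Relation.ReflTransGen.refl⟩
      rw [mem_box]
      simp only
      omega
    refine low_step h0 ?_ (hf 0 hk) (hmem 0 hk)
    constructor <;> rw [abs_le] <;> constructor <;> push_cast <;> omega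
  | succ k ih =>
    have h1 := ih (by push_cast at hk; omega)
    refine low_step h1 ?_ (hf (k + 1) hk) (hmem (k + 1) hk)
    constructor <;> rw [abs_le] <;> constructor <;> push_cast <;> omega

private theorem low_right26 {l M R : ℤ} {ω : Cfg} (hl : 1 ≤ l) (hM : 1 ≤ M) (hRl : R ≤ l)
    (hω : ∀ x : ℤ, l - R < |x| → |x| ≤ l → ω (x, 1) = false) (k : ℕ) (hk : (k : ℤ) < R) :
    Low l M ω (l - k, 1) := by
  have hmem : ∀ k : ℕ, (k : ℤ) < R → ((l - k, 1) : Site) ∈ box l M := by
    intro k hk
    rw [mem_box]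
    simp only
    omega
  have hf : ∀ k : ℕ, (k : ℤ) < R → ω (l - k, 1) = false := by
    intro k hk
    have e : |(l - (k : ℤ))| = l - k := abs_of_nonneg (by omega)
    exact hω _ (by rw [e]; omega) (by rw [e]; omega)
  induction k with
  | zero =>
    have h0 : Low l M ω (l + 1, 0) := by
      refine ⟨(l + 1, 0), ?_, le_rfl, Relation.ReflTransGen.refl⟩
      rw [mem_box]
      simp only
      omega
    refine low_step h0 ?_ (hf 0 hk) (hmem 0 hk)
    constructor <;> rw [abs_le] <;> constructor <;> push_cast <;> omega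
  | succ k ih =>
    have h1 := ih (by push_cast at hk; omega)
    refine low_step h1 ?_ (hf (k + 1) hk) (hmem (k + 1) hk)
    constructor <;> rw [abs_le] <;> constructor <;> push_cast <;> omega

theorem noup_low {β₁ β J : ℝ} (h0 : 0 ≤ β₁) (h : β₁ < β) (hm : 0 < mag β₁) (hJ : 1 < J) :
    ∃ (p₀ : ℝ) (l₀ : ℤ), 0 < p₀ ∧ 1 ≤ l₀ ∧ ∀ l M : ℤ, l₀ ≤ l → l ≤ M →
      p₀ ≤ avg β (kap J) (box l M) (eta 0)
        (fun ω => if ∀ x : ℤ, |x| ≤ l → ¬ Up l M ω (x, 1) then 1 else 0) := by
  obtain ⟨R, n, hR, hRn, hn1, hq⟩ := quarter26 h0 h hm hJ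
  have hβ : 0 ≤ β := h0.trans h.le
  have hJ0 : 0 ≤ J := by linarith
  set p : ℝ := 1 / (2 * Real.exp (β * (2 + 2 * J))) with hp
  have hp0 : 0 < p := by positivity
  have hp1 : p ≤ 1 := by
    rw [hp, div_le_one (by positivity)]
    have := Real.one_le_exp (show 0 ≤ β * (2 + 2 * J) by positivity)
    linarith
  refine ⟨p ^ (2 * R.toNat) * (1 / 4), n, by positivity, hn1, ?_⟩
  intro l M hl hlM
  have hA := hq l M hl hlM
  have hl1 : 1 ≤ l := hn1.trans hl
  have hM1 : 1 ≤ M := hl1.trans hlM
  have hRl : R ≤ l := hRn.trans hl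
  set S : Finset Site := (Finset.Icc (-l) (-l + R - 1) ∪ Finset.Icc (l - R + 1) l).image
    (fun x => ((x, 1) : Site)) with hSdef
  have hScard : S.card ≤ 2 * R.toNat := by
    rw [hSdef]
    refine Finset.card_image_le.trans ((Finset.card_union_le _ _).trans ?_)
    rw [Int.card_Icc, Int.card_Icc]
    have e1 : -l + R - 1 + 1 - -l = R := by ring
    have e2 : l + 1 - (l - R + 1) = R := by ring
    rw [e1, e2]
    omega
  have hSsub : S ⊆ box l M := by
    intro v hv
    rw [hSdef, Finset.mem_image] at hv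
    obtain ⟨x, hx, rfl⟩ := hv
    rw [Finset.mem_union, Finset.mem_Icc, Finset.mem_Icc] at hx
    rw [mem_box]
    simp only
    omega
  have hB := fin_set26 (η := eta 0) hβ hJ.le S hSsub
  rw [← hp] at hB
  have hB2 : p ^ (2 * R.toNat) ≤ p ^ S.card := pow_le_pow_of_le_one hp0.le hp1 hScard
  have hF := avg_fkg_anti26 (Λ := box l M) (η := eta 0) hβ (kap_nonneg hJ0)
    (f := fun ξ => if ∀ v ∈ S, ξ v = false then 1 else 0)
    (g := fun ω => if ∀ x : ℤ, |x| ≤ l - R → ¬ Up l M ω (x, 1) then 1 else 0)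
    (anti_ind26 (fun ξ : Cfg => ∀ v ∈ S, ξ v = false) fun a b hab hb w hw => by
      have := hab w
      rw [hb w hw] at this
      exact le_bot_iff.1 this)
    (anti_ind26 (fun ω : Cfg => ∀ x : ℤ, |x| ≤ l - R → ¬ Up l M ω (x, 1))
      fun a b hab hb x hx hup => hb x hx (up_mono hab hup))
  refine le_trans ?_ (hF.trans ?_)
  · exact mul_le_mul (hB2.trans hB) hA (by norm_num) (le_trans (by positivity) hB)
  · refine avg_mono fun ω _ => ?_
    by_cases a1 : ∀ v ∈ S, ω v = false
    · by_cases a2 : ∀ x : ℤ, |x| ≤ l - R → ¬ Up l M ω (x, 1)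
      · have a3 : ∀ x : ℤ, |x| ≤ l → ¬ Up l M ω (x, 1) := by
          intro x hx
          by_cases hx2 : |x| ≤ l - R
          · exact a2 x hx2
          · intro hup
            refine up_not_low hup ?_
            have hω : ∀ x : ℤ, l - R < |x| → |x| ≤ l → ω (x, 1) = false := by
              intro y hy1 hy2
              refine a1 _ ?_
              rw [hSdef, Finset.mem_image]
              refine ⟨y, ?_, rfl⟩
              rw [Finset.mem_union, Finset.mem_Icc, Finset.mem_Icc]
              rw [abs_le] at hy2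
              rcases lt_abs.1 hy1 with hy | hy
              · right
                omega
              · left
                omega
            push Not at hx2
            rw [abs_le] at hx
            rcases lt_abs.1 hx2 with hy | hy
            · have h5 := low_right26 (M := M) hl1 hM1 hRl hω (l - x).toNat (by omega)
              have e : l - ((l - x).toNat : ℤ) = x := by omega
              rwa [e] at h5
            · have h5 := low_left26 (M := M) hl1 hM1 hRl hω (l + x).toNat (by omega)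
              have e : -l + ((l + x).toNat : ℤ) = x := by omega
              rwa [e] at h5
        rw [if_pos a1, if_pos a2, if_pos a3, one_mul]
      · rw [if_neg a2, mul_zero]
        split_ifs <;> norm_num
    · rw [if_neg a1, zero_mul]
      split_ifs <;> norm_num

end Pool.Agent.Helper49.TT
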