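import Pool.Agent.Helper49.TT.EndLe
import Pool.Agent.Helper49.TT.NoUp
import Pool.Agent.Helper49.DX.Mn
import Pool.Agent.Helper49.DX.Wl3

/-!
Block TT-D: the same for the interface above a wall.

Paper proof of `wall_end`. `avg (ubox l m)` is nondecreasing in `m` (`wall_mono`, `DX/Mn.lean`, for the family `{{(x, K)}}`; `hts_single`), so one may replace `m` by `M = max m l ≥ l`. `wall_lower` (`DX/Wl3.lean`) with `N = n = l`, `J = 2`: `P (∀ x, |x| ≤ l → ¬ Up l M ω (x, 1)) * avg (ubox l M) (Above l x K) ≤ avg β (kap 2) (box l M) (Above l x K)`.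
`noup_low` and `end_le` with `J = 2`.
-/

open Finset
open scoped Classical

namespace Pool.Agent.Helper49.TT

open Pool.Agent.Helper49.DL Pool.Agent.Helper49.DX

private theorem hts75 (N x K : ℤ) (ω : Cfg) : Hts N {{(x, K)}} ω ↔ Above N x K ω := by
  unfold Hts
  simp only [Finset.mem_singleton, exists_eq_left, forall_eq]

theorem wall_end {β₁ β : ℝ} (h0 : 0 ≤ β₁) (h : β₁ < β) (hm : 0 < mag β₁) :
    ∃ (C c : ℝ) (l₀ : ℕ), 0 < C ∧ 0 < c ∧ 1 ≤ l₀ ∧ ∀ l m : ℕ, l₀ ≤ l → 1 ≤ m → ∀ x K : ℤ, |x| ≤ l → 1 ≤ K →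
      avg β (kap 1) (ubox l m) (eta 0) (fun ω => if Above l x K ω then 1 else 0) ≤
        C * Real.exp (-(c * min ((K : ℝ) ^ 2 / ((l : ℝ) - |(x : ℝ)| + 1)) (K : ℝ))) := by
  have hβ : 0 ≤ β := h0.trans h.le
  obtain ⟨C, c, l₀, hC, hc, hl₀, hend⟩ := end_le h0 h hm (J := 2) (by norm_num)
  obtain ⟨p₀, l₁, hp₀, hl₁, hno⟩ := noup_low h0 h hm (J := 2) (by norm_num)
  refine ⟨C / p₀, c, max l₀ l₁.toNat, div_pos hC hp₀, hc, hl₀.trans (le_max_left _ _), ?_⟩
  intro l m hl hm1 x K hx hK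
  have hl0 : l₀ ≤ l := (le_max_left _ _).trans hl
  have hl1 : l₁ ≤ (l : ℤ) := by
    have := (le_max_right _ _).trans hl
    omega
  have h1l : 1 ≤ l := hl₀.trans hl0
  obtain ⟨M, hM⟩ : ∃ M, M = max m l := ⟨_, rfl⟩
  have hlM : l ≤ M := by rw [hM]; exact le_max_right _ _
  have hmM : m ≤ M := by rw [hM]; exact le_max_left _ _
  have e1 : ∀ (Λ : Finset Site) (κ : Site → ℝ), avg β κ Λ (eta 0) (fun ω => if Hts l {{(x, K)}} ω then 1 else 0) =
      avg β κ Λ (eta 0) (fun ω => if Above l x K ω then 1 else 0) := by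
    intro Λ κ
    refine avg_congr fun ω _ => ?_
    by_cases hh : Above l x K ω
    · rw [if_pos hh, if_pos ((hts75 _ _ _ _).2 hh)]
    · rw [if_neg hh, if_neg fun h' => hh ((hts75 _ _ _ _).1 h')]
  have h1 := wall_mono (β := β) hβ (n := (l : ℤ)) (M := (m : ℤ)) (M' := (M : ℤ)) (by omega) (by omega) (by omega) {{(x, K)}}
  have h2 := wall_lower (β := β) (J := 2) hβ (by norm_num) (N := (l : ℤ)) (M := (M : ℤ)) (n := (l : ℤ)) (by omega) le_rfl
    (by omega) {{(x, K)}} (by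
      intro W hW p hp
      rw [Finset.mem_singleton] at hW
      rw [hW, Finset.mem_singleton] at hp
      rw [hp]
      exact ⟨hx, hK⟩)
  rw [e1, e1] at h1 h2
  have h3 := hno (l : ℤ) (M : ℤ) hl1 (by omega)
  have h4 := hend l M hl0 hlM x K hx hK
  have hnn : 0 ≤ avg β (kap 1) (ubox l M) (eta 0) (fun ω => if Above l x K ω then 1 else 0) :=
    avg_nonneg fun ω _ => by split_ifs <;> norm_num
  rw [div_mul_eq_mul_div, le_div_iff₀ hp₀]
  calc avg β (kap 1) (ubox l m) (eta 0) (fun ω => if Above l x K ω then 1 else 0) * p₀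
      ≤ avg β (kap 1) (ubox l M) (eta 0) (fun ω => if Above l x K ω then 1 else 0) * p₀ :=
        mul_le_mul_of_nonneg_right h1 hp₀.le
    _ ≤ avg β (kap 1) (ubox l M) (eta 0) (fun ω => if Above l x K ω then 1 else 0) *
        avg β (kap 2) (box l M) (eta 0) (fun ω => if ∀ x : ℤ, |x| ≤ l → ¬ Up l M ω (x, 1) then 1 else 0) :=
        mul_le_mul_of_nonneg_left h3 hnn
    _ ≤ avg β (kap 2) (box l M) (eta 0) (fun ω => if Above l x K ω then 1 else 0) := by
        rw [mul_comm]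
        exact h2
    _ ≤ _ := h4

end Pool.Agent.Helper49.TT
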